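import Pool.Agent.Work.MP_db9399_ts_helper55.Three

/-!
# MP_db9399, PHASE, part H: the numbers (helper55)
-/

set_option autoImplicit false

namespace Pool.Agent.Work.MP_db9399_ts.helper55

open Finset Filter Topology

/-- powers -/
theorem ev_pow (B η e f : ℝ) (h : e < f) (hη : 0 < η) :
    ∀ᶠ d : ℕ in atTop, B * (d : ℝ) ^ e ≤ η * (d : ℝ) ^ f := by
  have h1 : Tendsto (fun d : ℕ => B * (d : ℝ) ^ (-(f - e))) atTop (𝓝 (B * 0)) :=
    ((tendsto_rpow_neg_atTop (by linarith : 0 < f - e)).comp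
      tendsto_natCast_atTop_atTop).const_mul B
  rw [mul_zero] at h1
  filter_upwards [h1.eventually_lt_const hη, eventually_gt_atTop 0] with d hd h0
  have hd0 : (0 : ℝ) < d := by exact_mod_cast h0
  have h2 : (d : ℝ) ^ e = (d : ℝ) ^ (-(f - e)) * (d : ℝ) ^ f := by
    rw [← Real.rpow_add hd0]
    congr 1
    ring
  rw [h2, ← mul_assoc]
  exact mul_le_mul_of_nonneg_right hd.le (Real.rpow_nonneg hd0.le _)

/-- number of halvings -/
noncomputable def Jf (C : ℝ) (d : ℕ) : ℕ := Nat.log 2 (⌈C⌉₊ * d) + 1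

/-- size of the tests -/
noncomputable def Kf (C0 C A : ℝ) (d : ℕ) : ℝ :=
  2 * (C0 * (((Jf C d : ℕ) + 1) * (Real.sqrt ((2 * A + 4) * Real.log d) + 1)))

theorem kf_log {C0 C A : ℝ} (hC0 : 1 ≤ C0) (hA : 1 ≤ A) (hC : 1 ≤ C) :
    ∀ᶠ d : ℕ in atTop, 12 * Kf C0 C A d ≤ Real.log d ^ 2 := by
  set B : ℝ := 144 * C0 * (Real.sqrt (2 * A + 4) + 1) with hB
  have hlog : Tendsto (fun d : ℕ => Real.log (d : ℝ)) atTop atTop :=
    Real.tendsto_log_atTop.comp tendsto_natCast_atTop_atTop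
  have hcl : 0 < ⌈C⌉₊ := Nat.ceil_pos.2 (by linarith)
  filter_upwards [hlog.eventually_ge_atTop (B ^ 2), hlog.eventually_ge_atTop (Real.log ⌈C⌉₊ + 1),
    hlog.eventually_ge_atTop 1, eventually_gt_atTop 0] with d h1 h2 h3 h0
  set l := Real.log (d : ℝ) with hl
  have hl0 : 0 ≤ l := by linarith
  have hd0 : (0 : ℝ) < d := by exact_mod_cast h0
  have hc0 : (0 : ℝ) < (⌈C⌉₊ : ℝ) := by exact_mod_cast hcl
  have hB0 : 0 ≤ B := by
    have := Real.sqrt_nonneg (2 * A + 4)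
    positivity
  -- J
  have hlog2 : (1 : ℝ) / 2 ≤ Real.log 2 := by have := Real.log_two_gt_d9; linarith
  have hJ : ((Jf C d : ℕ) : ℝ) + 1 ≤ 5 * l + 1 := by
    unfold Jf
    push_cast
    have h4 : ((Nat.log 2 (⌈C⌉₊ * d) : ℕ) : ℝ) ≤ Real.logb 2 ((⌈C⌉₊ * d : ℕ) : ℝ) :=
      Real.natLog_le_logb _ _
    have h5 : Real.logb 2 ((⌈C⌉₊ * d : ℕ) : ℝ) ≤ 4 * l := by
      unfold Real.logb
      push_cast
      rw [Real.log_mul hc0.ne' hd0.ne', div_le_iff₀ (by linarith)]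
      nlinarith
    linarith
  have hJ2 : ((Jf C d : ℕ) : ℝ) + 1 ≤ 6 * l := by linarith
  -- sqrt
  have hs : Real.sqrt ((2 * A + 4) * l) + 1 ≤ (Real.sqrt (2 * A + 4) + 1) * Real.sqrt l := by
    rw [Real.sqrt_mul (by linarith)]
    have h6 : 1 ≤ Real.sqrt l := by
      rw [show (1 : ℝ) = Real.sqrt 1 by simp]
      exact Real.sqrt_le_sqrt h3
    linarith
  have hsl : B ≤ Real.sqrt l := by
    rw [show B = Real.sqrt (B ^ 2) by rw [Real.sqrt_sq hB0]]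
    exact Real.sqrt_le_sqrt h1
  have hs0 := Real.sqrt_nonneg l
  have hss : Real.sqrt l * Real.sqrt l = l := Real.mul_self_sqrt hl0
  have hsA := Real.sqrt_nonneg (2 * A + 4)
  have hsAl := Real.sqrt_nonneg ((2 * A + 4) * l)
  have hprod : (((Jf C d : ℕ) : ℝ) + 1) * (Real.sqrt ((2 * A + 4) * l) + 1) ≤
      6 * l * ((Real.sqrt (2 * A + 4) + 1) * Real.sqrt l) :=
    mul_le_mul hJ2 hs (by positivity) (by positivity)
  unfold Kf
  calc 12 * (2 * (C0 * (((Jf C d : ℕ) + 1) * (Real.sqrt ((2 * A + 4) * l) + 1))))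
      ≤ 12 * (2 * (C0 * (6 * l * ((Real.sqrt (2 * A + 4) + 1) * Real.sqrt l)))) := by
        refine mul_le_mul_of_nonneg_left (mul_le_mul_of_nonneg_left
          (mul_le_mul_of_nonneg_left hprod (by linarith)) (by norm_num)) (by norm_num)
    _ = B * (l * Real.sqrt l) := by rw [hB]; ring
    _ ≤ Real.sqrt l * (l * Real.sqrt l) := mul_le_mul_of_nonneg_right hsl (by positivity)
    _ = l * (Real.sqrt l * Real.sqrt l) := by ring
    _ = l ^ 2 := by rw [hss]; ring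

theorem kf_pow {C0 C A s : ℝ} (hC0 : 1 ≤ C0) (hA : 1 ≤ A) (hC : 1 ≤ C) (hs : 0 < s) :
    ∀ᶠ d : ℕ in atTop, Kf C0 C A d ≤ (d : ℝ) ^ s := by
  have h1 : ∀ᶠ d : ℕ in atTop, Real.log (d : ℝ) ^ 2 ≤ (d : ℝ) ^ s := by
    have h2 := (isLittleO_log_rpow_atTop (half_pos hs)).bound zero_lt_one
    have h3 := tendsto_natCast_atTop_atTop.eventually h2
    filter_upwards [h3, eventually_ge_atTop 1] with d hd hd1
    have hd1' : (1 : ℝ) ≤ d := by exact_mod_cast hd1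
    have hl : 0 ≤ Real.log (d : ℝ) := Real.log_nonneg hd1'
    have hp : 0 ≤ (d : ℝ) ^ (s / 2) := Real.rpow_nonneg (by linarith) _
    rw [one_mul, Real.norm_of_nonneg hl, Real.norm_of_nonneg hp] at hd
    calc Real.log (d : ℝ) ^ 2 ≤ ((d : ℝ) ^ (s / 2)) ^ 2 := pow_le_pow_left₀ hl hd 2
      _ = (d : ℝ) ^ s := by
          rw [← Real.rpow_natCast, ← Real.rpow_mul (by linarith)]
          congr 1
          push_cast
          ring
  filter_upwards [h1, kf_log hC0 hA hC] with d h2 h3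
  have h4 : 0 ≤ Kf C0 C A d := by
    unfold Kf
    positivity
  linarith

/-- the numbers of PHASE -/
noncomputable def qq (C0 A C c β cc ε0 : ℝ) (d : ℕ) : Par where
  β := β
  cc := cc
  K := Kf C0 C A d
  t := (d : ℝ) ^ (1 - c)
  wh := (d : ℝ) ^ (c / 16)
  wr := (d : ℝ) ^ (1 - 3 * c / 4)
  D0 := (d : ℝ) ^ (c / 4)
  E0 := (d : ℝ) ^ (1 - c / 2)
  δ := (d : ℝ) ^ (-(c / 20)) / 3
  κ := (3 + 2 * C0) * C / d
  MR := C * d * (d : ℝ) ^ (1 - c)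
  DM := (d : ℝ) ^ A
  DT := (d : ℝ) ^ A
  Sp := 2 * C * (d : ℝ) ^ (A + 2)
  Λ := (2 * A + 4) * Real.log d
  ε0 := ε0
  Kc := 3 + 2 * C0
  x := (d : ℝ) ^ (-(c / 20)) / 3
  ρ := (d : ℝ) ^ (1 - c / 2) / 3
  J := Jf C d

theorem sqrt_pow {D : ℝ} (hD : 0 < D) (e : ℝ) : Real.sqrt (D ^ e) = D ^ (e / 2) := by
  rw [Real.sqrt_eq_rpow, ← Real.rpow_mul hD.le]
  congr 1
  ring

/-- `dlt` -/
theorem dlt_le {b' c' K D c s kc : ℝ} (hb : 0 < b') (hc : 0 < c') (hD : 1 ≤ D)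
    (hK1 : 1 ≤ K) (hK : K ≤ D ^ s) (hc0 : 0 < c)
    (e1 : 2 * (2 * b' + 1) / c' * D ^ (s - c / 8) ≤ 1 / 12 * D ^ (-(c / 20)))
    (e2 : 4 * b' / c' * D ^ (s - c / 4) ≤ 1 / 12 * D ^ (-(c / 20)))
    (e3 : 2 / c' * Real.sqrt (4 * b' ^ 3 / c') * D ^ (s - 3 * c / 8) ≤ 1 / 12 * D ^ (-(c / 20)))
    (e4 : 8 * b' * kc / c' * D ^ (-1 : ℝ) ≤ 1 / 12 * D ^ (-(c / 20))) :
    dlt b' c' K (D ^ (1 - c)) (D ^ (1 - 3 * c / 4)) (D ^ (c / 4)) (D ^ (1 - c / 2))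
      (D ^ (-(c / 20)) / 3) (2 * (kc / D)) ≤ D ^ (-(c / 20)) / 3 := by
  have hD0 : 0 < D := by linarith
  have hp : ∀ e : ℝ, 0 < D ^ e := fun e => Real.rpow_pos_of_pos hD0 e
  have hδ : D ^ (-(c / 20)) / 3 ≤ K := by
    have : D ^ (-(c / 20)) ≤ 1 := Real.rpow_le_one_of_one_le_of_nonpos hD (by linarith)
    linarith
  have t1 : 2 * (2 * b' * K + D ^ (-(c / 20)) / 3) / (c' * Real.sqrt (D ^ (c / 4))) ≤
      1 / 12 * D ^ (-(c / 20)) := by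
    refine le_trans ?_ e1
    rw [sqrt_pow hD0, show c / 4 / 2 = c / 8 by ring, Real.rpow_sub hD0,
      show 2 * (2 * b' + 1) / c' * (D ^ s / D ^ (c / 8)) =
        2 * ((2 * b' + 1) * D ^ s) / (c' * D ^ (c / 8)) by
        have := (hp (c / 8)).ne'
        field_simp]
    refine div_le_div_of_nonneg_right ?_ (mul_pos hc (hp _)).le
    nlinarith
  have t2 : 2 * (2 * b' * K * Real.sqrt (D ^ (1 - c) / D ^ (1 - c / 2))) / c' ≤
      1 / 12 * D ^ (-(c / 20)) := by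
    refine le_trans ?_ e2
    rw [← Real.rpow_sub hD0, sqrt_pow hD0, show (1 - c - (1 - c / 2)) / 2 = -(c / 4) by ring,
      show s - c / 4 = s + -(c / 4) by ring, Real.rpow_add hD0,
      show 4 * b' / c' * (D ^ s * D ^ (-(c / 4))) = 4 * b' * D ^ (-(c / 4)) / c' * D ^ s by ring,
      show 2 * (2 * b' * K * D ^ (-(c / 4))) / c' = 4 * b' * D ^ (-(c / 4)) / c' * K by ring]
    refine mul_le_mul_of_nonneg_left hK ?_
    have := hp (-(c / 4))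
    positivity
  have hkap : Real.sqrt (kap b' c' (D ^ (1 - c)) (D ^ (1 - 3 * c / 4))) =
      Real.sqrt (4 * b' ^ 3 / c') * D ^ (1 - 7 * c / 8) := by
    unfold kap
    rw [show 4 * b' ^ 3 * D ^ (1 - c) * D ^ (1 - 3 * c / 4) / c' =
      4 * b' ^ 3 / c' * (D ^ (1 - c) * D ^ (1 - 3 * c / 4)) by ring, ← Real.rpow_add hD0,
      Real.sqrt_mul (by positivity), sqrt_pow hD0]
    congr 2
    ring
  have t3 : 2 * (K * Real.sqrt (kap b' c' (D ^ (1 - c)) (D ^ (1 - 3 * c / 4))) /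
      D ^ (1 - c / 2)) / c' ≤ 1 / 12 * D ^ (-(c / 20)) := by
    refine le_trans ?_ e3
    rw [hkap, show s - 3 * c / 8 = s + (1 - 7 * c / 8 - (1 - c / 2)) by ring, Real.rpow_add hD0,
      Real.rpow_sub hD0 (1 - 7 * c / 8) (1 - c / 2),
      show 2 / c' * Real.sqrt (4 * b' ^ 3 / c') * (D ^ s * (D ^ (1 - 7 * c / 8) / D ^ (1 - c / 2))) =
        2 / c' * Real.sqrt (4 * b' ^ 3 / c') * (D ^ (1 - 7 * c / 8) / D ^ (1 - c / 2)) * D ^ s by ring,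
      show 2 * (K * (Real.sqrt (4 * b' ^ 3 / c') * D ^ (1 - 7 * c / 8)) / D ^ (1 - c / 2)) / c' =
        2 / c' * Real.sqrt (4 * b' ^ 3 / c') * (D ^ (1 - 7 * c / 8) / D ^ (1 - c / 2)) * K by ring]
    refine mul_le_mul_of_nonneg_left hK ?_
    have h1 := hp (1 - 7 * c / 8)
    have h2 := hp (1 - c / 2)
    positivity
  have t4 : 4 * b' * (2 * (kc / D)) / c' ≤ 1 / 12 * D ^ (-(c / 20)) := by
    refine le_trans (le_of_eq ?_) e4
    rw [Real.rpow_neg_one]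
    ring
  unfold dlt
  have h5 : 2 * (2 * b' * K * Real.sqrt (D ^ (1 - c) / D ^ (1 - c / 2)) +
      K * Real.sqrt (kap b' c' (D ^ (1 - c)) (D ^ (1 - 3 * c / 4))) / D ^ (1 - c / 2)) / c' =
      2 * (2 * b' * K * Real.sqrt (D ^ (1 - c) / D ^ (1 - c / 2))) / c' +
      2 * (K * Real.sqrt (kap b' c' (D ^ (1 - c)) (D ^ (1 - 3 * c / 4))) /
        D ^ (1 - c / 2)) / c' := by ring
  rw [h5]
  linarith

/-- `rer` -/
theorem rer_le {b' c' K D c s kc C C0 : ℝ} (hb : 0 < b') (hc : 0 < c') (hD : 1 ≤ D)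
    (hK1 : 1 ≤ K) (hK : K ≤ D ^ s)
    (e1 : 12 * b' ^ 3 / c' * D ^ (2 * s + (1 - c + c / 16 + c / 20)) ≤ 1 / 18 * D ^ (1 - c / 2))
    (e2 : 2 * Real.sqrt (4 * b' ^ 3 / c') * D ^ (s + (1 - 7 * c / 8)) ≤ 1 / 18 * D ^ (1 - c / 2))
    (e3 : 2 * b' * D ^ (s + (1 - 3 * c / 4)) ≤ 1 / 18 * D ^ (1 - c / 2))
    (e4 : 2 * kc * C * (4 * b' ^ 2 / c' + 4 * b') * D ^ (1 - c) ≤ 1 / 18 * D ^ (1 - c / 2))
    (e5 : 4 * C0 * b' * D ^ (1 - c) ≤ 1 / 18 * D ^ (1 - c / 2))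
    (e6 : 4 * kc * b' * C * D ^ (1 - c) ≤ 1 / 18 * D ^ (1 - c / 2)) :
    rer b' c' K (D ^ (1 - c)) (D ^ (c / 16)) (D ^ (1 - 3 * c / 4)) (D ^ (1 - c / 2))
      (D ^ (-(c / 20)) / 3) (2 * (kc / D)) (C * D * D ^ (1 - c)) +
      4 * C0 * b' * D ^ (1 - c) + 4 * (kc / D) * b' * (C * D * D ^ (1 - c)) ≤
      D ^ (1 - c / 2) / 3 := by
  have hD0 : 0 < D := by linarith
  have hp : ∀ e : ℝ, 0 < D ^ e := fun e => Real.rpow_pos_of_pos hD0 e
  have r1 : K ^ 2 * kap b' c' (D ^ (1 - c)) (D ^ (c / 16)) / (D ^ (-(c / 20)) / 3) ≤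
      1 / 18 * D ^ (1 - c / 2) := by
    refine le_trans ?_ e1
    have h1 : K ^ 2 ≤ D ^ (2 * s) := by
      have h2 : K ^ 2 ≤ (D ^ s) ^ 2 := pow_le_pow_left₀ (by linarith) hK 2
      rwa [← Real.rpow_natCast (D ^ s) 2, ← Real.rpow_mul hD0.le, show s * ((2 : ℕ) : ℝ) = 2 * s by
        push_cast; ring] at h2
    unfold kap
    rw [Real.rpow_neg hD0.le, Real.rpow_add hD0, Real.rpow_add hD0, Real.rpow_add hD0]
    have h3 : K ^ 2 * (4 * b' ^ 3 * D ^ (1 - c) * D ^ (c / 16) / c') / ((D ^ (c / 20))⁻¹ / 3) =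
        12 * b' ^ 3 / c' * (D ^ (1 - c) * D ^ (c / 16) * D ^ (c / 20)) * K ^ 2 := by
      have := (hp (c / 20)).ne'
      field_simp
      ring
    rw [h3, show 12 * b' ^ 3 / c' * (D ^ (2 * s) * (D ^ (1 - c) * D ^ (c / 16) * D ^ (c / 20))) =
      12 * b' ^ 3 / c' * (D ^ (1 - c) * D ^ (c / 16) * D ^ (c / 20)) * D ^ (2 * s) by ring]
    refine mul_le_mul_of_nonneg_left h1 ?_
    have h4 := hp (1 - c)
    have h5 := hp (c / 16)
    have h6 := hp (c / 20)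
    positivity
  have hkap : Real.sqrt (kap b' c' (D ^ (1 - c)) (D ^ (1 - 3 * c / 4))) =
      Real.sqrt (4 * b' ^ 3 / c') * D ^ (1 - 7 * c / 8) := by
    unfold kap
    rw [show 4 * b' ^ 3 * D ^ (1 - c) * D ^ (1 - 3 * c / 4) / c' =
      4 * b' ^ 3 / c' * (D ^ (1 - c) * D ^ (1 - 3 * c / 4)) by ring, ← Real.rpow_add hD0,
      Real.sqrt_mul (by positivity), sqrt_pow hD0]
    congr 2
    ring
  have r2 : 2 * K * Real.sqrt (kap b' c' (D ^ (1 - c)) (D ^ (1 - 3 * c / 4))) ≤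
      1 / 18 * D ^ (1 - c / 2) := by
    refine le_trans ?_ e2
    rw [hkap, Real.rpow_add hD0,
      show 2 * K * (Real.sqrt (4 * b' ^ 3 / c') * D ^ (1 - 7 * c / 8)) =
        2 * Real.sqrt (4 * b' ^ 3 / c') * D ^ (1 - 7 * c / 8) * K by ring,
      show 2 * Real.sqrt (4 * b' ^ 3 / c') * (D ^ s * D ^ (1 - 7 * c / 8)) =
        2 * Real.sqrt (4 * b' ^ 3 / c') * D ^ (1 - 7 * c / 8) * D ^ s by ring]
    refine mul_le_mul_of_nonneg_left hK ?_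
    have := hp (1 - 7 * c / 8)
    positivity
  have r3 : 2 * b' * K * Real.sqrt (D ^ (1 - c) * D ^ (1 - c / 2)) ≤ 1 / 18 * D ^ (1 - c / 2) := by
    refine le_trans ?_ e3
    rw [← Real.rpow_add hD0, sqrt_pow hD0, show (1 - c + (1 - c / 2)) / 2 = 1 - 3 * c / 4 by ring,
      Real.rpow_add hD0,
      show 2 * b' * K * D ^ (1 - 3 * c / 4) = 2 * b' * D ^ (1 - 3 * c / 4) * K by ring,
      show 2 * b' * (D ^ s * D ^ (1 - 3 * c / 4)) = 2 * b' * D ^ (1 - 3 * c / 4) * D ^ s by ring]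
    refine mul_le_mul_of_nonneg_left hK ?_
    have := hp (1 - 3 * c / 4)
    positivity
  have r4 : 2 * (kc / D) * (C * D * D ^ (1 - c)) * (4 * b' ^ 2 / c' + 4 * b') ≤
      1 / 18 * D ^ (1 - c / 2) := by
    refine le_trans (le_of_eq ?_) e4
    field_simp
  have r6 : 4 * (kc / D) * b' * (C * D * D ^ (1 - c)) ≤ 1 / 18 * D ^ (1 - c / 2) := by
    refine le_trans (le_of_eq ?_) e6
    field_simp
  unfold rer
  linarith

theorem exp_log_pow {D : ℝ} (hD : 0 < D) (y : ℝ) : Real.exp (-(y * Real.log D)) = D ^ (-y) := by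
  rw [Real.rpow_def_of_pos hD]
  congr 1
  ring

/-- all numbers for large `d` -/
theorem qq_ok (g : ℕ) {C0 A C c β cc : ℝ} (hC0 : 1 ≤ C0) (hA : 1 ≤ A) (hC : 1 ≤ C)
    (hc : 0 < c) (hc1 : c ≤ 1) (hβ : 0 < β) (hcc : 0 < cc) :
    ∀ᶠ d : ℕ in atTop, ∀ ε0 : ℝ, 0 ≤ ε0 → ε0 ≤ 1 / 4 → (qq C0 A C c β cc ε0 d).Ok g C0 ∧
      1 ≤ d ∧ g * (3 + 2 * C0) ≤ (d : ℝ) / C ∧ 12 * Kf C0 C A d ≤ Real.log d ^ 2 ∧
      24 * ((3 + 2 * C0) * C) ≤ Real.log d ^ 2 := by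
  set s := c / 100 with hs
  set b' := 4 * β with hb'
  set c' := cc / 2 with hc'
  set kc := (3 + 2 * C0) * C with hkc
  have hb'0 : 0 < b' := by positivity
  have hc'0 : 0 < c' := by positivity
  have hlog : Tendsto (fun d : ℕ => Real.log (d : ℝ)) atTop atTop :=
    Real.tendsto_log_atTop.comp tendsto_natCast_atTop_atTop
  filter_upwards [kf_log hC0 hA hC, kf_pow hC0 hA hC (show 0 < s by positivity),
    ev_pow (2 * (2 * b' + 1) / c') (1 / 12) (s - c / 8) (-(c / 20)) (by linarith) (by norm_num),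
    ev_pow (4 * b' / c') (1 / 12) (s - c / 4) (-(c / 20)) (by linarith) (by norm_num),
    ev_pow (2 / c' * Real.sqrt (4 * b' ^ 3 / c')) (1 / 12) (s - 3 * c / 8) (-(c / 20)) (by linarith)
      (by norm_num),
    ev_pow (8 * b' * kc / c') (1 / 12) (-1) (-(c / 20)) (by linarith) (by norm_num),
    ev_pow (12 * b' ^ 3 / c') (1 / 18) (2 * s + (1 - c + c / 16 + c / 20)) (1 - c / 2)
      (by linarith) (by norm_num),
    ev_pow (2 * Real.sqrt (4 * b' ^ 3 / c')) (1 / 18) (s + (1 - 7 * c / 8)) (1 - c / 2)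
      (by linarith) (by norm_num),
    ev_pow (2 * b') (1 / 18) (s + (1 - 3 * c / 4)) (1 - c / 2) (by linarith) (by norm_num),
    ev_pow (2 * kc * C * (4 * b' ^ 2 / c' + 4 * b')) (1 / 18) (1 - c) (1 - c / 2)
      (by linarith) (by norm_num),
    ev_pow (4 * C0 * b') (1 / 18) (1 - c) (1 - c / 2) (by linarith) (by norm_num),
    ev_pow (4 * kc * b' * C) (1 / 18) (1 - c) (1 - c / 2) (by linarith) (by norm_num),
    ev_pow 1 (1 / 4) (-(c / 20)) 0 (by linarith) (by norm_num),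
    ev_pow (C0 * (3 * C) * (g * (11 + 2 * g) + 1)) 1 (-1) 0 (by linarith) (by norm_num),
    ev_pow (b' * (2 * b')) ((cc / 12) ^ 2) (2 * s) (c / 4) (by linarith) (by positivity),
    ev_pow (2 * b' * (2 * b')) ((cc / 12) ^ 2) (2 * s + (1 - c)) (1 - c / 2) (by linarith)
      (by positivity),
    ev_pow (2 * kc * (2 * b')) (cc / 12) (-1) 0 (by linarith) (by positivity),
    eventually_ge_atTop 1, eventually_ge_atTop ⌈C * (g * (3 + 2 * C0))⌉₊,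
    hlog.eventually_ge_atTop (24 * kc), hlog.eventually_ge_atTop 1] with d k1 k2 a1 a2 a3 a4 r1 r2
    r3 r4 r5 r6 x1 l1 n1 n2 n3 d1 d2 lo1 lo2
  intro ε0 h0 h1
  have hD1 : (1 : ℝ) ≤ d := by exact_mod_cast d1
  have hD0 : (0 : ℝ) < d := by linarith
  have hp : ∀ e : ℝ, 0 < (d : ℝ) ^ e := fun e => Real.rpow_pos_of_pos hD0 e
  have hge1 : ∀ e : ℝ, 0 ≤ e → 1 ≤ (d : ℝ) ^ e := fun e he => Real.one_le_rpow hD1 he
  have hK1 : 1 ≤ Kf C0 C A d := by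
    unfold Kf
    have h2 : (1 : ℝ) ≤ ((Jf C d : ℕ) : ℝ) + 1 := by
      have : (0 : ℝ) ≤ ((Jf C d : ℕ) : ℝ) := Nat.cast_nonneg _
      linarith
    have h3 : (1 : ℝ) ≤ Real.sqrt ((2 * A + 4) * Real.log d) + 1 := by
      have := Real.sqrt_nonneg ((2 * A + 4) * Real.log d)
      linarith
    have h4 : (1 : ℝ) ≤ (((Jf C d : ℕ) : ℝ) + 1) *
        (Real.sqrt ((2 * A + 4) * Real.log d) + 1) := one_le_mul_of_one_le_of_one_le h2 h3
    have h5 := one_le_mul_of_one_le_of_one_le hC0 h4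
    linarith
  rw [Real.rpow_zero, mul_one] at x1 l1 n3
  rw [one_mul] at x1
  have hK2 : Kf C0 C A d ^ 2 ≤ (d : ℝ) ^ (2 * s) := by
    have h2 : Kf C0 C A d ^ 2 ≤ ((d : ℝ) ^ s) ^ 2 := pow_le_pow_left₀ (by linarith) k2 2
    rwa [← Real.rpow_natCast ((d : ℝ) ^ s) 2, ← Real.rpow_mul hD0.le,
      show s * ((2 : ℕ) : ℝ) = 2 * s by push_cast; ring] at h2
  have hS1 : (d : ℝ) ^ A ≤ (d : ℝ) ^ (A + 2) :=
    Real.rpow_le_rpow_of_exponent_le hD1 (by linarith)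
  have hS1' : (d : ℝ) ^ (A + 2) ≤ C * (d : ℝ) ^ (A + 2) := le_mul_of_one_le_left (hp _).le hC
  have hMR : C * d * (d : ℝ) ^ (1 - c) ≤ C * (d : ℝ) ^ (2 : ℝ) := by
    rw [mul_assoc]
    refine mul_le_mul_of_nonneg_left ?_ (by linarith)
    rw [show (d : ℝ) ^ (2 : ℝ) = (d : ℝ) ^ (1 : ℝ) * (d : ℝ) ^ (1 : ℝ) by
      rw [← Real.rpow_add hD0]; norm_num, Real.rpow_one]
    refine mul_le_mul_of_nonneg_left ?_ hD0.le
    calc (d : ℝ) ^ (1 - c) ≤ (d : ℝ) ^ (1 : ℝ) := Real.rpow_le_rpow_of_exponent_le hD1 (by linarith)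
      _ = d := Real.rpow_one _
  refine ⟨⟨⟨by positivity, by positivity, hK1, hge1 _ (by linarith), hge1 _ (by positivity),
    hge1 _ (by linarith), hge1 _ (by positivity), hge1 _ (by linarith), ?_⟩, ?_, h0, ?_, ?_, ?_,
    (hp _).le, ?_, ?_, ?_, ?_, ?_, ?_, le_refl _, ?_, ?_, ?_⟩, d1, ?_, k1, ?_⟩
  · show 0 < (d : ℝ) ^ (-(c / 20)) / 3
    have := hp (-(c / 20))
    positivity
  · show 0 ≤ (3 + 2 * C0) * C / d
    positivity
  · show ε0 + 3 * ((d : ℝ) ^ (-(c / 20)) / 3) ≤ 1 / 2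
    linarith
  · exact dlt_le (s := s) hb'0 hc'0 hD1 hK1 k2 hc a1 a2 a3 a4
  · exact rer_le (s := s) hb'0 hc'0 hD1 hK1 k2 r1 r2 r3 r4 r5 r6
  · show (d : ℝ) ^ A ≤ 2 * C * (d : ℝ) ^ (A + 2)
    linarith [hp (A + 2)]
  · show (d : ℝ) ^ A * 2 ≤ 2 * C * (d : ℝ) ^ (A + 2)
    linarith
  · show C * d * (d : ℝ) ^ (1 - c) * (d : ℝ) ^ A ≤ 2 * C * (d : ℝ) ^ (A + 2)
    have h2 : C * d * (d : ℝ) ^ (1 - c) * (d : ℝ) ^ A ≤ C * (d : ℝ) ^ (2 : ℝ) * (d : ℝ) ^ A :=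
      mul_le_mul_of_nonneg_right hMR (hp _).le
    have h3 : C * (d : ℝ) ^ (2 : ℝ) * (d : ℝ) ^ A = C * (d : ℝ) ^ (A + 2) := by
      rw [mul_assoc, ← Real.rpow_add hD0, add_comm]
    rw [h3] at h2
    have := hp (A + 2)
    linarith
  · show C * d * (d : ℝ) ^ (1 - c) ≤ 2 * C * (d : ℝ) ^ (A + 2)
    refine hMR.trans ?_
    have h2 : (d : ℝ) ^ (2 : ℝ) ≤ (d : ℝ) ^ (A + 2) :=
      Real.rpow_le_rpow_of_exponent_le hD1 (by linarith)
    have h3 := mul_le_mul_of_nonneg_left h2 (by linarith : (0 : ℝ) ≤ C)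
    have := hp (A + 2)
    linarith
  · show 0 ≤ (2 * A + 4) * Real.log d
    have := Real.log_nonneg hD1
    positivity
  · show C0 * Real.exp (-((2 * A + 4) * Real.log d)) * (2 * C * (d : ℝ) ^ (A + 2) + 1) *
      (g * (((d : ℝ) ^ A + (g * (d : ℝ) ^ A + (g * (d : ℝ) ^ A + (d : ℝ) ^ (1 - c) * (2 * 3)))) +
      ((d : ℝ) ^ (1 - c) + ((d : ℝ) ^ (1 - c) * ((d : ℝ) ^ A * 2) + (d : ℝ) ^ (1 - c)))) + 1) ≤ 1
    rw [exp_log_pow hD0]
    have ht : (d : ℝ) ^ (1 - c) ≤ d := by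
      calc (d : ℝ) ^ (1 - c) ≤ (d : ℝ) ^ (1 : ℝ) :=
            Real.rpow_le_rpow_of_exponent_le hD1 (by linarith)
        _ = d := Real.rpow_one _
    have hA1 : (d : ℝ) ^ (A + 1) = d * (d : ℝ) ^ A := by
      rw [Real.rpow_add hD0, Real.rpow_one, mul_comm]
    have hA0 : 1 ≤ (d : ℝ) ^ A := hge1 _ (by linarith)
    have e1 : (d : ℝ) ^ A ≤ (d : ℝ) ^ (A + 1) := by
      rw [hA1]
      exact le_mul_of_one_le_left (hp _).le hD1
    have e2 : (d : ℝ) ≤ (d : ℝ) ^ (A + 1) := by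
      rw [hA1]
      exact le_mul_of_one_le_right hD0.le hA0
    have e3 : (d : ℝ) ^ (1 - c) * ((d : ℝ) ^ A * 2) ≤ 2 * (d : ℝ) ^ (A + 1) := by
      rw [hA1]
      have := mul_le_mul_of_nonneg_right ht (hp A).le
      linarith
    have e4 : 1 ≤ (d : ℝ) ^ (A + 1) := hge1 _ (by linarith)
    have f1 : 2 * C * (d : ℝ) ^ (A + 2) + 1 ≤ 3 * C * (d : ℝ) ^ (A + 2) := by
      have := one_le_mul_of_one_le_of_one_le hC (hge1 (A + 2) (by linarith))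
      linarith
    have hgn : (0 : ℝ) ≤ g := Nat.cast_nonneg g
    have f2 : (g : ℝ) * (((d : ℝ) ^ A + (g * (d : ℝ) ^ A + (g * (d : ℝ) ^ A +
        (d : ℝ) ^ (1 - c) * (2 * 3)))) +
        ((d : ℝ) ^ (1 - c) + ((d : ℝ) ^ (1 - c) * ((d : ℝ) ^ A * 2) + (d : ℝ) ^ (1 - c)))) + 1 ≤
        (g * (11 + 2 * g) + 1) * (d : ℝ) ^ (A + 1) := by
      have f5 := mul_le_mul_of_nonneg_left e1 hgn
      have f3 : ((d : ℝ) ^ A + (g * (d : ℝ) ^ A + (g * (d : ℝ) ^ A +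
        (d : ℝ) ^ (1 - c) * (2 * 3)))) +
        ((d : ℝ) ^ (1 - c) + ((d : ℝ) ^ (1 - c) * ((d : ℝ) ^ A * 2) + (d : ℝ) ^ (1 - c))) ≤
        (11 + 2 * g) * (d : ℝ) ^ (A + 1) := by linarith
      have f4 := mul_le_mul_of_nonneg_left f3 (Nat.cast_nonneg g : (0 : ℝ) ≤ g)
      linarith
    have q1 := hp (-(2 * A + 4))
    have q2 := hp (A + 2)
    have q3 := hp (A + 1)
    have q4 := hp (1 - c)
    have q5 := hp A
    calc _ ≤ C0 * (d : ℝ) ^ (-(2 * A + 4)) * (3 * C * (d : ℝ) ^ (A + 2)) *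
          ((g * (11 + 2 * g) + 1) * (d : ℝ) ^ (A + 1)) := by
          refine mul_le_mul (mul_le_mul_of_nonneg_left f1 (by positivity)) f2 (by positivity)
            (by positivity)
      _ = C0 * (3 * C) * (g * (11 + 2 * g) + 1) *
          ((d : ℝ) ^ (-(2 * A + 4)) * (d : ℝ) ^ (A + 2) * (d : ℝ) ^ (A + 1)) := by ring
      _ = C0 * (3 * C) * (g * (11 + 2 * g) + 1) * (d : ℝ) ^ (-1 : ℝ) := by
          rw [← Real.rpow_add hD0, ← Real.rpow_add hD0]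
          congr 2
          ring
      _ ≤ 1 := l1
  · show Kf C0 C A d ^ 2 * (b' * (2 * b')) ≤ (cc / 12) ^ 2 * (d : ℝ) ^ (c / 4)
    refine le_trans ?_ n1
    rw [mul_comm]
    exact mul_le_mul_of_nonneg_left hK2 (by positivity)
  · show Kf C0 C A d ^ 2 * (2 * b' * (d : ℝ) ^ (1 - c) * (2 * b')) ≤
      (cc / 12) ^ 2 * (d : ℝ) ^ (1 - c / 2)
    refine le_trans ?_ n2
    rw [Real.rpow_add hD0]
    have q4 := hp (1 - c)
    calc Kf C0 C A d ^ 2 * (2 * b' * (d : ℝ) ^ (1 - c) * (2 * b'))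
        ≤ (d : ℝ) ^ (2 * s) * (2 * b' * (d : ℝ) ^ (1 - c) * (2 * b')) :=
          mul_le_mul_of_nonneg_right hK2 (by positivity)
      _ = _ := by ring
  · show 2 * ((3 + 2 * C0) * C / d) * (2 * b') ≤ cc / 12
    refine le_trans (le_of_eq ?_) n3
    rw [Real.rpow_neg_one, hkc]
    ring
  · rw [le_div_iff₀ (by linarith)]
    have := Nat.ceil_le.1 d2
    linarith
  · have h2 : Real.log (d : ℝ) * 1 ≤ Real.log (d : ℝ) * Real.log (d : ℝ) :=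
      mul_le_mul_of_nonneg_left lo2 (by linarith)
    rw [sq]
    linarith

end Pool.Agent.Work.MP_db9399_ts.helper55
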