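import Pool.Agent.Work.MP_db9399_ts_helper55.EdgeD
import Pool.Agent.Work.MP_db9399_ts_helper55.Asym

/-!
# MP_db9399, ts block RND (rounding of the light edges) (helper55)
-/

set_option autoImplicit false

namespace Pool.Agent.Work.MP_db9399_ts

open Finset Classical Filter
open Pool.Agent.Work.MP_db9399_clj.helper75 (OO blk nB eE)

universe u

namespace helper55

/-- number of halvings -/
noncomputable def Jr (C : ℝ) (d : ℕ) : ℕ := Nat.log 2 (⌈C⌉₊ * d * d) + 1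

/-- size of the tests -/
noncomputable def Kr (C A : ℝ) (d : ℕ) : ℝ :=
  6 * (((Jr C d : ℕ) + 2) * (Real.sqrt (224 * ((2 * A + 6) * Real.log d)) + 1))

theorem kr_log {C A : ℝ} (hA : 1 ≤ A) (hC : 1 ≤ C) :
    ∀ᶠ d : ℕ in atTop, 2 * Kr C A d ≤ Real.log d ^ 2 := by
  set B : ℝ := 120 * (Real.sqrt (224 * (2 * A + 6)) + 1) with hB
  have hlog : Tendsto (fun d : ℕ => Real.log (d : ℝ)) atTop atTop :=
    Real.tendsto_log_atTop.comp tendsto_natCast_atTop_atTop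
  have hcl : 0 < ⌈C⌉₊ := Nat.ceil_pos.2 (by linarith)
  filter_upwards [hlog.eventually_ge_atTop (B ^ 2), hlog.eventually_ge_atTop (Real.log ⌈C⌉₊ + 3),
    hlog.eventually_ge_atTop 3, eventually_gt_atTop 0] with d h1 h2 h3 h0
  set l := Real.log (d : ℝ) with hl
  have hl0 : 0 ≤ l := by linarith
  have hd0 : (0 : ℝ) < d := by exact_mod_cast h0
  have hc0 : (0 : ℝ) < (⌈C⌉₊ : ℝ) := by exact_mod_cast hcl
  have hB0 : 0 ≤ B := by
    have := Real.sqrt_nonneg (224 * (2 * A + 6))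
    positivity
  have hlog2 : (1 : ℝ) / 2 ≤ Real.log 2 := by have := Real.log_two_gt_d9; linarith
  have hJ : ((Jr C d : ℕ) : ℝ) + 2 ≤ 10 * l := by
    unfold Jr
    push_cast
    have h4 : ((Nat.log 2 (⌈C⌉₊ * d * d) : ℕ) : ℝ) ≤ Real.logb 2 ((⌈C⌉₊ * d * d : ℕ) : ℝ) :=
      Real.natLog_le_logb _ _
    have h5 : Real.logb 2 ((⌈C⌉₊ * d * d : ℕ) : ℝ) ≤ 6 * l := by
      unfold Real.logb
      push_cast
      rw [Real.log_mul (mul_pos hc0 hd0).ne' hd0.ne', Real.log_mul hc0.ne' hd0.ne',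
        div_le_iff₀ (by linarith)]
      nlinarith
    linarith
  have hs : Real.sqrt (224 * ((2 * A + 6) * l)) + 1 ≤
      (Real.sqrt (224 * (2 * A + 6)) + 1) * Real.sqrt l := by
    rw [← mul_assoc, Real.sqrt_mul (by linarith)]
    have h6 : 1 ≤ Real.sqrt l := by
      rw [show (1 : ℝ) = Real.sqrt 1 by simp]
      exact Real.sqrt_le_sqrt (by linarith)
    linarith
  have hsl : B ≤ Real.sqrt l := by
    rw [show B = Real.sqrt (B ^ 2) by rw [Real.sqrt_sq hB0]]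
    exact Real.sqrt_le_sqrt h1
  have hs0 := Real.sqrt_nonneg l
  have hss : Real.sqrt l * Real.sqrt l = l := Real.mul_self_sqrt hl0
  have hsA := Real.sqrt_nonneg (224 * (2 * A + 6))
  have hsAl := Real.sqrt_nonneg (224 * ((2 * A + 6) * l))
  have hprod : (((Jr C d : ℕ) : ℝ) + 2) * (Real.sqrt (224 * ((2 * A + 6) * l)) + 1) ≤
      10 * l * ((Real.sqrt (224 * (2 * A + 6)) + 1) * Real.sqrt l) :=
    mul_le_mul hJ hs (by positivity) (by positivity)
  unfold Kr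
  calc 2 * (6 * (((Jr C d : ℕ) + 2) * (Real.sqrt (224 * ((2 * A + 6) * l)) + 1)))
      ≤ 2 * (6 * (10 * l * ((Real.sqrt (224 * (2 * A + 6)) + 1) * Real.sqrt l))) :=
        mul_le_mul_of_nonneg_left (mul_le_mul_of_nonneg_left hprod (by norm_num)) (by norm_num)
    _ = B * (l * Real.sqrt l) := by rw [hB]; ring
    _ ≤ Real.sqrt l * (l * Real.sqrt l) := mul_le_mul_of_nonneg_right hsl (by positivity)
    _ = l * (Real.sqrt l * Real.sqrt l) := by ring
    _ = l ^ 2 := by rw [hss]; ring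

theorem log_pow {s : ℝ} (hs : 0 < s) :
    ∀ᶠ d : ℕ in atTop, Real.log (d : ℝ) ^ 2 ≤ (d : ℝ) ^ s := by
  have h2 := (isLittleO_log_rpow_atTop (half_pos hs)).bound zero_lt_one
  have h3 := tendsto_natCast_atTop_atTop.eventually h2
  filter_upwards [h3, eventually_ge_atTop 1] with d hd hd1
  have hd1' : (1 : ℝ) ≤ d := by exact_mod_cast hd1
  have hl : 0 ≤ Real.log (d : ℝ) := Real.log_nonneg hd1'
  have hp : 0 ≤ (d : ℝ) ^ (s / 2) := Real.rpow_nonneg (by linarith) _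
  rw [one_mul, Real.norm_of_nonneg hl, Real.norm_of_nonneg hp] at hd
  calc Real.log (d : ℝ) ^ 2 ≤ ((d : ℝ) ^ (s / 2)) ^ 2 := pow_le_pow_left₀ hl hd 2
    _ = (d : ℝ) ^ s := by
        rw [← Real.rpow_natCast, ← Real.rpow_mul (by linarith)]
        congr 1
        push_cast
        ring

end helper55

open helper55

theorem stmt_RND : Stmt_RND.{u} := by
  intro M C ε hC hε
  refine ⟨ε / 200, by positivity, ?_⟩
  intro c A hc hc1 hA
  have hev : ∀ᶠ d : ℕ in atTop, 1 ≤ d ∧ 2 * Kr C A d ≤ Real.log d ^ 2 ∧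
      Real.log (d : ℝ) ^ 2 ≤ (d : ℝ) ^ (c / 8) ∧
      84 * (C * Real.sqrt (2 * M + 1)) * (d : ℝ) ^ (c / 8 + -(1 / 2)) ≤
        1 * (d : ℝ) ^ (-(1 / 4) : ℝ) ∧
      Real.sqrt (2 * C) * (d : ℝ) ^ (c / 8 + (1 - c / 2)) ≤ ε / 4 * (d : ℝ) ^ (1 : ℝ) ∧
      192 * (M : ℝ) * (d : ℝ) ^ (0 : ℝ) ≤ ε / 4 * (d : ℝ) ^ (1 : ℝ) ∧
      32 * (10 * (C * (2 * M + 2))) * 1345 * (d : ℝ) ^ (-4 : ℝ) ≤ 1 * (d : ℝ) ^ (0 : ℝ) := by
    filter_upwards [kr_log hA hC, log_pow (show 0 < c / 8 by positivity),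
      ev_pow (84 * (C * Real.sqrt (2 * M + 1))) 1 (c / 8 + -(1 / 2)) (-(1 / 4)) (by linarith)
        one_pos,
      ev_pow (Real.sqrt (2 * C)) (ε / 4) (c / 8 + (1 - c / 2)) 1 (by linarith) (by positivity),
      ev_pow (192 * (M : ℝ)) (ε / 4) 0 1 (by norm_num) (by positivity),
      ev_pow (32 * (10 * (C * (2 * M + 2))) * 1345) 1 (-4) 0 (by norm_num) one_pos,
      eventually_ge_atTop 1] with d a1 a2 a3 a4 a5 a6 a7
    exact ⟨a7, a1, a2, a3, a4, a5, a6⟩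
  obtain ⟨d0, hd0⟩ := eventually_atTop.1 hev
  refine ⟨d0, ?_⟩
  intro W B τ τ' _ _ _ _ X pt wt a β hd hE wsym w0 w1 wz haS haM hβ
  obtain ⟨d1, k1, k2, e1, e2, e3, e4⟩ := hd0 X.d hd
  have hD1 : (1 : ℝ) ≤ X.d := by exact_mod_cast d1
  have hD0 : (0 : ℝ) < X.d := by linarith
  have hp : ∀ e : ℝ, 0 < (X.d : ℝ) ^ e := fun e => Real.rpow_pos_of_pos hD0 e
  have hge1 : ∀ e : ℝ, 0 ≤ e → 1 ≤ (X.d : ℝ) ^ e := fun e he => Real.one_le_rpow hD1 he
  have hM0 : (0 : ℝ) ≤ M := Nat.cast_nonneg M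
  have hK0 : 0 ≤ Kr C A X.d := by
    unfold Kr
    positivity
  have hKs : Kr C A X.d ≤ (X.d : ℝ) ^ (c / 8) := by linarith
  rw [Real.rpow_one] at e2 e3
  rw [Real.rpow_zero, mul_one] at e3 e4
  have hAA2 : (X.d : ℝ) ^ A ≤ (X.d : ℝ) ^ (A + 2) :=
    Real.rpow_le_rpow_of_exponent_le hD1 (by linarith)
  obtain ⟨cl, c1, c2, c3, c4, c5, c6⟩ := edge_core hE hC d1 pt wt wsym w0 w1 wz a β
    (S := (X.d : ℝ) ^ A) (MA := (X.d : ℝ) ^ A) (Sp := C * (2 * M + 2) * (X.d : ℝ) ^ (A + 2))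
    (Mu := 4 * (X.d : ℝ) ^ A) (Λ := (2 * A + 6) * Real.log X.d) (J := Jr C X.d) haS haM
    hβ.fam.sp hβ.fam.mu (fun q x h => (hβ.h1 q x h).1) (hge1 A (by linarith)) (hp A).le
    (by
      have h1 : (X.d : ℝ) ^ A * (2 * M + 1) ≤ (X.d : ℝ) ^ (A + 2) * (2 * M + 2) :=
        mul_le_mul hAA2 (by linarith) (by positivity) (hp _).le
      have h2 : 1 * ((X.d : ℝ) ^ (A + 2) * (2 * M + 2)) ≤
          C * ((X.d : ℝ) ^ (A + 2) * (2 * M + 2)) :=
        mul_le_mul_of_nonneg_right hC (by have := hp (A + 2); positivity)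
      linarith)
    (by
      have h1 : (X.d : ℝ) * (X.d : ℝ) ^ (1 - c) ≤ (X.d : ℝ) ^ (A + 2) := by
        calc (X.d : ℝ) * (X.d : ℝ) ^ (1 - c) = (X.d : ℝ) ^ (1 + (1 - c)) := by
              rw [Real.rpow_add hD0, Real.rpow_one]
          _ ≤ _ := Real.rpow_le_rpow_of_exponent_le hD1 (by linarith)
      have h2 : 1 * (X.d : ℝ) ^ (A + 2) ≤ (2 * M + 2) * (X.d : ℝ) ^ (A + 2) :=
        mul_le_mul_of_nonneg_right (by linarith) (hp _).le
      rw [mul_assoc, mul_assoc]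
      exact mul_le_mul_of_nonneg_left (by linarith) (by linarith))
    le_rfl (by
      have := Real.log_nonneg hD1
      positivity)
    (by
      rw [exp_log_pow hD0]
      have g1 : 1 ≤ C * (2 * M + 2) * (X.d : ℝ) ^ (A + 2) :=
        one_le_mul_of_one_le_of_one_le (one_le_mul_of_one_le_of_one_le hC (by linarith))
          (hge1 _ (by linarith))
      have g2 : 9 * (C * (2 * M + 2) * (X.d : ℝ) ^ (A + 2)) + 1 ≤
          10 * (C * (2 * M + 2) * (X.d : ℝ) ^ (A + 2)) := by linarith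
      have g3 : 56 * (6 * (4 * (X.d : ℝ) ^ A)) + 1 ≤ 1345 * (X.d : ℝ) ^ A := by
        linarith [hge1 A (by linarith)]
      have q1 := hp (-(2 * A + 6))
      have q2 := hp A
      have q3 := hp (A + 2)
      calc 32 * (X.d : ℝ) ^ (-(2 * A + 6)) * (9 * (C * (2 * M + 2) * (X.d : ℝ) ^ (A + 2)) + 1) *
            (56 * (6 * (4 * (X.d : ℝ) ^ A)) + 1)
          ≤ 32 * (X.d : ℝ) ^ (-(2 * A + 6)) * (10 * (C * (2 * M + 2) * (X.d : ℝ) ^ (A + 2))) *
            (1345 * (X.d : ℝ) ^ A) := by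
            refine mul_le_mul (mul_le_mul_of_nonneg_left g2 (by positivity)) g3 (by positivity)
              (by positivity)
        _ = 32 * (10 * (C * (2 * M + 2))) * 1345 *
            ((X.d : ℝ) ^ (-(2 * A + 6)) * (X.d : ℝ) ^ (A + 2) * (X.d : ℝ) ^ A) := by ring
        _ = 32 * (10 * (C * (2 * M + 2))) * 1345 * (X.d : ℝ) ^ (-4 : ℝ) := by
            rw [← Real.rpow_add hD0, ← Real.rpow_add hD0]
            congr 2
            ring
        _ ≤ 1 := e4)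
    (by
      have h1 : C * X.d * X.d ≤ ((⌈C⌉₊ * X.d * X.d : ℕ) : ℝ) := by
        push_cast
        exact mul_le_mul_of_nonneg_right (mul_le_mul_of_nonneg_right (Nat.le_ceil C) hD0.le) hD0.le
      refine h1.trans_lt ?_
      unfold Jr
      exact_mod_cast Nat.lt_pow_succ_log_self (by norm_num) _)
  refine ⟨cl, c1, c2, fun x j hx => (c3 x j hx).trans (by linarith), fun q j => ?_,
    fun b i j _ => ?_, fun q j => ?_⟩
  · refine (c4 q j).trans ?_
    have h1 : ∑ x, β q x ^ 2 ≤ C / X.d * C := by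
      calc ∑ x, β q x ^ 2 ≤ ∑ x, C / X.d * |β q x| := by
            refine sum_le_sum fun x _ => ?_
            rw [← sq_abs, sq]
            exact mul_le_mul_of_nonneg_right (hβ.sup q x) (abs_nonneg _)
        _ = C / X.d * ∑ x, |β q x| := by rw [mul_sum]
        _ ≤ C / X.d * C := mul_le_mul_of_nonneg_left (hβ.l1 q) (by positivity)
    have h2 : Real.sqrt ((2 * M + 1) * ∑ x, β q x ^ 2) ≤
        C * Real.sqrt (2 * M + 1) * (X.d : ℝ) ^ (-(1 / 2) : ℝ) := by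
      have h3 : (2 * (M : ℝ) + 1) * ∑ x, β q x ^ 2 ≤
          (C * Real.sqrt (2 * M + 1) * (X.d : ℝ) ^ (-(1 / 2) : ℝ)) ^ 2 := by
        have h4 : (C * Real.sqrt (2 * M + 1) * (X.d : ℝ) ^ (-(1 / 2) : ℝ)) ^ 2 =
            (2 * M + 1) * (C / X.d * C) := by
          rw [mul_pow, mul_pow, Real.sq_sqrt (by linarith), ← Real.rpow_natCast ((X.d : ℝ) ^ _) 2,
            ← Real.rpow_mul hD0.le, show (-(1 / 2) : ℝ) * ((2 : ℕ) : ℝ) = -1 by push_cast; norm_num,
            Real.rpow_neg_one]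
          ring
        rw [h4]
        exact mul_le_mul_of_nonneg_left h1 (by linarith)
      calc Real.sqrt ((2 * M + 1) * ∑ x, β q x ^ 2)
          ≤ Real.sqrt ((C * Real.sqrt (2 * M + 1) * (X.d : ℝ) ^ (-(1 / 2) : ℝ)) ^ 2) :=
            Real.sqrt_le_sqrt h3
        _ = _ := Real.sqrt_sq (by
            have := hp (-(1 / 2))
            positivity)
    have h5 : Real.sqrt (32 * ((2 * A + 6) * Real.log X.d)) + 1 ≤ (X.d : ℝ) ^ (c / 8) := by
      refine le_trans ?_ hKs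
      have h6 : Real.sqrt (32 * ((2 * A + 6) * Real.log X.d)) ≤
          Real.sqrt (224 * ((2 * A + 6) * Real.log X.d)) := by
        refine Real.sqrt_le_sqrt ?_
        have : 0 ≤ (2 * A + 6) * Real.log X.d := by
          have := Real.log_nonneg hD1
          positivity
        linarith
      have h7 : 1 * (Real.sqrt (224 * ((2 * A + 6) * Real.log X.d)) + 1) ≤ Kr C A X.d := by
        have hJ0 : (0 : ℝ) ≤ ((Jr C X.d : ℕ) : ℝ) := Nat.cast_nonneg _
        have hq0 : 0 ≤ Real.sqrt (224 * ((2 * A + 6) * Real.log X.d)) + 1 := by positivity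
        have hq1 : 1 * (Real.sqrt (224 * ((2 * A + 6) * Real.log X.d)) + 1) ≤
            (6 * (((Jr C X.d : ℕ) : ℝ) + 2)) *
              (Real.sqrt (224 * ((2 * A + 6) * Real.log X.d)) + 1) :=
          mul_le_mul_of_nonneg_right (by linarith) hq0
        unfold Kr
        rw [mul_assoc 6 (((Jr C X.d : ℕ) : ℝ) + 2)] at hq1
        exact hq1
      linarith
    have h8 := hp (-(1 / 2))
    calc 84 * (Real.sqrt (32 * ((2 * A + 6) * Real.log X.d)) + 1) *
          Real.sqrt ((2 * M + 1) * ∑ x, β q x ^ 2)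
        ≤ 84 * (X.d : ℝ) ^ (c / 8) * (C * Real.sqrt (2 * M + 1) * (X.d : ℝ) ^ (-(1 / 2) : ℝ)) :=
          mul_le_mul (mul_le_mul_of_nonneg_left h5 (by norm_num)) h2 (Real.sqrt_nonneg _)
            (by have := hp (c / 8); positivity)
      _ = 84 * (C * Real.sqrt (2 * M + 1)) * (X.d : ℝ) ^ (c / 8 + -(1 / 2)) := by
          rw [Real.rpow_add hD0]
          ring
      _ ≤ _ := by
          rw [one_mul] at e1
          exact e1
  · refine (c5 b i j).trans ?_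
    have h1 : 6 * (((Jr C X.d : ℕ) + 2) * (Real.sqrt (224 * ((2 * A + 6) * Real.log X.d)) + 1)) *
        Real.sqrt (2 * (C * X.d * (X.d : ℝ) ^ (1 - c))) ≤ ε / 4 * X.d := by
      have h2 : Real.sqrt (2 * (C * X.d * (X.d : ℝ) ^ (1 - c))) =
          Real.sqrt (2 * C) * (X.d : ℝ) ^ (1 - c / 2) := by
        rw [show 2 * (C * X.d * (X.d : ℝ) ^ (1 - c)) =
          2 * C * ((X.d : ℝ) ^ (1 : ℝ) * (X.d : ℝ) ^ (1 - c)) by rw [Real.rpow_one]; ring,
          ← Real.rpow_add hD0, Real.sqrt_mul (by linarith), sqrt_pow hD0]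
        congr 2
        ring
      rw [h2]
      have h3 := hp (1 - c / 2)
      calc 6 * (((Jr C X.d : ℕ) + 2) * (Real.sqrt (224 * ((2 * A + 6) * Real.log X.d)) + 1)) *
            (Real.sqrt (2 * C) * (X.d : ℝ) ^ (1 - c / 2))
          ≤ (X.d : ℝ) ^ (c / 8) * (Real.sqrt (2 * C) * (X.d : ℝ) ^ (1 - c / 2)) :=
            mul_le_mul_of_nonneg_right hKs (by positivity)
        _ = Real.sqrt (2 * C) * (X.d : ℝ) ^ (c / 8 + (1 - c / 2)) := by
            rw [Real.rpow_add hD0]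
            ring
        _ ≤ _ := e2
    have h4 : 0 ≤ ε * X.d := by positivity
    linarith
  · refine (c6 q j).trans ?_
    have h1 : Real.sqrt 2 ≤ 2 := by
      have h2 : Real.sqrt 2 ≤ Real.sqrt (2 ^ 2) := Real.sqrt_le_sqrt (by norm_num)
      rwa [Real.sqrt_sq (by norm_num)] at h2
    have h3 := Real.sqrt_nonneg (∑ v, ∑ w, a q v w ^ 2)
    calc 6 * (((Jr C X.d : ℕ) + 2) * (Real.sqrt (224 * ((2 * A + 6) * Real.log X.d)) + 1)) *
          Real.sqrt (2 * ∑ v, ∑ w, a q v w ^ 2)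
        = Kr C A X.d * Real.sqrt 2 * Real.sqrt (∑ v, ∑ w, a q v w ^ 2) := by
          rw [Real.sqrt_mul (show (0 : ℝ) ≤ 2 by norm_num) (∑ v, ∑ w, a q v w ^ 2)]
          unfold Kr
          ring
      _ ≤ Kr C A X.d * 2 * Real.sqrt (∑ v, ∑ w, a q v w ^ 2) :=
          mul_le_mul_of_nonneg_right (mul_le_mul_of_nonneg_left h1 hK0) h3
      _ ≤ _ := mul_le_mul_of_nonneg_right (by linarith) h3

end Pool.Agent.Work.MP_db9399_ts
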