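import Pool.Agent.Work.MP_db9399_ts_helper55.Rnd
import Pool.Agent.Work.MP_db9399_labe_helper61.MultiE

/-!
# MP_db9399, PHASE: LabX from labME (helper55, helper61)
-/

set_option autoImplicit false

namespace Pool.Agent.Work.MP_db9399_ts.helper55

open Finset Classical

universe u

theorem labX (m g : ℕ) (hg : 2 ≤ g) : ∃ C0 : ℝ, 1 ≤ C0 ∧ LabX.{u} m g C0 := by
  set C1 : ℝ := 32 * (m * g + 3) * (8 * (m * g + 1) * g + 1) with hC1
  set C2 : ℝ := g * (m * g + 2) with hC2
  set C3 : ℝ := 2 * g * (Real.sqrt (32 * (m * g + 1)) + 1) with hC3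
  have p1 : 0 ≤ C1 := by positivity
  have p2 : 0 ≤ C2 := by positivity
  have p3 : 0 ≤ C3 := by positivity
  refine ⟨C1 + C2 + C3 + 1, by linarith, ?_⟩
  intro V ι κ _ _ _ side w W π a Sp Mu Λ J hW0 hW π0 π1 hSp0 hMu0 hΛ hSp hMu hL hJ
  have hpj : ∀ v (j : Fin g), (if h : (j : ℕ) < g then π (side v) ⟨j, h⟩ else 0) = π (side v) j := by
    intro v j
    rw [dif_pos j.2]
  have hz : ∀ q : κ, (univ.filter fun i => ∃ k, (fun (_ : κ) (_ : Fin m) (_ : ι) => (0 : ℝ)) q k i ≠ 0)
      = ∅ := by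
    intro q
    refine filter_false_of_mem fun i _ h => ?_
    obtain ⟨k, hk⟩ := h
    exact hk rfl
  have hz' : ∀ i : ι, (univ.filter fun q => ∃ k, (fun (_ : κ) (_ : Fin m) (_ : ι) => (0 : ℝ)) q k i ≠ 0)
      = ∅ := by
    intro q
    refine filter_false_of_mem fun i _ h => ?_
    obtain ⟨k, hk⟩ := h
    exact hk rfl
  obtain ⟨L, l1, l2, l3, l4, l5⟩ := Pool.Agent.Work.MP_db9399_lab.helper61.labME (g := g) side w W hW0 hW
    (fun v j => if h : j < g then π (side v) ⟨j, h⟩ else 0)
    (fun v j => by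
      by_cases h : j < g
      · simp only [dif_pos h]
        exact π0 _ _
      · simp only [dif_neg h]
        exact le_rfl)
    (fun v => by
      rw [← Fin.sum_univ_eq_sum_range (fun j => if h : j < g then π (side v) ⟨j, h⟩ else 0) g]
      rw [← π1 (side v)]
      exact sum_congr rfl fun j _ => hpj v j) a (fun _ _ _ => 0) Sp Mu Λ hSp0 hMu0 hSp
    (fun q => by rw [hz q]; simpa using hSp0) hMu (fun i => by rw [hz' i]; simpa using hMu0) hΛ
    (by
      refine le_trans ?_ hL
      have e0 : 0 ≤ Real.exp (-Λ) := (Real.exp_pos _).le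
      have h1 : ((m : ℝ) * g + 3) * Sp + 1 ≤ (m * g + 3) * (Sp + 1) := by
        have : (0 : ℝ) ≤ m * g := by positivity
        linarith
      have h2 : 8 * ((m : ℝ) * g + 1) * (g * Mu) + 1 ≤ (8 * (m * g + 1) * g + 1) * (Mu + 1) := by
        have : (0 : ℝ) ≤ 8 * (m * g + 1) * g := by positivity
        nlinarith
      calc 32 * Real.exp (-Λ) * ((m * g + 3) * Sp + 1) * (8 * (m * g + 1) * (g * Mu) + 1)
          ≤ 32 * Real.exp (-Λ) * ((m * g + 3) * (Sp + 1)) *
            ((8 * (m * g + 1) * g + 1) * (Mu + 1)) := by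
            refine mul_le_mul (mul_le_mul_of_nonneg_left h1 (by positivity)) h2 (by positivity)
              (by positivity)
        _ = C1 * Real.exp (-Λ) * (Sp + 1) * (Mu + 1) := by rw [hC1]; ring
        _ ≤ (C1 + C2 + C3 + 1) * Real.exp (-Λ) * (Sp + 1) * (Mu + 1) := by
            have h4 : C1 ≤ C1 + C2 + C3 + 1 := by linarith
            have h5 : 0 ≤ Sp + 1 := by linarith
            have h6 : 0 ≤ Mu + 1 := by linarith
            exact mul_le_mul_of_nonneg_right (mul_le_mul_of_nonneg_right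
              (mul_le_mul_of_nonneg_right h4 e0) h5) h6) J hJ
  refine ⟨fun v => ⟨L v, l1 v⟩, fun i k j => ?_, fun q j => ?_, fun i hi j => ?_⟩
  · have h := l3 i k j j.2
    have h2 : ∑ v ∈ univ.filter (fun v => side v = i),
        ((if (⟨L v, l1 v⟩ : Fin g) = j then 1 else 0) - π i j) * w k v =
        ∑ v ∈ univ.filter (fun v => side v = i),
        ((if L v = j then 1 else 0) -
          (if h : (j : ℕ) < g then π (side v) ⟨j, h⟩ else 0)) * w k v := by
      refine sum_congr rfl fun v hv => ?_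
      rw [hpj v j, (mem_filter.1 hv).2]
      congr 3
      exact propext ⟨fun h => by rw [← h], fun h => Fin.ext h⟩
    rw [h2]
    refine h.trans ?_
    have h3 := hW0 k i
    nlinarith
  · have h := l5 q j j.2
    have h0 : ∀ v, a q v + Pool.Agent.Work.MP_db9399_lab.helper61.sc side w
        ((fun (_ : κ) (_ : Fin m) (_ : ι) => (0 : ℝ)) q) v = a q v := by
      intro v
      unfold Pool.Agent.Work.MP_db9399_lab.helper61.sc
      simp
    have h1 : ∀ i, Pool.Agent.Work.MP_db9399_lab.helper61.sw W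
        ((fun (_ : κ) (_ : Fin m) (_ : ι) => (0 : ℝ)) q) i = 0 := by
      intro i
      unfold Pool.Agent.Work.MP_db9399_lab.helper61.sw
      simp
    simp only [h0, h1] at h
    have h2 : ∑ v, a q v * ((if (⟨L v, l1 v⟩ : Fin g) = j then 1 else 0) - π (side v) j) =
        ∑ v, a q v * ((if L v = j then 1 else 0) -
          (if h : (j : ℕ) < g then π (side v) ⟨j, h⟩ else 0)) := by
      refine sum_congr rfl fun v _ => ?_
      rw [hpj v j]
      congr 3
      exact propext ⟨fun h => by rw [← h], fun h => Fin.ext h⟩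
    rw [h2]
    refine h.trans ?_
    have h3 : Real.sqrt (∑ i : ι, (0 : ℝ) ^ 2) = 0 := by simp
    rw [h3, mul_zero, add_zero]
    have s0 := Real.sqrt_nonneg Λ
    have sn := Real.sqrt_nonneg (∑ v, a q v ^ 2)
    have s1 : Real.sqrt (32 * (m * g + 1) * Λ) + 1 ≤
        (Real.sqrt (32 * (m * g + 1)) + 1) * (Real.sqrt Λ + 1) := by
      rw [Real.sqrt_mul (by positivity)]
      nlinarith [Real.sqrt_nonneg (32 * ((m : ℝ) * g + 1))]
    have j1 : (J : ℝ) + 2 ≤ 2 * (J + 1) := by
      have : (0 : ℝ) ≤ J := Nat.cast_nonneg _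
      linarith
    have j0 : (0 : ℝ) ≤ J := Nat.cast_nonneg _
    calc (g : ℝ) * ((J + 2) * (Real.sqrt (32 * (m * g + 1) * Λ) + 1) *
          Real.sqrt (∑ v, a q v ^ 2))
        ≤ g * (2 * (J + 1) * ((Real.sqrt (32 * (m * g + 1)) + 1) * (Real.sqrt Λ + 1)) *
          Real.sqrt (∑ v, a q v ^ 2)) := by
          refine mul_le_mul_of_nonneg_left (mul_le_mul_of_nonneg_right ?_ sn) (Nat.cast_nonneg _)
          exact mul_le_mul j1 s1 (by positivity) (by positivity)
      _ = C3 * ((J + 1) * (Real.sqrt Λ + 1)) * Real.sqrt (∑ v, a q v ^ 2) := by rw [hC3]; ring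
      _ ≤ _ := by
          refine mul_le_mul_of_nonneg_right (mul_le_mul_of_nonneg_right (by linarith)
            (by positivity)) sn
  · have hs : ∀ j : Fin g, ∑ v ∈ univ.filter (fun v => side v = i),
        (if h : (j : ℕ) < g then π (side v) ⟨j, h⟩ else 0) =
        ((univ.filter fun v => side v = i).card : ℝ) * π i j := by
      intro j
      rw [← nsmul_eq_mul, ← sum_const]
      refine sum_congr rfl fun v hv => ?_
      rw [hpj v j, (mem_filter.1 hv).2]
    have h := l4 i (fun j => if h : j < g then π i ⟨j, h⟩ else 0)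
      (fun v hv => Or.inr fun j _ => by rw [hv]) (fun j hj => by
        obtain ⟨r, hr⟩ := hi ⟨j, hj⟩
        exact ⟨r, by rw [← hr]; exact hs ⟨j, hj⟩⟩) j j.2
    rw [hs j] at h
    rw [← h]
    congr 2
    refine filter_congr fun v _ => ?_
    constructor
    · rintro ⟨h1, h2⟩
      exact ⟨h1, by rw [← h2]⟩
    · rintro ⟨h1, h2⟩
      exact ⟨h1, Fin.ext h2⟩

end Pool.Agent.Work.MP_db9399_ts.helper55
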