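import Pool.Agent.Work.MP_db9399_ts_helper55.Asym
import Pool.Agent.Work.MP_db9399_ts_helper55.LabX
import Pool.Agent.Work.MP_db9399_ts_helper49.PUSH

/-!
# MP_db9399, ts block PHASE (helper55)
-/

set_option autoImplicit false
set_option linter.unusedSectionVars false

namespace Pool.Agent.Work.MP_db9399_ts

open Finset Classical Filter

universe u

namespace helper55

variable {E V P R N ι τ σ : Type u}

variable [Fintype E] [Fintype V] [Fintype P] [Fintype R] [Fintype N] [Fintype ι] [Fintype τ]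
  [Fintype σ]

/-- a row has at most `C d * t` ends -/
theorem row_card {Y : Sys E V P R N} {side : V → ι} {M t : ℝ} (ht : 0 ≤ t) (hM : 0 ≤ M)
    (tv : ∀ v, ((univ.filter fun n => Y.vx n = v).card : ℝ) ≤ t)
    (sz : ∀ i, ((univ.filter fun v => side v = i).card : ℝ) ≤ M)
    (sr : ∀ v v' q, Y.row v = some q → Y.row v' = some q → side v = side v') (r : R) :
    ((univ.filter fun n => Y.row (Y.vx n) = some r).card : ℝ) ≤ M * t := by
  by_cases h : ∃ v, Y.row v = some r
  · obtain ⟨v0, hv0⟩ := h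
    refine card_rel_le (univ.filter fun v => side v = side v0) (fun v n => Y.vx n = v) ht (sz _)
      (fun v _ F hF => ?_) (fun n hn => ?_)
    · refine le_trans ?_ (tv v)
      exact_mod_cast card_le_card fun n hn => mem_filter.2 ⟨mem_univ _, hF n hn⟩
    · exact ⟨Y.vx n, mem_filter.2 ⟨mem_univ _, sr _ _ r (mem_filter.1 hn).2 hv0⟩, rfl⟩
  · rw [filter_false_of_mem (fun n _ hn => h ⟨_, hn⟩)]
    simp only [card_empty, Nat.cast_zero]
    positivity

end helper55

open helper55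

theorem blk_PHASE (hP : Stmt_PUSH.{u}) : Stmt_PHASE.{u} := by
  intro g m hg
  obtain ⟨C0, hC0, hX⟩ := labX.{u} (m + g + 1) g hg
  refine ⟨2 * C0 + 2 * (3 + 2 * C0), by linarith, ?_⟩
  intro A C c β cc hA hC hc hc1 hβ hcc
  obtain ⟨d0, hd0⟩ := eventually_atTop.1 (qq_ok g hC0 hA hC hc hc1 hβ hcc)
  refine ⟨d0, ?_⟩
  intro E V P R N ι τ σ _ _ _ _ _ _ _ _ Y par T gr side b w d ε0 u U α γ cnt hd h0 h1 hH hu hU hua
    hαs hαm hγ0 hγ1 hγs hγm hc1 hc2
  obtain ⟨hq, d1, hgd, hlog, hlog2⟩ := hd0 d hd ε0 h0 h1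
  have hD1 : (1 : ℝ) ≤ d := by exact_mod_cast d1
  have hD0 : (0 : ℝ) < d := by linarith
  have hp : ∀ e : ℝ, 0 < (d : ℝ) ^ e := fun e => Real.rpow_pos_of_pos hD0 e
  have hB : Bs Y par T gr side (qq C0 A C c β cc ε0 d) :=
    { ok := hH.ok
      gd := hH.gd
      tv := hH.tv
      ph := hH.ph
      wh := hH.wh
      wr := hH.wr
      Dh := hH.Dh
      Dr := hH.Dr
      Er := hH.Er
      Mr := fun r => row_card (hp _).le (by positivity) hH.tv hH.sz hH.sr r
      Mr0 := by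
        show 0 ≤ C * d * (d : ℝ) ^ (1 - c)
        have := hp (1 - c)
        positivity
      DA := hH.DA
      DA0 := (hp _).le
      rs := hH.rs
      sr := hH.sr }
  have hT : Ts T gr side g m u U α γ (qq C0 A C c β cc ε0 d) :=
    { hu := hu
      hU := hU
      ua := hua
      hα := ⟨hαs, hαm⟩
      G0 := hγ0
      G1 := hγ1
      Gs := hγs
      Gm := hγm
      hJ := fun i => by
        show (univ.filter fun v => side v = i).card < 2 ^ (Nat.log 2 (⌈C⌉₊ * d) + 1)
        refine lt_of_le_of_lt ?_ (Nat.lt_pow_succ_log_self (by norm_num) _)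
        have h2 : ((univ.filter fun v => side v = i).card : ℝ) ≤ ((⌈C⌉₊ * d : ℕ) : ℝ) := by
          push_cast
          exact (hH.sz i).trans (mul_le_mul_of_nonneg_right (Nat.le_ceil C) hD0.le)
        exact_mod_cast h2 }
  obtain ⟨L, w', S, hcnt⟩ := three hP hg hC0 hX hq hB hT hH.b0 hH.w0 hH.mass cnt hc1 hc2 le_rfl
    (nn := (d : ℝ) / C) (by positivity) hgd
    (by
      show (3 + 2 * C0) / ((d : ℝ) / C) ≤ (3 + 2 * C0) * C / d
      have hC' : 0 < C := by linarith
      exact le_of_eq (by field_simp))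
    (fun i hi => by
      have h2 := hH.szT i hi 2
      rw [div_le_iff₀ (by linarith), mul_comm]
      refine h2.trans (le_of_eq ?_)
      congr 3
      unfold Gg
      rw [filter_filter]
      exact filter_congr fun _ _ => and_comm)
  refine ⟨L, w', fun k e => ?_, fun k p hnp => ?_, fun k q => ?_, fun q k => ?_, fun q k k' => ?_,
    fun l i k ρ => ?_, hcnt⟩
  · have h := S.s1 k e
    rw [tg_three] at h
    refine h.trans (le_of_eq ?_)
    show (ε0 + ((3 : ℕ) : ℝ) * ((d : ℝ) ^ (-(c / 20)) / 3)) * _ = _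
    congr 1
    push_cast
    ring
  · have h := S.s2 k p hnp
    refine h.trans (le_of_eq ?_)
    show ((3 : ℕ) : ℝ) * ((d : ℝ) ^ (-(c / 20)) / 3) = _
    push_cast
    ring
  · have h := S.s3 k q
    refine h.trans (le_of_eq ?_)
    show ((3 : ℕ) : ℝ) * ((d : ℝ) ^ (1 - c / 2) / 3) = _
    push_cast
    ring
  · have h := S.s4 q k
    rw [tg_three] at h
    refine h.trans ?_
    show ((3 : ℕ) : ℝ) * (Kf C0 C A d * Real.sqrt (∑ v ∈ T, α q v ^ 2) +
      2 * ((3 + 2 * C0) * C / d) * ∑ v ∈ T, |α q v|) ≤ _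
    have hs := Real.sqrt_nonneg (∑ v ∈ T, α q v ^ 2)
    have ha : 0 ≤ ∑ v ∈ T, |α q v| := sum_nonneg fun _ _ => abs_nonneg _
    have hkc : 0 ≤ (3 + 2 * C0) * C := by positivity
    have h2 : 6 * ((3 + 2 * C0) * C / d) * ∑ v ∈ T, |α q v| ≤
        Real.log d ^ 2 * ((∑ v ∈ T, |α q v|) / d) := by
      rw [show 6 * ((3 + 2 * C0) * C / d) * ∑ v ∈ T, |α q v| =
        6 * ((3 + 2 * C0) * C) * ((∑ v ∈ T, |α q v|) / d) by ring]
      exact mul_le_mul_of_nonneg_right (by linarith) (div_nonneg ha hD0.le)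
    have hK0 : 0 ≤ Kf C0 C A d := by
      unfold Kf
      positivity
    have h3 : 3 * (Kf C0 C A d * Real.sqrt (∑ v ∈ T, α q v ^ 2)) ≤
        Real.log d ^ 2 * Real.sqrt (∑ v ∈ T, α q v ^ 2) := by
      rw [← mul_assoc]
      exact mul_le_mul_of_nonneg_right (by linarith) hs
    push_cast
    linarith
  · have h := S.s5 q k k'
    rw [tg_three] at h
    refine h.trans ?_
    show ((3 : ℕ) : ℝ) * (4 * Kf C0 C A d *
      Real.sqrt (∑ v, (∑ v', (γ q v v' + γ q v' v)) ^ 2) +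
      8 * ((3 + 2 * C0) * C / d) * ∑ v, ∑ v', γ q v v') ≤ _
    have hs := Real.sqrt_nonneg (∑ v, (∑ v', (γ q v v' + γ q v' v)) ^ 2)
    have ha : 0 ≤ ∑ v, ∑ v', γ q v v' := sum_nonneg fun _ _ => sum_nonneg fun _ _ => hγ0 _ _ _
    have h2 : 24 * ((3 + 2 * C0) * C / d) * ∑ v, ∑ v', γ q v v' ≤
        Real.log d ^ 2 * ((∑ v, ∑ v', γ q v v') / d) := by
      rw [show 24 * ((3 + 2 * C0) * C / d) * ∑ v, ∑ v', γ q v v' =
        24 * ((3 + 2 * C0) * C) * ((∑ v, ∑ v', γ q v v') / d) by ring]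
      exact mul_le_mul_of_nonneg_right hlog2 (div_nonneg ha hD0.le)
    have h3 : 12 * Kf C0 C A d * Real.sqrt (∑ v, (∑ v', (γ q v v' + γ q v' v)) ^ 2) ≤
        Real.log d ^ 2 * Real.sqrt (∑ v, (∑ v', (γ q v v' + γ q v' v)) ^ 2) :=
      mul_le_mul_of_nonneg_right hlog hs
    push_cast
    linarith
  · have h := S.s6 l i k ρ ρ.2
    have h2 : (Gg T gr ρ).filter (fun v => side v = i) =
        T.filter (fun v => side v = i ∧ gr v = ρ) := by
      unfold Gg
      rw [filter_filter]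
      exact filter_congr fun _ _ => and_comm
    rw [h2] at h
    exact h

theorem stmt_PHASE : Stmt_PHASE.{u} := blk_PHASE stmt_PUSH.{u}

end Pool.Agent.Work.MP_db9399_ts
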