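import Pool.Agent.Work.MP_db9399_ts.Final
import Pool.Agent.Work.MP_db9399_ts_helper55.PHASE

/-!
# MP_db9399, ts block SID (helper55)
-/

set_option autoImplicit false

namespace Pool.Agent.Work.MP_db9399_ts

open Finset Classical

universe u

namespace helper55

/-- the class of a side -/
def kk (x : Bool) : Fin 2 := if x then 1 else 0

/-- the other class -/
def ok (x : Bool) : Fin 2 := if x then 0 else 1

theorem mu_ok {V : Type u} {T : Finset V} (L : V → Fin 2) (x : Bool) {v : V} (hv : v ∈ T) :
    mu 2 T L (ok x) v = 2 * (if decide (L v = 1) = x then 1 else 0) := by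
  unfold mu
  rw [if_pos hv]
  have h : L v = 0 ∨ L v = 1 := by
    rcases Fin.exists_fin_two.1 ⟨L v, rfl⟩ with h | h
    · exact Or.inl h
    · exact Or.inr h
  rcases h with h | h <;> cases x <;> rw [h] <;> simp [ok] <;> norm_num

theorem dec_kk {L : Fin 2} (x : Bool) : (decide (L = 1) = x) ↔ L = kk x := by
  revert L x
  decide

/-- the trivial system -/
def tsys (V : Type u) : Sys PEmpty.{u+1} V PEmpty.{u+1} PEmpty.{u+1} PEmpty.{u+1} where
  ed n := n.elim
  vx n := n.elim
  pu n := n.elim
  row _ := none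
  rp q := q.elim
  mt n := n.elim

end helper55

open helper55

theorem blk_SID (hP : Stmt_PHASE.{u}) : Stmt_SID.{u} := by
  intro m
  obtain ⟨Cm, hCm, hP1⟩ := hP 2 m le_rfl
  refine ⟨2 * Cm, by linarith, ?_⟩
  intro A C hA hC
  obtain ⟨d0, hP2⟩ := hP1 A C 1 1 1 hA hC one_pos le_rfl one_pos one_pos
  refine ⟨d0, ?_⟩
  intro V ι τ τ' _ _ _ _ T gr side d u U α γ cnt hd sz szT hu hU hα hγ0 hγ1 hγs hγm hc1 hc2
  have hPh : PhH (tsys V) (fun _ => True) 2 T gr side (fun _ _ => (0 : ℝ)) (fun _ _ => 0) d A C 1 1 1 0 :=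
    { ok :=
        { inj := fun q => q.elim
          m1 := fun n => n.elim
          m2 := fun n => n.elim
          m3 := fun n => n.elim
          m4 := fun n => n.elim
          m5 := fun n => n.elim }
      gd := fun n => n.elim
      b0 := fun k e => e.elim
      w0 := fun k e => e.elim
      tv := fun v => by
        rw [filter_false_of_mem (fun n _ => n.elim), card_empty]
        simp
      ph := fun p => p.elim
      wh := fun p => p.elim
      wr := fun p => p.elim
      Dh := fun n => n.elim
      Dr := fun n => n.elim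
      Er := fun q => q.elim
      DA := fun p => p.elim
      mass := fun k p => p.elim
      sz := sz
      szT := szT
      rs := fun _ _ _ => rfl
      sr := fun v v' q => q.elim }
  obtain ⟨L, w', _, _, _, f4, f5, f6, f7⟩ := hP2 (tsys V) (fun _ => True) T gr side
    (fun _ _ => (0 : ℝ)) (fun _ _ => 0) d 0 (fun l _ v => u l v) U α γ
    (fun i k => cnt i (decide (k = 1))) hd le_rfl (by norm_num) hPh (fun l _ v => hu l v) hU
    (fun _ _ _ _ _ => rfl) hα.sp hα.mu hγ0 hγ1 hγs hγm
    (fun i => by
      rw [Fin.sum_univ_two]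
      exact hc1 i)
    (fun i j => by
      have := hc2 i (decide (j = 1))
      push_cast
      exact this)
  refine ⟨fun v => decide (L v = 1), fun q x => ?_, fun q x y => ?_, fun l i x => ?_, fun i x => ?_⟩
  · have h := f4 q (ok x)
    have h2 : ∑ v ∈ T, α q v * (mu 2 T L (ok x) v - 1) =
        2 * ∑ v ∈ T, α q v * ((if decide (L v = 1) = x then 1 else 0) - 1 / 2) := by
      rw [mul_sum]
      refine sum_congr rfl fun v hv => ?_
      rw [mu_ok L x hv]
      ring
    rw [h2, abs_mul, abs_of_pos (by norm_num : (0 : ℝ) < 2)] at h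
    have h0 := abs_nonneg (∑ v ∈ T, α q v * ((if decide (L v = 1) = x then (1 : ℝ) else 0) - 1 / 2))
    linarith
  · have h := f5 q (ok x) (ok y)
    have h2 : ∑ v, ∑ w, γ q v w * (mu 2 T L (ok x) v * mu 2 T L (ok y) w - 1) =
        4 * ∑ v, ∑ w, γ q v w *
          ((if decide (L v = 1) = x ∧ decide (L w = 1) = y then 1 else 0) - 1 / 4) := by
      rw [mul_sum]
      refine sum_congr rfl fun v _ => ?_
      rw [mul_sum]
      refine sum_congr rfl fun w _ => ?_
      by_cases hG : γ q v w = 0
      · rw [hG]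
        ring
      · obtain ⟨a1, a2, _⟩ := hγ1 q v w hG
        rw [mu_ok L x a1, mu_ok L y a2]
        by_cases e1 : decide (L v = 1) = x
        · by_cases e2 : decide (L w = 1) = y
          · rw [if_pos e1, if_pos e2, if_pos ⟨e1, e2⟩]
            ring
          · rw [if_pos e1, if_neg e2, if_neg (show ¬ (decide (L v = 1) = x ∧
              decide (L w = 1) = y) from fun h => e2 h.2)]
            ring
        · rw [if_neg e1, if_neg (show ¬ (decide (L v = 1) = x ∧
              decide (L w = 1) = y) from fun h => e1 h.1)]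
          ring
    rw [h2, abs_mul, abs_of_pos (by norm_num : (0 : ℝ) < 4)] at h
    have h0 := abs_nonneg (∑ v, ∑ w, γ q v w *
      ((if decide (L v = 1) = x ∧ decide (L w = 1) = y then (1 : ℝ) else 0) - 1 / 4))
    linarith
  · have h := fun ρ => f6 l i (ok x) ρ
    have h2 : ∑ v ∈ T.filter (fun v => side v = i), u l v *
        ((if decide (L v = 1) = x then 1 else 0) - 1 / 2) = (1 / 2) * ∑ ρ : Fin 3,
        ∑ v ∈ T.filter (fun v => side v = i ∧ gr v = ρ), u l v * (mu 2 T L (ok x) v - 1) := by
      rw [← sum_fiberwise (T.filter fun v => side v = i) gr, mul_sum]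
      refine sum_congr rfl fun ρ _ => ?_
      rw [filter_filter, mul_sum]
      refine sum_congr rfl fun v hv => ?_
      rw [mu_ok L x (mem_filter.1 hv).1]
      ring
    rw [h2, abs_mul, abs_of_pos (by norm_num : (0 : ℝ) < 1 / 2)]
    have h3 : |∑ ρ : Fin 3, ∑ v ∈ T.filter (fun v => side v = i ∧ gr v = ρ),
        u l v * (mu 2 T L (ok x) v - 1)| ≤ 3 * (Cm * U l i) := by
      refine (abs_sum_le_sum_abs _ _).trans ((sum_le_sum fun ρ _ => h ρ).trans (le_of_eq ?_))
      rw [sum_const, card_univ, Fintype.card_fin, nsmul_eq_mul]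
      push_cast
      ring
    have h4 := mul_nonneg hCm.le (hU l i)
    linarith
  · have h := f7 i (kk x)
    have h2 : (fun k : Fin 2 => cnt i (decide (k = 1))) (kk x) = cnt i x := by
      cases x <;> rfl
    have h3 : cnt i (decide (kk x = 1)) = cnt i x := h2
    rw [h3] at h
    rw [← h]
    congr 1
    exact filter_congr fun v _ => by rw [dec_kk]

theorem stmt_SID : Stmt_SID.{u} := blk_SID stmt_PHASE.{u}

end Pool.Agent.Work.MP_db9399_ts
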