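import Pool.Agent.Work.MP_db9399_ts.Phase

/-!
# MP_db9399, PHASE, part A: algebra of `mu` and `bas` (helper55)
-/

set_option autoImplicit false

namespace Pool.Agent.Work.MP_db9399_ts.helper55

open Finset Classical

universe u

variable {E V P R N ι τ : Type u}

theorem gg {g : ℕ} (hg : 2 ≤ g) : 0 < (g : ℝ) / (g - 1) ∧ (g : ℝ) / (g - 1) ≤ 2 := by
  have h2 : (2 : ℝ) ≤ g := by exact_mod_cast hg
  have h1 : (0 : ℝ) < g - 1 := by linarith
  exact ⟨by positivity, by rw [div_le_iff₀ h1]; linarith⟩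

theorem mu_nonneg {g : ℕ} (hg : 2 ≤ g) (T : Finset V) (L : V → Fin g) (k : Fin g) (v : V) :
    0 ≤ mu g T L k v := by
  unfold mu
  split_ifs
  · exact le_rfl
  · exact (gg hg).1.le
  · exact zero_le_one

theorem mu_le {g : ℕ} (hg : 2 ≤ g) (T : Finset V) (L : V → Fin g) (k : Fin g) (v : V) :
    mu g T L k v ≤ 2 := by
  unfold mu
  split_ifs
  · norm_num
  · exact (gg hg).2
  · norm_num

theorem mu_off {g : ℕ} {T : Finset V} (L : V → Fin g) (k : Fin g) {v : V} (h : v ∉ T) :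
    mu g T L k v = 1 := by
  unfold mu
  rw [if_neg h]

theorem mu_sub_one {g : ℕ} (hg : 2 ≤ g) {T : Finset V} (L : V → Fin g) (k : Fin g) {v : V}
    (h : v ∈ T) :
    mu g T L k v - 1 = -((g : ℝ) / (g - 1)) * ((if L v = k then 1 else 0) - 1 / g) := by
  have h2 : (2 : ℝ) ≤ g := by exact_mod_cast hg
  have h1 : (g : ℝ) - 1 ≠ 0 := by linarith
  have h0 : (g : ℝ) ≠ 0 := by linarith
  unfold mu
  rw [if_pos h]
  split_ifs
  · field_simp
    ring
  · field_simp
    ring

theorem mu_union {g : ℕ} {T0 Gr : Finset V} (hd : Disjoint T0 Gr) {L Lr L' : V → Fin g}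
    (h0 : ∀ v ∈ T0, L' v = L v) (h1 : ∀ v ∈ Gr, L' v = Lr v) (k : Fin g) (v : V) :
    mu g (T0 ∪ Gr) L' k v = mu g T0 L k v * mu g Gr Lr k v := by
  by_cases a0 : v ∈ T0
  · have a1 : v ∉ Gr := fun h => disjoint_left.1 hd a0 h
    rw [mu_off Lr k a1, mul_one]
    unfold mu
    rw [if_pos a0, if_pos (mem_union_left _ a0), h0 v a0]
  · by_cases a1 : v ∈ Gr
    · rw [mu_off L k a0, one_mul]
      unfold mu
      rw [if_pos a1, if_pos (mem_union_right _ a1), h1 v a1]
    · rw [mu_off L k a0, mu_off Lr k a1, mu_off L' k (fun h => ?_), one_mul]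
      rcases mem_union.1 h with h | h
      · exact a0 h
      · exact a1 h

variable [Fintype N]

/-- the ends of the edge of `n` -/
theorem ends {Y : Sys E V P R N} {par : R → Prop} (hY : Y.Ok par) (n : N) :
    (Y.mt n = none ∧ univ.filter (fun n' => Y.ed n' = Y.ed n) = {n}) ∨
      ∃ n', Y.mt n = some n' ∧ n ≠ n' ∧ univ.filter (fun n'' => Y.ed n'' = Y.ed n) = {n, n'} := by
  cases hm : Y.mt n with
  | none =>
    refine Or.inl ⟨rfl, ?_⟩
    ext n'
    simp only [mem_filter, mem_univ, true_and, mem_singleton]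
    constructor
    · intro h
      rcases hY.m2 n n' h with h | h
      · exact h
      · rw [hm] at h; exact absurd h (by simp)
    · rintro rfl
      rfl
  | some n' =>
    obtain ⟨a1, a2, a3⟩ := hY.m1 n n' hm
    refine Or.inr ⟨n', rfl, fun h => a3 h.symm, ?_⟩
    ext n''
    simp only [mem_filter, mem_univ, true_and, mem_insert, mem_singleton]
    constructor
    · intro h
      rcases hY.m2 n n'' h with h | h
      · exact Or.inl h
      · rw [hm] at h
        exact Or.inr (Option.some.inj h).symm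
    · rintro (rfl | rfl)
      · rfl
      · exact a2

theorem bas_nonneg {g : ℕ} (hg : 2 ≤ g) (Y : Sys E V P R N) (T : Finset V) (L : V → Fin g)
    {b : Fin g → E → ℝ} (hb : ∀ k e, 0 ≤ b k e) (k : Fin g) (e : E) :
    0 ≤ bas Y g T L b k e :=
  mul_nonneg (hb k e) (prod_nonneg fun _ _ => mu_nonneg hg T L k _)

theorem prod_ends_le {g : ℕ} (hg : 2 ≤ g) {Y : Sys E V P R N} {par : R → Prop} (hY : Y.Ok par)
    (T : Finset V) (L : V → Fin g) (k : Fin g) (e : E) :
    ∏ n with Y.ed n = e, mu g T L k (Y.vx n) ≤ 4 := by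
  by_cases h : ∃ n, Y.ed n = e
  · obtain ⟨n, rfl⟩ := h
    rcases ends hY n with ⟨_, h⟩ | ⟨n', _, h1, h⟩
    · rw [h, prod_singleton]
      exact (mu_le hg T L k _).trans (by norm_num)
    · rw [h, prod_pair h1]
      calc mu g T L k (Y.vx n) * mu g T L k (Y.vx n') ≤ 2 * 2 :=
            mul_le_mul (mu_le hg T L k _) (mu_le hg T L k _) (mu_nonneg hg T L k _) (by norm_num)
        _ = 4 := by norm_num
  · rw [filter_false_of_mem, prod_empty]
    · norm_num
    · exact fun n _ hn => h ⟨n, hn⟩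

theorem bas_le {g : ℕ} (hg : 2 ≤ g) {Y : Sys E V P R N} {par : R → Prop} (hY : Y.Ok par)
    (T : Finset V) (L : V → Fin g) {b : Fin g → E → ℝ} {β : ℝ}
    (hb : ∀ k e, 0 ≤ b k e ∧ b k e ≤ β) (k : Fin g) (e : E) :
    bas Y g T L b k e ≤ 4 * β := by
  unfold bas
  calc b k e * _ ≤ β * 4 := mul_le_mul (hb k e).2 (prod_ends_le hg hY T L k e)
        (prod_nonneg fun n _ => mu_nonneg hg T L k _) ((hb k e).1.trans (hb k e).2)
    _ = 4 * β := mul_comm _ _

/-- composition of two rounds -/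
theorem bas_union {g : ℕ} (Y : Sys E V P R N) {T0 Gr : Finset V} (hd : Disjoint T0 Gr)
    {L Lr L' : V → Fin g} (h0 : ∀ v ∈ T0, L' v = L v) (h1 : ∀ v ∈ Gr, L' v = Lr v)
    (b : Fin g → E → ℝ) (k : Fin g) (e : E) :
    bas Y g (T0 ∪ Gr) L' b k e = bas Y g Gr Lr (bas Y g T0 L b) k e := by
  unfold bas
  rw [mul_assoc, ← prod_mul_distrib]
  congr 1
  exact prod_congr rfl fun n _ => mu_union hd h0 h1 k _

theorem bas_empty {g : ℕ} (Y : Sys E V P R N) (L : V → Fin g) (b : Fin g → E → ℝ) (k : Fin g)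
    (e : E) : bas Y g ∅ L b k e = b k e := by
  unfold bas
  rw [prod_congr rfl fun n _ => mu_off L k (notMem_empty (Y.vx n)), prod_const_one, mul_one]

/-- an edge with an end in `Gr` -/
theorem bas_in {g : ℕ} {Y : Sys E V P R N} {par : R → Prop} (hY : Y.Ok par) {Gr : Finset V}
    (dis : ∀ n n', Y.mt n = some n' → Y.vx n ∈ Gr → Y.vx n' ∉ Gr) (L : V → Fin g)
    (b : Fin g → E → ℝ) (k : Fin g) {n : N} (hn : Y.vx n ∈ Gr) :
    bas Y g Gr L b k (Y.ed n) = b k (Y.ed n) * mu g Gr L k (Y.vx n) := by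
  unfold bas
  rcases ends hY n with ⟨_, h⟩ | ⟨n', h2, h1, h⟩
  · rw [h, prod_singleton]
  · rw [h, prod_pair h1, mu_off L k (dis n n' h2 hn), mul_one]

/-- an edge without an end in `Gr` -/
theorem bas_out {g : ℕ} {Y : Sys E V P R N} {par : R → Prop} (hY : Y.Ok par) {Gr : Finset V}
    (L : V → Fin g) (b : Fin g → E → ℝ) (k : Fin g) {n : N} (hn : Y.noG Gr n) :
    bas Y g Gr L b k (Y.ed n) = b k (Y.ed n) := by
  unfold bas
  rcases ends hY n with ⟨_, h⟩ | ⟨n', h2, h1, h⟩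
  · rw [h, prod_singleton, mu_off L k hn.1, mul_one]
  · rw [h, prod_pair h1, mu_off L k hn.1, mu_off L k (hn.2 n' h2), mul_one, mul_one]

theorem bas_none {g : ℕ} {Y : Sys E V P R N} {Gr : Finset V}
    (L : V → Fin g) (b : Fin g → E → ℝ) (k : Fin g) {e : E} (he : ∀ n, Y.ed n ≠ e) :
    bas Y g Gr L b k e = b k e := by
  unfold bas
  rw [filter_false_of_mem (fun n _ hn => he n hn), prod_empty, mul_one]

/-- the linear form of one round -/
theorem bas_lin {g : ℕ} {Y : Sys E V P R N} {par : R → Prop} (hY : Y.Ok par) {Gr : Finset V}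
    (dis : ∀ n n', Y.mt n = some n' → Y.vx n ∈ Gr → Y.vx n' ∉ Gr) (L : V → Fin g)
    (b : Fin g → E → ℝ) (k : Fin g) (n : N) :
    bas Y g Gr L b k (Y.ed n) = b k (Y.ed n) *
      (1 + ∑ n' with Y.ed n' = Y.ed n, (mu g Gr L k (Y.vx n') - 1)) := by
  unfold bas
  congr 1
  rcases ends hY n with ⟨_, h⟩ | ⟨n', h2, h1, h⟩
  · rw [h, prod_singleton, sum_singleton]
    ring
  · rw [h, prod_pair h1, sum_pair h1]
    by_cases hn : Y.vx n ∈ Gr
    · rw [mu_off L k (dis n n' h2 hn)]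
      ring
    · rw [mu_off L k hn]
      ring

variable [Fintype V]

/-- sum over a set of ends: what the labels of a round change -/
theorem sum_bas_sub {g : ℕ} {Y : Sys E V P R N} {par : R → Prop} (hY : Y.Ok par) {Gr : Finset V}
    (dis : ∀ n n', Y.mt n = some n' → Y.vx n ∈ Gr → Y.vx n' ∉ Gr) (L : V → Fin g)
    (b : Fin g → E → ℝ) (k : Fin g) (S : Finset N) :
    ∑ n ∈ S, bas Y g Gr L b k (Y.ed n) = ∑ n ∈ S, b k (Y.ed n) +
      ∑ v ∈ Gr, (∑ n ∈ S, b k (Y.ed n) *
        ((univ.filter fun n' => Y.ed n' = Y.ed n ∧ Y.vx n' = v).card : ℝ)) *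
        (mu g Gr L k v - 1) := by
  have h1 : ∀ n, ∑ n' with Y.ed n' = Y.ed n, (mu g Gr L k (Y.vx n') - 1) =
      ∑ v ∈ Gr, ((univ.filter fun n' => Y.ed n' = Y.ed n ∧ Y.vx n' = v).card : ℝ) *
        (mu g Gr L k v - 1) := by
    intro n
    have h2 : ∑ n' with Y.ed n' = Y.ed n, (mu g Gr L k (Y.vx n') - 1) =
        ∑ v, ∑ n' ∈ (univ.filter fun n' => Y.ed n' = Y.ed n) with Y.vx n' = v,
          (mu g Gr L k (Y.vx n') - 1) := (sum_fiberwise _ _ _).symm
    rw [h2, ← sum_subset (subset_univ Gr)]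
    · refine sum_congr rfl fun v _ => ?_
      rw [filter_filter, sum_congr rfl (g := fun _ => mu g Gr L k v - 1)
        (fun n' hn' => by rw [(mem_filter.1 hn').2.2]), sum_const, nsmul_eq_mul]
    · intro v _ hv
      refine sum_eq_zero fun n' hn' => ?_
      rw [(mem_filter.1 hn').2, mu_off L k hv, sub_self]
  calc ∑ n ∈ S, bas Y g Gr L b k (Y.ed n)
      = ∑ n ∈ S, (b k (Y.ed n) + ∑ v ∈ Gr, b k (Y.ed n) *
        ((univ.filter fun n' => Y.ed n' = Y.ed n ∧ Y.vx n' = v).card : ℝ) *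
        (mu g Gr L k v - 1)) := by
        refine sum_congr rfl fun n _ => ?_
        rw [bas_lin hY dis, h1, mul_add, mul_one, mul_sum]
        congr 1
        exact sum_congr rfl fun v _ => by ring
    _ = _ := by
        rw [sum_add_distrib, sum_comm]
        congr 1
        exact sum_congr rfl fun v _ => by rw [sum_mul]

end Pool.Agent.Work.MP_db9399_ts.helper55
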