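import Pool.Agent.Work.MP_db9399_ts_helper55.Round

/-!
# MP_db9399, PHASE, part D: coefficients of the masses (helper55)
-/

set_option autoImplicit false
set_option linter.unusedSectionVars false

namespace Pool.Agent.Work.MP_db9399_ts.helper55

open Finset Classical

universe u

variable {E V P R N ι τ : Type u} [Fintype V] [Fintype P] [Fintype N]

/-- coefficient of `η v` in the sum of `bas` over the ends in `S` -/
noncomputable def cof (Y : Sys E V P R N) (S : Finset N) (b : E → ℝ) (v : V) : ℝ :=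
  ∑ n ∈ S, b (Y.ed n) * ((univ.filter fun n' => Y.ed n' = Y.ed n ∧ Y.vx n' = v).card : ℝ)

theorem cof_nonneg {Y : Sys E V P R N} {S : Finset N} {b : E → ℝ} (hb : ∀ e, 0 ≤ b e) (v : V) :
    0 ≤ cof Y S b v := sum_nonneg fun _ _ => mul_nonneg (hb _) (Nat.cast_nonneg _)

theorem ends_card {Y : Sys E V P R N} {par : R → Prop} (hY : Y.Ok par) (n : N) :
    (univ.filter fun n' => Y.ed n' = Y.ed n).card ≤ 2 := by
  rcases ends hY n with ⟨_, h⟩ | ⟨n', _, h1, h⟩
  · rw [h, card_singleton]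
    norm_num
  · rw [h, card_pair h1]

theorem cof_sum {Y : Sys E V P R N} {par : R → Prop} (hY : Y.Ok par) {S : Finset N} {b : E → ℝ}
    {B : ℝ} (hb : ∀ e, 0 ≤ b e ∧ b e ≤ B) {p : P} (hS : ∀ n ∈ S, Y.pu n = some p) :
    ∑ v, cof Y S b v ≤ 2 * B * Y.D p := by
  unfold cof
  rw [sum_comm]
  have h1 : ∀ n ∈ S, ∑ v, b (Y.ed n) *
      ((univ.filter fun n' => Y.ed n' = Y.ed n ∧ Y.vx n' = v).card : ℝ) ≤ B * 2 := by
    intro n _
    rw [← mul_sum]
    have h2 : ∑ v, ((univ.filter fun n' => Y.ed n' = Y.ed n ∧ Y.vx n' = v).card : ℝ) =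
        ((univ.filter fun n' => Y.ed n' = Y.ed n).card : ℝ) := by
      rw [card_eq_sum_card_fiberwise (f := Y.vx) (t := univ) (fun _ _ => by simp)]
      push_cast
      refine sum_congr rfl fun v _ => ?_
      rw [filter_filter]
    rw [h2]
    have h3 : ((univ.filter fun n' => Y.ed n' = Y.ed n).card : ℝ) ≤ 2 := by
      exact_mod_cast ends_card hY n
    exact mul_le_mul (hb _).2 h3 (Nat.cast_nonneg _) ((hb (Y.ed n)).1.trans (hb _).2)
  refine (sum_le_sum h1).trans ?_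
  rw [sum_const, nsmul_eq_mul]
  have h4 : (S.card : ℝ) ≤ Y.D p := by
    unfold Sys.D
    exact_mod_cast card_le_card fun n hn => mem_filter.2 ⟨mem_univ _, hS n hn⟩
  by_cases hE : Nonempty N
  · obtain ⟨n⟩ := hE
    have hB : 0 ≤ B := (hb (Y.ed n)).1.trans (hb _).2
    nlinarith
  · have h5 : S = ∅ := eq_empty_of_forall_notMem fun n _ => hE ⟨n⟩
    have h6 : Y.D p = 0 := by
      unfold Sys.D
      rw [filter_false_of_mem (fun n _ _ => hE ⟨n⟩)]
      simp
    rw [h5, h6]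
    simp

/-- a pusher outside the pieces -/
theorem cof_max_h {Y : Sys E V P R N} {par : R → Prop} (hY : Y.Ok par) {S : Finset N}
    {b : E → ℝ} {B : ℝ} (hB : 0 ≤ B) (hb : ∀ e, 0 ≤ b e ∧ b e ≤ B) {p : P} (hp : ¬ Y.isR p)
    (ph : ∀ p v, ¬ Y.isR p → (univ.filter fun n => Y.pu n = some p ∧ Y.vx n = v).card ≤ 1)
    (hS : ∀ n ∈ S, Y.pu n = some p) (v : V) : cof Y S b v ≤ B := by
  have h1 : ∀ n ∈ S, b (Y.ed n) *
      ((univ.filter fun n' => Y.ed n' = Y.ed n ∧ Y.vx n' = v).card : ℝ) ≤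
      if Y.vx n = v then B else 0 := by
    intro n hn
    have h2 : univ.filter (fun n' => Y.ed n' = Y.ed n) = {n} := by
      rcases ends hY n with ⟨_, h⟩ | ⟨n', hm, _, _⟩
      · exact h
      · obtain ⟨q, hq, _⟩ := hY.m3 n n' p hm (hS n hn)
        exact absurd ⟨q, hq⟩ hp
    have h3 : (univ.filter fun n' => Y.ed n' = Y.ed n ∧ Y.vx n' = v) =
        ({n} : Finset N).filter fun n' => Y.vx n' = v := by
      rw [← h2, filter_filter]
    rw [h3]
    split_ifs with h
    · rw [filter_true_of_mem (fun n' hn' => by rw [mem_singleton.1 hn', h]), card_singleton]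
      simpa using (hb _).2
    · rw [filter_false_of_mem (fun n' hn' => by rw [mem_singleton.1 hn']; exact h)]
      simp
  refine (sum_le_sum h1).trans ?_
  rw [← sum_filter, sum_const, nsmul_eq_mul]
  have h4 : (S.filter fun n => Y.vx n = v).card ≤ 1 := by
    refine le_trans (card_le_card fun n hn => ?_) (ph p v hp)
    exact mem_filter.2 ⟨mem_univ _, hS n (mem_filter.1 hn).1, (mem_filter.1 hn).2⟩
  have h5 : ((S.filter fun n => Y.vx n = v).card : ℝ) ≤ 1 := by exact_mod_cast h4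
  calc ((S.filter fun n => Y.vx n = v).card : ℝ) * B ≤ 1 * B := mul_le_mul_of_nonneg_right h5 hB
    _ = B := one_mul B

/-- any pusher -/
theorem cof_max {Y : Sys E V P R N} {par : R → Prop} (hY : Y.Ok par) {S : Finset N}
    {b : E → ℝ} {B t : ℝ} (hB : 0 ≤ B) (hb : ∀ e, 0 ≤ b e ∧ b e ≤ B)
    (tv : ∀ v, ((univ.filter fun n => Y.vx n = v).card : ℝ) ≤ t) (v : V) :
    cof Y S b v ≤ 2 * B * t := by
  have h1 : cof Y S b v ≤ ∑ n ∈ S, ∑ n' with Y.vx n' = v, if Y.ed n' = Y.ed n then B else 0 := by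
    refine sum_le_sum fun n _ => ?_
    rw [← sum_filter, sum_const, nsmul_eq_mul, filter_filter, mul_comm]
    have h2 : (univ.filter fun n' => Y.vx n' = v ∧ Y.ed n' = Y.ed n) =
        univ.filter fun n' => Y.ed n' = Y.ed n ∧ Y.vx n' = v :=
      filter_congr fun _ _ => and_comm
    rw [h2]
    exact mul_le_mul_of_nonneg_left (hb _).2 (Nat.cast_nonneg _)
  refine h1.trans ?_
  rw [sum_comm]
  have h3 : ∀ n' ∈ univ.filter (fun n' => Y.vx n' = v),
      ∑ n ∈ S, (if Y.ed n' = Y.ed n then B else 0) ≤ 2 * B := by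
    intro n' _
    rw [← sum_filter, sum_const, nsmul_eq_mul]
    have h4 : (S.filter fun n => Y.ed n' = Y.ed n).card ≤ 2 := by
      refine le_trans (card_le_card fun n hn => ?_) (ends_card hY n')
      exact mem_filter.2 ⟨mem_univ _, (mem_filter.1 hn).2.symm⟩
    have h5 : ((S.filter fun n => Y.ed n' = Y.ed n).card : ℝ) ≤ 2 := by exact_mod_cast h4
    exact mul_le_mul_of_nonneg_right h5 hB
  refine (sum_le_sum h3).trans ?_
  rw [sum_const, nsmul_eq_mul, mul_comm]
  exact mul_le_mul_of_nonneg_left (tv v) (by linarith)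

theorem cof_sq {Y : Sys E V P R N} {par : R → Prop} (hY : Y.Ok par) {S : Finset N}
    {b : E → ℝ} {B M : ℝ} (hM : 0 ≤ M) (hb : ∀ e, 0 ≤ b e ∧ b e ≤ B) {p : P}
    (hS : ∀ n ∈ S, Y.pu n = some p) (hmax : ∀ v, cof Y S b v ≤ M) (Gr : Finset V) :
    ∑ v ∈ Gr, cof Y S b v ^ 2 ≤ M * (2 * B * Y.D p) := by
  calc ∑ v ∈ Gr, cof Y S b v ^ 2 ≤ ∑ v, cof Y S b v ^ 2 :=
        sum_le_sum_of_subset_of_nonneg (subset_univ _) fun _ _ _ => sq_nonneg _
    _ ≤ ∑ v, M * cof Y S b v := sum_le_sum fun v _ => by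
        rw [sq]
        exact mul_le_mul_of_nonneg_right (hmax v) (cof_nonneg (fun e => (hb e).1) v)
    _ = M * ∑ v, cof Y S b v := by rw [mul_sum]
    _ ≤ _ := mul_le_mul_of_nonneg_left (cof_sum hY hb hS) hM

theorem cof_ne {Y : Sys E V P R N} {S : Finset N} {b : E → ℝ} {v : V} (h : cof Y S b v ≠ 0) :
    ∃ n ∈ S, ∃ n', Y.ed n' = Y.ed n ∧ Y.vx n' = v := by
  obtain ⟨n, hn, h0⟩ := exists_ne_zero_of_sum_ne_zero h
  refine ⟨n, hn, ?_⟩
  by_contra hne
  apply h0
  rw [filter_false_of_mem (fun n' _ hn' => hne ⟨n', hn'⟩)]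
  simp

/-- support and multiplicity of the mass tests -/
theorem sm_cof {Y : Sys E V P R N} {par : R → Prop} (hY : Y.Ok par) {t DM : ℝ}
    (S : P → Fin 3 → Finset N) (hS : ∀ p ρ, ∀ n ∈ S p ρ, Y.pu n = some p) (b : E → ℝ)
    (tv : ∀ v, ((univ.filter fun n => Y.vx n = v).card : ℝ) ≤ t) (hD : ∀ p, Y.D p ≤ DM) :
    SM (fun (x : P × ULift.{u} (Fin 3)) v => cof Y (S x.1 x.2.down) b v) (DM * 2) (t * (2 * 3)) := by
  refine ⟨fun x => ?_, fun v => ?_⟩
  · refine card_rel_le (univ.filter fun n => Y.pu n = some x.1)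
      (fun n v => ∃ n', Y.ed n' = Y.ed n ∧ Y.vx n' = v) zero_le_two (hD _)
      (fun n _ F hF => ?_) (fun v hv => ?_)
    · have h1 : F ⊆ (univ.filter fun n' => Y.ed n' = Y.ed n).image Y.vx := by
        intro v hv
        obtain ⟨n', h1, h2⟩ := hF v hv
        exact mem_image.2 ⟨n', mem_filter.2 ⟨mem_univ _, h1⟩, h2⟩
      have h2 := (card_le_card h1).trans (card_image_le.trans (ends_card hY n))
      exact_mod_cast h2
    · obtain ⟨n, hn, n', h1, h2⟩ := cof_ne (mem_filter.1 hv).2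
      exact ⟨n, mem_filter.2 ⟨mem_univ _, hS _ _ n hn⟩, n', h1, h2⟩
  · refine card_rel_le (univ.filter fun n => Y.vx n = v)
      (fun n' (x : P × ULift.{u} (Fin 3)) => ∃ n, Y.ed n = Y.ed n' ∧ Y.pu n = some x.1)
      (by norm_num) (tv v) (fun n' _ F hF => ?_) (fun x hx => ?_)
    · have h1 := card_rel_le (univ.filter fun n => Y.ed n = Y.ed n')
        (fun n (x : P × ULift.{u} (Fin 3)) => Y.pu n = some x.1) (T := F) (M := 3) (K := 2)
        (by norm_num) (by exact_mod_cast ends_card hY n') (fun n _ F' hF' => ?_) (fun x hx => ?_)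
      · exact h1
      · have h2 : F' ⊆ F'.image Prod.fst ×ˢ (univ : Finset (ULift.{u} (Fin 3))) := by
          intro x hx
          exact mem_product.2 ⟨mem_image_of_mem _ hx, mem_univ _⟩
        have h3 : (F'.image Prod.fst).card ≤ 1 := by
          refine card_le_one.2 fun y hy y' hy' => ?_
          obtain ⟨x, hx, rfl⟩ := mem_image.1 hy
          obtain ⟨x', hx', rfl⟩ := mem_image.1 hy'
          exact Option.some.inj ((hF' x hx).symm.trans (hF' x' hx'))
        have h4 := card_le_card h2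
        rw [card_product, card_univ, Fintype.card_ulift, Fintype.card_fin] at h4
        have h5 : F'.card ≤ 3 := by omega
        exact_mod_cast h5
      · obtain ⟨n, h1, h2⟩ := hF x hx
        exact ⟨n, mem_filter.2 ⟨mem_univ _, h1⟩, h2⟩
    · obtain ⟨n, hn, n', h1, h2⟩ := cof_ne (mem_filter.1 hx).2
      exact ⟨n', mem_filter.2 ⟨mem_univ _, h2⟩, n, h1.symm, hS _ _ n hn⟩

end Pool.Agent.Work.MP_db9399_ts.helper55
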