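import Pool.Agent.Work.MP_db9399_ts.Final

/-!
# MP_db9399, ts block RND, part A: sums over edges, sides (helper55)
-/

set_option autoImplicit false

namespace Pool.Agent.Work.MP_db9399_ts.helper55

open Finset Classical
open Pool.Agent.Work.MP_db9399_all (nb)
open Pool.Agent.Work.MP_db9399_clj.helper75 (OO blk nB eE)

universe u

variable {W B : Type u}

theorem LE_symm (X : Dat W B) {v w : W} (h : X.LE v w) : X.LE w v :=
  ⟨h.1.symm, fun h' => h.2 ⟨h'.2, h'.1⟩⟩

theorem LE_ne (X : Dat W B) {v w : W} (h : X.LE v w) : v ≠ w := h.1.ne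

theorem LE_comm (X : Dat W B) (v w : W) : X.LE v w ↔ X.LE w v := ⟨LE_symm X, LE_symm X⟩

/-- light edge -/
def lt (X : Dat W B) (e : Sym2 W) : Prop := ∃ v w, e = s(v, w) ∧ X.LE v w

theorem lt_mk (X : Dat W B) (v w : W) : lt X s(v, w) ↔ X.LE v w := by
  constructor
  · rintro ⟨v', w', h, h'⟩
    rcases Sym2.eq_iff.1 h with ⟨rfl, rfl⟩ | ⟨rfl, rfl⟩
    · exact h'
    · exact LE_symm X h'
  · exact fun h => ⟨v, w, rfl, h⟩

section sums

variable [Fintype W]

theorem fib_card (e : Sym2 W) : (univ.filter fun p : W × W => s(p.1, p.2) = e).card ≤ 2 := by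
  obtain ⟨v, w, rfl⟩ : ∃ v w, e = s(v, w) := by
    induction e using Sym2.ind with
    | _ v w => exact ⟨v, w, rfl⟩
  have h : (univ.filter fun p : W × W => s(p.1, p.2) = s(v, w)) ⊆ {(v, w), (w, v)} := by
    rintro ⟨a, b⟩ hp
    rcases Sym2.eq_iff.1 (mem_filter.1 hp).2 with ⟨h1, h2⟩ | ⟨h1, h2⟩
    · simp only at h1 h2
      rw [h1, h2]
      simp
    · simp only at h1 h2
      rw [h1, h2]
      simp
  exact (card_le_card h).trans card_le_two

/-- coefficient of an edge -/
noncomputable def ce (X : Dat W B) (A : W → W → ℝ) (e : Sym2 W) : ℝ :=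
  ∑ p ∈ univ.filter (fun p : W × W => s(p.1, p.2) = e ∧ X.LE p.1 p.2), A p.1 p.2

/-- sums over ordered pairs as sums over edges -/
theorem sum_ed (X : Dat W B) (A : W → W → ℝ) (F : Sym2 W → ℝ) :
    ∑ v, ∑ w, (if X.LE v w then A v w * F s(v, w) else 0) = ∑ e, ce X A e * F e := by
  have h1 : ∑ v, ∑ w, (if X.LE v w then A v w * F s(v, w) else 0) =
      ∑ p : W × W, (if X.LE p.1 p.2 then A p.1 p.2 * F s(p.1, p.2) else 0) :=
    (Fintype.sum_prod_type (fun p : W × W =>
      if X.LE p.1 p.2 then A p.1 p.2 * F s(p.1, p.2) else 0)).symm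
  rw [h1, ← sum_fiberwise univ (fun p : W × W => s(p.1, p.2))]
  refine sum_congr rfl fun e _ => ?_
  unfold ce
  rw [sum_mul, ← sum_filter, filter_filter]
  refine sum_congr rfl fun p hp => ?_
  rw [(mem_filter.1 hp).2.1]

theorem fib_LE (X : Dat W B) {v w : W} (h : X.LE v w) (A : W → W → ℝ) :
    ce X A s(v, w) = A v w + A w v := by
  have h1 : (univ.filter fun p : W × W => s(p.1, p.2) = s(v, w) ∧ X.LE p.1 p.2) =
      {(v, w), (w, v)} := by
    ext p
    obtain ⟨a, b⟩ := p
    simp only [mem_filter, mem_univ, true_and, mem_insert, mem_singleton, Prod.mk.injEq]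
    constructor
    · rintro ⟨h2, _⟩
      exact Sym2.eq_iff.1 h2
    · rintro (⟨rfl, rfl⟩ | ⟨rfl, rfl⟩)
      · exact ⟨rfl, h⟩
      · exact ⟨Sym2.eq_swap, LE_symm X h⟩
  unfold ce
  rw [h1, sum_pair]
  intro h2
  exact LE_ne X h (Prod.ext_iff.1 h2).1

theorem ce_not (X : Dat W B) (A : W → W → ℝ) {e : Sym2 W} (h : ¬ lt X e) : ce X A e = 0 := by
  unfold ce
  rw [filter_false_of_mem, sum_empty]
  rintro p _ ⟨h1, h2⟩
  exact h ⟨p.1, p.2, h1.symm, h2⟩

theorem sum_H (X : Dat W B) (A : W → W → ℝ) (H F : Sym2 W → ℝ)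
    (hH : ∀ v w, X.LE v w → A v w + A w v = H s(v, w)) :
    ∑ v, ∑ w, (if X.LE v w then A v w * F s(v, w) else 0) =
      ∑ e, if lt X e then H e * F e else 0 := by
  rw [sum_ed]
  refine sum_congr rfl fun e _ => ?_
  split_ifs with h
  · obtain ⟨v, w, rfl, h'⟩ := h
    rw [fib_LE X h', hH v w h']
  · rw [ce_not X A h, zero_mul]

/-- the norm of the coefficients -/
theorem norm_pair (X : Dat W B) (A : W → W → ℝ) :
    ∑ e : Sym2 W, ce X A e ^ 2 ≤ 2 * ∑ v, ∑ w, A v w ^ 2 := by
  have h1 : ∑ v, ∑ w, A v w ^ 2 = ∑ p : W × W, A p.1 p.2 ^ 2 :=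
    (Fintype.sum_prod_type (fun p : W × W => A p.1 p.2 ^ 2)).symm
  rw [h1, ← sum_fiberwise univ (fun p : W × W => s(p.1, p.2)), mul_sum]
  refine sum_le_sum fun e _ => ?_
  unfold ce
  refine (sq_sum_le_card_mul_sum_sq).trans ?_
  have h2 : (univ.filter fun p : W × W => s(p.1, p.2) = e ∧ X.LE p.1 p.2) ⊆
      univ.filter fun p : W × W => s(p.1, p.2) = e := by
    intro p hp
    exact mem_filter.2 ⟨mem_univ _, (mem_filter.1 hp).2.1⟩
  have h3 : ((univ.filter fun p : W × W => s(p.1, p.2) = e ∧ X.LE p.1 p.2).card : ℝ) ≤ 2 := by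
    exact_mod_cast (card_le_card h2).trans (fib_card e)
  exact mul_le_mul h3 (sum_le_sum_of_subset_of_nonneg h2 fun _ _ _ => sq_nonneg _)
    (sum_nonneg fun _ _ => sq_nonneg _) (by norm_num)

end sums

/-! ## sides -/

/-- names of the sides: `x` (outer light edges of `x`), `(x, (b, i))`, `{(b, i), (b', i')}`, edge -/
abbrev SI (W B : Type u) : Type u :=
  W ⊕ ((W × (B × Fin 2)) ⊕ (Sym2 (B × Fin 2) ⊕ Sym2 W))

/-- the side of an edge -/
noncomputable def sd (X : Dat W B) (pt : W → Fin 2) (v w : W) : SI W B :=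
  if X.LE v w then
    match X.bl v, X.bl w with
    | none, none => Sum.inr (Sum.inr (Sum.inr s(v, w)))
    | none, some b => if X.cq v = X.cq w then Sum.inr (Sum.inl (v, (b, pt w))) else Sum.inl v
    | some b, none => if X.cq v = X.cq w then Sum.inr (Sum.inl (w, (b, pt v))) else Sum.inl w
    | some b, some b' => if X.cb b = X.cb b' then
        Sum.inr (Sum.inr (Sum.inl s((b, pt v), (b', pt w)))) else Sum.inr (Sum.inr (Sum.inr s(v, w)))
  else Sum.inr (Sum.inr (Sum.inr s(v, w)))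

theorem sd_symm (X : Dat W B) (pt : W → Fin 2) (v w : W) : sd X pt v w = sd X pt w v := by
  unfold sd
  by_cases h : X.LE v w
  · rw [if_pos h, if_pos (LE_symm X h)]
    cases hv : X.bl v with
    | none =>
      cases hw : X.bl w with
      | none => simp only [Sym2.eq_swap]
      | some b => simp only [eq_comm]
    | some b =>
      cases hw : X.bl w with
      | none => simp only [eq_comm]
      | some b' =>
        simp only
        by_cases hc : X.cb b = X.cb b'
        · rw [if_pos hc, if_pos hc.symm, Sym2.eq_swap]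
        · rw [if_neg hc, if_neg (fun h => hc h.symm), Sym2.eq_swap]
  · rw [if_neg h, if_neg (fun h' => h (LE_symm X h')), Sym2.eq_swap]

/-- the side of an edge -/
noncomputable def side (X : Dat W B) (pt : W → Fin 2) : Sym2 W → SI W B :=
  Sym2.lift ⟨sd X pt, sd_symm X pt⟩

theorem side_mk (X : Dat W B) (pt : W → Fin 2) (v w : W) : side X pt s(v, w) = sd X pt v w := rfl

/-- an edge of `x ∈ O` to a block -/
theorem sd_O (X : Dat W B) (pt : W → Fin 2) {v w : W} {b : B} (h : X.LE v w) (hv : X.bl v = none)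
    (hw : X.bl w = some b) : sd X pt v w =
      if X.cq v = X.cq w then Sum.inr (Sum.inl (v, (b, pt w))) else Sum.inl v := by
  unfold sd
  rw [if_pos h, hv, hw]

theorem sd_L (X : Dat W B) (pt : W → Fin 2) {v w : W} {b b' : B} (h : X.LE v w)
    (hv : X.bl v = some b) (hw : X.bl w = some b') : sd X pt v w = if X.cb b = X.cb b' then
        Sum.inr (Sum.inr (Sum.inl s((b, pt v), (b', pt w)))) else
        Sum.inr (Sum.inr (Sum.inr s(v, w))) := by
  unfold sd
  rw [if_pos h, hv, hw]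

theorem LE_cases (X : Dat W B) {v w : W} (h : X.LE v w) :
    (X.bl v = none ∧ ∃ b, X.bl w = some b) ∨ (X.bl w = none ∧ ∃ b, X.bl v = some b) ∨
      ∃ b b', X.bl v = some b ∧ X.bl w = some b' := by
  cases hv : X.bl v with
  | none =>
    cases hw : X.bl w with
    | none => exact absurd ⟨hv, hw⟩ h.2
    | some b => exact Or.inl ⟨rfl, b, rfl⟩
  | some b =>
    cases hw : X.bl w with
    | none => exact Or.inr (Or.inl ⟨rfl, b, rfl⟩)
    | some b' => exact Or.inr (Or.inr ⟨b, b', rfl, rfl⟩)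

end Pool.Agent.Work.MP_db9399_ts.helper55
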