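import Pool.Agent.Work.MP_db9399_ts_helper55.EdgeA

/-!
# MP_db9399, ts block RND, part B: sums over sides (helper55)
-/

set_option autoImplicit false
set_option linter.unusedSectionVars false

namespace Pool.Agent.Work.MP_db9399_ts.helper55

open Finset Classical
open Pool.Agent.Work.MP_db9399_all (nb)
open Pool.Agent.Work.MP_db9399_clj.helper75 (OO blk nB eE)

universe u

variable {W B : Type u} [Fintype W] [Fintype B]

theorem side_sum (X : Dat W B) (pt : W → Fin 2) (S : Finset (SI W B)) (G : Sym2 W → ℝ) :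
    ∑ e, (if side X pt e ∈ S then G e else 0) = ∑ y ∈ S, ∑ e with side X pt e = y, G e := by
  have h0 : ∑ e, (if side X pt e ∈ S then G e else 0) = ∑ e with side X pt e ∈ S, G e := by
    rw [Finset.sum_filter]
    refine sum_congr rfl fun e _ => ?_
    by_cases h : side X pt e ∈ S
    · rw [if_pos h, if_pos h]
    · rw [if_neg h, if_neg h]
  rw [h0, ← sum_fiberwise_of_maps_to (s := univ.filter fun e => side X pt e ∈ S) (t := S)
    (g := side X pt) (fun e he => (mem_filter.1 he).2)]
  refine sum_congr rfl fun y hy => ?_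
  rw [filter_filter]
  refine sum_congr (filter_congr fun e _ => ?_) fun _ _ => rfl
  constructor
  · exact fun h => h.2
  · exact fun h => ⟨by rw [h]; exact hy, h⟩

/-- the sides at the vertex `x` of `O` -/
noncomputable def sO (X : Dat W B) (x : W) : Finset (SI W B) :=
  insert (Sum.inl x) ((univ.filter fun y : B × Fin 2 => X.cq x = some (X.cb y.1)).image
    fun y => Sum.inr (Sum.inl (x, y)))

theorem inl_sO (X : Dat W B) (x v : W) : (Sum.inl v : SI W B) ∈ sO X x ↔ v = x := by
  unfold sO
  simp

theorem inr_sO (X : Dat W B) (x v : W) (y : B × Fin 2) :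
    (Sum.inr (Sum.inl (v, y)) : SI W B) ∈ sO X x ↔ v = x ∧ X.cq x = some (X.cb y.1) := by
  unfold sO
  rw [mem_insert, mem_image]
  constructor
  · rintro (h | ⟨z, hz, h⟩)
    · exact absurd h (by simp)
    · simp only [Sum.inr.injEq, Sum.inl.injEq, Prod.mk.injEq] at h
      rw [← h.2]
      exact ⟨h.1.symm, (mem_filter.1 hz).2⟩
  · rintro ⟨rfl, h⟩
    exact Or.inr ⟨y, mem_filter.2 ⟨mem_univ _, h⟩, rfl⟩

theorem inrr_sO (X : Dat W B) (x : W) (y : Sym2 (B × Fin 2) ⊕ Sym2 W) :
    (Sum.inr (Sum.inr y) : SI W B) ∉ sO X x := by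
  unfold sO
  rw [mem_insert, mem_image]
  rintro (h | ⟨z, _, h⟩)
  · exact absurd h (by simp)
  · simp at h

theorem cl_card {X : Dat W B} {M : ℕ} {C ζ θ c : ℝ} (hE : Env X M C ζ θ c) (q : Option ℕ) :
    (univ.filter fun y : B × Fin 2 => q = some (X.cb y.1)).card ≤ 2 * M := by
  have h1 : (univ.filter fun b : B => q = some (X.cb b)).card ≤ M := by
    have h2 : ((univ.filter fun b : B => q = some (X.cb b)).image X.ix) ⊆ range M := by
      intro i hi
      obtain ⟨b, _, rfl⟩ := mem_image.1 hi
      exact mem_range.2 (hE.ixM b)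
    have h3 := card_le_card h2
    rw [card_range, card_image_of_injOn] at h3
    · exact h3
    · intro b hb b' hb' h
      have h4 := (mem_filter.1 hb).2
      have h5 := (mem_filter.1 hb').2
      rw [h4] at h5
      exact hE.ixi b b' (Option.some.inj h5) h
  have h2 : (univ.filter fun y : B × Fin 2 => q = some (X.cb y.1)) =
      (univ.filter fun b : B => q = some (X.cb b)) ×ˢ (univ : Finset (Fin 2)) := by
    ext ⟨b, i⟩
    simp
  rw [h2, card_product, card_univ, Fintype.card_fin]
  omega

theorem sO_card {X : Dat W B} {M : ℕ} {C ζ θ c : ℝ} (hE : Env X M C ζ θ c) (x : W) :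
    (sO X x).card ≤ 2 * M + 1 := by
  unfold sO
  refine (card_insert_le _ _).trans ?_
  have := (card_image_le (s := univ.filter fun y : B × Fin 2 => X.cq x = some (X.cb y.1))
    (f := fun y => (Sum.inr (Sum.inl (x, y)) : SI W B))).trans (cl_card hE (X.cq x))
  omega

theorem hub_H {X : Dat W B} {M : ℕ} {C ζ θ c : ℝ} (hE : Env X M C ζ θ c) (pt : W → Fin 2) {x : W}
    (hx : X.bl x = none) {v w : W} (h : X.LE v w) :
    (if v = x then (1 : ℝ) else 0) + (if w = x then 1 else 0) =
      if side X pt s(v, w) ∈ sO X x then 1 else 0 := by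
  have key : ∀ {v w : W} {b : B}, X.LE v w → X.bl v = none → X.bl w = some b →
      (if v = x then (1 : ℝ) else 0) + (if w = x then 1 else 0) =
      if side X pt s(v, w) ∈ sO X x then 1 else 0 := by
    intro v w b h hv hw
    have hwx : w ≠ x := fun h' => by rw [h', hx] at hw; exact absurd hw (by simp)
    rw [if_neg hwx, add_zero, side_mk, sd_O X pt h hv hw]
    by_cases hc : X.cq v = X.cq w
    · rw [if_pos hc]
      refine if_congr ?_ rfl rfl
      rw [inr_sO]
      constructor
      · rintro rfl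
        exact ⟨rfl, by rw [hc]; exact hE.cl w b hw⟩
      · exact fun h => h.1
    · rw [if_neg hc]
      refine if_congr ?_ rfl rfl
      rw [inl_sO]
  rcases LE_cases X h with ⟨hv, b, hw⟩ | ⟨hw, b, hv⟩ | ⟨b, b', hv, hw⟩
  · exact key h hv hw
  · rw [add_comm, Sym2.eq_swap]
    exact key (LE_symm X h) hw hv
  · have hvx : v ≠ x := fun h' => by rw [h', hx] at hv; exact absurd hv (by simp)
    have hwx : w ≠ x := fun h' => by rw [h', hx] at hw; exact absurd hw (by simp)
    rw [if_neg hvx, if_neg hwx, side_mk, sd_L X pt h hv hw]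
    split_ifs with h1 h2 h3
    · exact absurd h2 (inrr_sO X x _)
    · simp
    · exact absurd h3 (inrr_sO X x _)
    · simp

/-- the light edges of a vertex of `O` -/
theorem hub_sum {X : Dat W B} {M : ℕ} {C ζ θ c : ℝ} (hE : Env X M C ζ θ c) (pt : W → Fin 2) {x : W}
    (hx : X.bl x = none) (F : Sym2 W → ℝ) :
    ∑ v, (if X.LE x v then F s(x, v) else 0) =
      ∑ y ∈ sO X x, ∑ e with side X pt e = y, (if lt X e then F e else 0) := by
  have h1 := sum_H X (fun v _ => if v = x then (1 : ℝ) else 0)
    (fun e => if side X pt e ∈ sO X x then 1 else 0) F (fun v w h => hub_H hE pt hx h)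
  have h2 : ∑ v, ∑ w, (if X.LE v w then (fun v _ => if v = x then (1 : ℝ) else 0) v w *
      F s(v, w) else 0) = ∑ v, (if X.LE x v then F s(x, v) else 0) := by
    rw [sum_eq_single x]
    · refine sum_congr rfl fun w _ => ?_
      simp
    · intro v _ hv
      refine sum_eq_zero fun w _ => ?_
      simp [hv]
    · exact fun h => absurd (mem_univ x) h
  rw [← h2, h1, ← side_sum]
  refine sum_congr rfl fun e _ => ?_
  by_cases h3 : lt X e
  · rw [if_pos h3, if_pos h3]
    split_ifs <;> simp
  · rw [if_neg h3, if_neg h3]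
    simp

theorem hub_bound {X : Dat W B} {M : ℕ} {C ζ θ c : ℝ} (hE : Env X M C ζ θ c) (pt : W → Fin 2)
    {x : W} (hx : X.bl x = none) {F : Sym2 W → ℝ} {K : ℝ} (hK : 0 ≤ K)
    (hF : ∀ y, |∑ e with side X pt e = y, (if lt X e then F e else 0)| ≤ K) :
    |∑ v, (if X.LE x v then F s(x, v) else 0)| ≤ (2 * M + 1) * K := by
  rw [hub_sum hE pt hx]
  refine (abs_sum_le_sum_abs _ _).trans ((sum_le_sum fun y _ => hF y).trans ?_)
  rw [sum_const, nsmul_eq_mul]
  have h1 : ((sO X x).card : ℝ) ≤ 2 * M + 1 := by exact_mod_cast sO_card hE x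
  exact mul_le_mul_of_nonneg_right h1 hK

/-- coefficient of a test of the degrees of the vertices of `O` -/
noncomputable def cβ (X : Dat W B) (β : W → ℝ) : SI W B → ℝ
  | Sum.inl x => β x
  | Sum.inr (Sum.inl (x, y)) => if X.cq x = some (X.cb y.1) then β x else 0
  | Sum.inr (Sum.inr _) => 0

theorem beta_sum {X : Dat W B} {M : ℕ} {C ζ θ c : ℝ} (hE : Env X M C ζ θ c) (pt : W → Fin 2)
    {β : W → ℝ} (hβ : ∀ x, β x ≠ 0 → X.bl x = none) (F : Sym2 W → ℝ) :
    ∑ x, β x * ∑ v, (if X.LE x v then F s(x, v) else 0) =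
      ∑ e, if lt X e then cβ X β (side X pt e) * F e else 0 := by
  rw [← sum_H X (fun v _ => β v) (fun e => cβ X β (side X pt e)) F]
  · refine sum_congr rfl fun x _ => ?_
    rw [mul_sum]
    refine sum_congr rfl fun v _ => ?_
    rw [mul_ite, mul_zero]
  · intro v w h
    have hz : ∀ {v : W} {b : B}, X.bl v = some b → β v = 0 := by
      intro v b hv
      by_contra hne
      rw [hβ v hne] at hv
      exact absurd hv (by simp)
    have key : ∀ {v w : W} {b : B}, X.LE v w → X.bl v = none → X.bl w = some b →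
        β v + β w = cβ X β (side X pt s(v, w)) := by
      intro v w b h hv hw
      rw [hz hw, add_zero, side_mk, sd_O X pt h hv hw]
      by_cases hc : X.cq v = X.cq w
      · rw [if_pos hc]
        show β v = if X.cq v = some (X.cb b) then β v else 0
        rw [if_pos (by rw [hc]; exact hE.cl w b hw)]
      · rw [if_neg hc]
        rfl
    rcases LE_cases X h with ⟨hv, b, hw⟩ | ⟨hw, b, hv⟩ | ⟨b, b', hv, hw⟩
    · exact key h hv hw
    · rw [add_comm, Sym2.eq_swap]
      exact key (LE_symm X h) hw hv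
    · show β v + β w = cβ X β (side X pt s(v, w))
      rw [hz hv, hz hw, side_mk, sd_L X pt h hv hw, add_zero]
      split_ifs <;> rfl

/-- `v` is in the part `π` -/
def inp (X : Dat W B) (pt : W → Fin 2) (π : B × Fin 2) (v : W) : Prop :=
  X.bl v = some π.1 ∧ pt v = π.2

/-- the hubs of the cluster -/
theorem row_hub {X : Dat W B} {M : ℕ} {C ζ θ c : ℝ} (hE : Env X M C ζ θ c) (pt : W → Fin 2)
    (π : B × Fin 2) {F : Sym2 W → ℝ} {K : ℝ}
    (hF : ∀ y, |∑ e with side X pt e = y, (if lt X e then F e else 0)| ≤ K) :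
    |∑ v, ∑ w, (if X.LE v w then (if inp X pt π v ∧ X.bl w = none ∧ X.cq w = some (X.cb π.1)
      then (1 : ℝ) else 0) * F s(v, w) else 0)| ≤
      ((OO X.bl).filter fun x => X.cq x = some (X.cb π.1)).card * K := by
  set S : Finset (SI W B) := ((OO X.bl).filter fun x => X.cq x = some (X.cb π.1)).image
    fun x => Sum.inr (Sum.inl (x, π)) with hS
  have hmem : ∀ (x : W) (y : B × Fin 2), (Sum.inr (Sum.inl (x, y)) : SI W B) ∈ S ↔
      y = π ∧ X.bl x = none ∧ X.cq x = some (X.cb π.1) := by
    intro x y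
    rw [hS, mem_image]
    constructor
    · rintro ⟨x', hx', h⟩
      simp only [Sum.inr.injEq, Sum.inl.injEq, Prod.mk.injEq] at h
      rw [← h.1]
      refine ⟨h.2.symm, ?_, (mem_filter.1 hx').2⟩
      have := (mem_filter.1 hx').1
      unfold OO at this
      exact (mem_filter.1 this).2
    · rintro ⟨rfl, h1, h2⟩
      refine ⟨x, mem_filter.2 ⟨?_, h2⟩, rfl⟩
      unfold OO
      exact mem_filter.2 ⟨mem_univ _, h1⟩
  have hne1 : ∀ x : W, (Sum.inl x : SI W B) ∉ S := by
    intro x h
    obtain ⟨x', _, h⟩ := mem_image.1 h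
    exact absurd h (by simp)
  have hne2 : ∀ y, (Sum.inr (Sum.inr y) : SI W B) ∉ S := by
    intro x h
    obtain ⟨x', _, h⟩ := mem_image.1 h
    simp at h
  have key : ∀ {v w : W} {b : B}, X.LE v w → X.bl v = none → X.bl w = some b →
      (if inp X pt π v ∧ X.bl w = none ∧ X.cq w = some (X.cb π.1) then (1 : ℝ) else 0) +
      (if inp X pt π w ∧ X.bl v = none ∧ X.cq v = some (X.cb π.1) then (1 : ℝ) else 0) =
      if side X pt s(v, w) ∈ S then 1 else 0 := by
    intro v w b h hv hw
    rw [if_neg (fun h' => by rw [hw] at h'; exact absurd h'.2.1 (by simp)), zero_add, side_mk,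
      sd_O X pt h hv hw]
    by_cases hc : X.cq v = X.cq w
    · rw [if_pos hc]
      refine if_congr ?_ rfl rfl
      rw [hmem]
      constructor
      · rintro ⟨⟨h1, h2⟩, h3, h4⟩
        refine ⟨?_, h3, h4⟩
        rw [hw] at h1
        exact Prod.ext (Option.some.inj h1) h2
      · rintro ⟨h1, h2, h3⟩
        refine ⟨⟨?_, ?_⟩, h2, h3⟩
        · rw [← h1]
          exact hw
        · rw [← h1]
    · rw [if_neg hc, if_neg (hne1 v), if_neg]
      rintro ⟨⟨h1, _⟩, _, h3⟩
      apply hc
      rw [h3]
      exact (hE.cl w π.1 h1).symm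
  rw [sum_H X _ (fun e => if side X pt e ∈ S then 1 else 0) F]
  · have h1 : ∑ e, (if lt X e then (if side X pt e ∈ S then (1 : ℝ) else 0) * F e else 0) =
        ∑ y ∈ S, ∑ e with side X pt e = y, (if lt X e then F e else 0) := by
      rw [← side_sum]
      refine sum_congr rfl fun e _ => ?_
      by_cases h3 : lt X e
      · rw [if_pos h3, if_pos h3]
        split_ifs <;> simp
      · rw [if_neg h3, if_neg h3]
        simp
    rw [h1]
    have hK : 0 ≤ K := (abs_nonneg _).trans (hF (Sum.inr (Sum.inr (Sum.inl s(π, π)))))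
    refine (abs_sum_le_sum_abs _ _).trans ((sum_le_sum fun y _ => hF y).trans ?_)
    rw [sum_const, nsmul_eq_mul]
    refine mul_le_mul_of_nonneg_right ?_ hK
    exact_mod_cast card_image_le
  · intro v w h
    rcases LE_cases X h with ⟨hv, b, hw⟩ | ⟨hw, b, hv⟩ | ⟨b, b', hv, hw⟩
    · exact key h hv hw
    · rw [add_comm, Sym2.eq_swap]
      exact key (LE_symm X h) hw hv
    · rw [if_neg (fun h' => by rw [hw] at h'; exact absurd h'.2.1 (by simp)),
        if_neg (fun h' => by rw [hv] at h'; exact absurd h'.2.1 (by simp)), side_mk,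
        sd_L X pt h hv hw]
      split_ifs with h1 h2 h3
      · exact absurd h2 (hne2 _)
      · simp
      · exact absurd h3 (hne2 _)
      · simp

/-- pairs of parts -/
theorem row_pair {X : Dat W B} (pt : W → Fin 2)
    {π π' : B × Fin 2} (hc : X.cb π.1 = X.cb π'.1) {F : Sym2 W → ℝ} {K : ℝ}
    (hF : ∀ y, |∑ e with side X pt e = y, (if lt X e then F e else 0)| ≤ K) :
    |∑ v, ∑ w, (if X.LE v w then (if inp X pt π v ∧ inp X pt π' w
      then (1 : ℝ) else 0) * F s(v, w) else 0)| ≤ 2 * K := by
  have hK : 0 ≤ K := (abs_nonneg _).trans (hF (Sum.inr (Sum.inr (Sum.inl s(π, π)))))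
  set κ : ℝ := if π = π' then 2 else 1 with hκ
  have hκ2 : 0 ≤ κ ∧ κ ≤ 2 := by
    rw [hκ]
    split_ifs <;> norm_num
  rw [sum_H X _ (fun e => if side X pt e = Sum.inr (Sum.inr (Sum.inl s(π, π'))) then κ else 0) F]
  · have h1 : ∑ e, (if lt X e then (if side X pt e = Sum.inr (Sum.inr (Sum.inl s(π, π')))
        then κ else 0) * F e else 0) = κ * ∑ e with side X pt e =
          Sum.inr (Sum.inr (Sum.inl s(π, π'))), (if lt X e then F e else 0) := by
      rw [mul_sum, sum_filter]
      refine sum_congr rfl fun e _ => ?_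
      by_cases h3 : lt X e
      · rw [if_pos h3, if_pos h3]
        split_ifs <;> simp
      · rw [if_neg h3, if_neg h3]
        simp
    rw [h1, abs_mul, abs_of_nonneg hκ2.1]
    exact mul_le_mul hκ2.2 (hF _) (abs_nonneg _) (by norm_num)
  · intro v w h
    have hO : ∀ {v w : W} {b : B}, X.LE v w → X.bl v = none → X.bl w = some b →
        (if inp X pt π v ∧ inp X pt π' w then (1 : ℝ) else 0) +
        (if inp X pt π w ∧ inp X pt π' v then (1 : ℝ) else 0) =
        if side X pt s(v, w) = Sum.inr (Sum.inr (Sum.inl s(π, π'))) then κ else 0 := by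
      intro v w b h hv hw
      have h1 : ∀ π, ¬ inp X pt π v := by
        intro π h'
        rw [inp, hv] at h'
        exact absurd h'.1 (by simp)
      rw [if_neg (fun h' => h1 _ h'.1), if_neg (fun h' => h1 _ h'.2), side_mk, sd_O X pt h hv hw]
      by_cases hc : X.cq v = X.cq w
      · rw [if_pos hc, if_neg (by simp)]
        simp
      · rw [if_neg hc, if_neg (by simp)]
        simp
    rcases LE_cases X h with ⟨hv, b, hw⟩ | ⟨hw, b, hv⟩ | ⟨b, b', hv, hw⟩
    · exact hO h hv hw
    · rw [add_comm, Sym2.eq_swap]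
      exact hO (LE_symm X h) hw hv
    · rw [side_mk, sd_L X pt h hv hw]
      have i1 : ∀ π : B × Fin 2, inp X pt π v ↔ (b, pt v) = π := by
        intro π
        unfold inp
        rw [hv]
        constructor
        · rintro ⟨h1, h2⟩
          exact Prod.ext (Option.some.inj h1) h2
        · rintro rfl
          exact ⟨rfl, rfl⟩
      have i2 : ∀ π : B × Fin 2, inp X pt π w ↔ (b', pt w) = π := by
        intro π
        unfold inp
        rw [hw]
        constructor
        · rintro ⟨h1, h2⟩
          exact Prod.ext (Option.some.inj h1) h2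
        · rintro rfl
          exact ⟨rfl, rfl⟩
      simp only [i1, i2]
      by_cases hcb : X.cb b = X.cb b'
      · rw [if_pos hcb]
        have h2 : ((Sum.inr (Sum.inr (Sum.inl s((b, pt v), (b', pt w)))) : SI W B) =
            Sum.inr (Sum.inr (Sum.inl s(π, π')))) ↔
            (((b, pt v) = π ∧ (b', pt w) = π') ∨ ((b, pt v) = π' ∧ (b', pt w) = π)) := by
          simp only [Sum.inr.injEq, Sum.inl.injEq]
          exact Sym2.eq_iff
        rw [if_congr h2 rfl rfl]
        by_cases e1 : (b, pt v) = π ∧ (b', pt w) = π'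
        · rw [if_pos e1, if_pos (Or.inl e1)]
          by_cases e2 : π = π'
          · rw [hκ, if_pos e2, if_pos]
            · norm_num
            · rw [e1.1, e1.2]
              exact ⟨e2.symm, e2⟩
          · rw [hκ, if_neg e2, if_neg]
            · norm_num
            · rw [e1.1, e1.2]
              exact fun h => e2 h.2
        · rw [if_neg e1]
          by_cases e3 : (b', pt w) = π ∧ (b, pt v) = π'
          · rw [if_pos e3, if_pos (Or.inr ⟨e3.2, e3.1⟩)]
            by_cases e2 : π = π'
            · exfalso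
              apply e1
              rw [e3.1, e3.2]
              exact ⟨e2.symm, e2⟩
            · rw [hκ, if_neg e2]
              norm_num
          · rw [if_neg e3, if_neg]
            · norm_num
            · rintro (h | h)
              · exact e1 h
              · exact e3 ⟨h.2, h.1⟩
      · have e1 : ¬ ((b, pt v) = π ∧ (b', pt w) = π') := by
          rintro ⟨h1, h2⟩
          apply hcb
          have h3 : X.cb π.1 = X.cb b := congrArg (fun z : B × Fin 2 => X.cb z.1) h1.symm
          have h4 : X.cb π'.1 = X.cb b' := congrArg (fun z : B × Fin 2 => X.cb z.1) h2.symm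
          rw [← h3, ← h4, hc]
        have e2 : ¬ ((b', pt w) = π ∧ (b, pt v) = π') := by
          rintro ⟨h1, h2⟩
          apply hcb
          have h3 : X.cb π.1 = X.cb b' := congrArg (fun z : B × Fin 2 => X.cb z.1) h1.symm
          have h4 : X.cb π'.1 = X.cb b := congrArg (fun z : B × Fin 2 => X.cb z.1) h2.symm
          rw [← h3, ← h4, hc]
        have e3 : ¬ ((Sum.inr (Sum.inr (Sum.inr s(v, w))) : SI W B) =
            Sum.inr (Sum.inr (Sum.inl s(π, π')))) := by simp
        rw [if_neg hcb, if_neg e1, if_neg e2, if_neg e3, add_zero]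

/-- coefficients of the outer edges of a part -/
noncomputable def ro (X : Dat W B) (pt : W → Fin 2) (π : B × Fin 2) (v w : W) : ℝ :=
  if inp X pt π v ∧ X.LE v w ∧ X.cq w ≠ X.cq v then 1 else 0

/-- the rows -/
theorem row_bound {X : Dat W B} {M : ℕ} {C ζ θ c : ℝ} (hE : Env X M C ζ θ c) (pt : W → Fin 2)
    (π : B × Fin 2) {F : Sym2 W → ℝ} {K T : ℝ}
    (hF : ∀ y, |∑ e with side X pt e = y, (if lt X e then F e else 0)| ≤ K)
    (hT : |∑ v, ∑ w, (if X.LE v w then ro X pt π v w * F s(v, w) else 0)| ≤ T) :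
    |∑ v ∈ (blk X.bl π.1).filter (fun v => pt v = π.2), ∑ w, (if X.LE v w then F s(v, w) else 0)| ≤
      T + (θ * X.d + 4 * M) * K := by
  have hK : 0 ≤ K := (abs_nonneg _).trans (hF (Sum.inr (Sum.inr (Sum.inl s(π, π)))))
  set P : Finset (B × Fin 2) := univ.filter fun y : B × Fin 2 => some (X.cb π.1) = some (X.cb y.1)
    with hP
  have hpt : ∀ v w, X.LE v w → inp X pt π v → (1 : ℝ) = ro X pt π v w +
      ((if inp X pt π v ∧ X.bl w = none ∧ X.cq w = some (X.cb π.1) then (1 : ℝ) else 0) +
      ∑ π' ∈ P, if inp X pt π v ∧ inp X pt π' w then (1 : ℝ) else 0) := by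
    intro v w h hv
    have hcv : X.cq v = some (X.cb π.1) := hE.cl v π.1 hv.1
    by_cases hc : X.cq w = X.cq v
    · have h1 : ro X pt π v w = 0 := by
        unfold ro
        rw [if_neg (fun h' => h'.2.2 hc)]
      rw [h1, zero_add]
      cases hw : X.bl w with
      | none =>
        rw [if_pos ⟨hv, rfl, hc.trans hcv⟩, sum_eq_zero, add_zero]
        intro π' _
        rw [if_neg]
        rintro ⟨_, h2, _⟩
        rw [hw] at h2
        exact absurd h2 (by simp)
      | some b =>
        rw [if_neg (fun h' => absurd h'.2.1 (by simp)), zero_add, sum_eq_single (b, pt w)]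
        · rw [if_pos ⟨hv, hw, rfl⟩]
        · intro π' _ hne
          rw [if_neg]
          rintro ⟨_, h2, h3⟩
          rw [hw] at h2
          exact hne (Prod.ext (Option.some.inj h2) h3).symm
        · intro hne
          exfalso
          apply hne
          refine mem_filter.2 ⟨mem_univ _, ?_⟩
          rw [← hcv, ← hc]
          exact hE.cl w b hw
    · have h1 : ro X pt π v w = 1 := by
        unfold ro
        rw [if_pos ⟨hv, h, hc⟩]
      rw [h1, if_neg (fun h' => hc (h'.2.2.trans hcv.symm)), sum_eq_zero]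
      · norm_num
      · intro π' hπ'
        rw [if_neg]
        rintro ⟨_, h2, _⟩
        apply hc
        rw [hE.cl w π'.1 h2, hcv]
        exact (mem_filter.1 hπ').2.symm
  have h0 : ∑ v ∈ (blk X.bl π.1).filter (fun v => pt v = π.2),
      ∑ w, (if X.LE v w then F s(v, w) else 0) =
      ∑ v, ∑ w, (if X.LE v w then ro X pt π v w * F s(v, w) else 0) +
      (∑ v, ∑ w, (if X.LE v w then (if inp X pt π v ∧ X.bl w = none ∧ X.cq w = some (X.cb π.1)
        then (1 : ℝ) else 0) * F s(v, w) else 0) +
      ∑ π' ∈ P, ∑ v, ∑ w, (if X.LE v w then (if inp X pt π v ∧ inp X pt π' w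
        then (1 : ℝ) else 0) * F s(v, w) else 0)) := by
    have h1 : ∑ π' ∈ P, ∑ v, ∑ w, (if X.LE v w then (if inp X pt π v ∧ inp X pt π' w
        then (1 : ℝ) else 0) * F s(v, w) else 0) = ∑ v, ∑ w, (if X.LE v w then
        (∑ π' ∈ P, if inp X pt π v ∧ inp X pt π' w then (1 : ℝ) else 0) * F s(v, w) else 0) := by
      rw [sum_comm]
      refine sum_congr rfl fun v _ => ?_
      rw [sum_comm]
      refine sum_congr rfl fun w _ => ?_
      by_cases h : X.LE v w
      · simp only [if_pos h]
        rw [sum_mul]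
      · simp only [if_neg h, sum_const_zero]
    rw [h1, ← sum_add_distrib, ← sum_add_distrib]
    have h2 : (blk X.bl π.1).filter (fun v => pt v = π.2) = univ.filter fun v => inp X pt π v := by
      ext v
      unfold blk inp
      simp only [mem_filter, mem_univ, true_and]
    rw [h2, sum_filter]
    refine sum_congr rfl fun v _ => ?_
    rw [← sum_add_distrib, ← sum_add_distrib]
    by_cases hv : inp X pt π v
    · rw [if_pos hv]
      refine sum_congr rfl fun w _ => ?_
      by_cases h : X.LE v w
      · simp only [if_pos h]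
        rw [← add_mul, ← add_mul, ← hpt v w h hv, one_mul]
      · simp only [if_neg h]
        norm_num
    · rw [if_neg hv]
      symm
      refine sum_eq_zero fun w _ => ?_
      have e1 : ro X pt π v w = 0 := by
        unfold ro
        rw [if_neg (fun h' => hv h'.1)]
      have e2 : (if inp X pt π v ∧ X.bl w = none ∧ X.cq w = some (X.cb π.1)
        then (1 : ℝ) else 0) = 0 := if_neg fun h' => hv h'.1
      have e3 : (∑ π' ∈ P, if inp X pt π v ∧ inp X pt π' w then (1 : ℝ) else 0) = 0 :=
        sum_eq_zero fun π' _ => if_neg fun h' => hv h'.1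
      rw [e1, e2, e3]
      simp
  rw [h0]
  have h2 := row_hub hE pt π hF
  have h3 : |∑ π' ∈ P, ∑ v, ∑ w, (if X.LE v w then (if inp X pt π v ∧ inp X pt π' w
        then (1 : ℝ) else 0) * F s(v, w) else 0)| ≤ 2 * M * (2 * K) := by
    refine (abs_sum_le_sum_abs _ _).trans ((sum_le_sum fun π' hπ' => row_pair pt
      (Option.some.inj (mem_filter.1 hπ').2) hF).trans ?_)
    rw [sum_const, nsmul_eq_mul]
    have h4 : (P.card : ℝ) ≤ 2 * M := by exact_mod_cast cl_card hE (some (X.cb π.1))
    exact mul_le_mul_of_nonneg_right h4 (by linarith)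
  have h4 : (((OO X.bl).filter fun x => X.cq x = some (X.cb π.1)).card : ℝ) * K ≤ θ * X.d * K :=
    mul_le_mul_of_nonneg_right (hE.v0c _) hK
  refine (abs_add_le _ _).trans ?_
  have h5 := abs_add_le (∑ v, ∑ w, (if X.LE v w then (if inp X pt π v ∧ X.bl w = none ∧
    X.cq w = some (X.cb π.1) then (1 : ℝ) else 0) * F s(v, w) else 0))
    (∑ π' ∈ P, ∑ v, ∑ w, (if X.LE v w then (if inp X pt π v ∧ inp X pt π' w
        then (1 : ℝ) else 0) * F s(v, w) else 0))
  linarith

end Pool.Agent.Work.MP_db9399_ts.helper55
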