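import Pool.Agent.Work.MP_db9399_ts_helper55.Alg

/-!
# MP_db9399, PHASE, part B: one round of labels for all classes (helper55)
-/

set_option autoImplicit false
set_option linter.unusedSectionVars false

namespace Pool.Agent.Work.MP_db9399_ts.helper55

open Finset Classical

universe u

/-- labM with exact counts (LABE) -/
def LabX (m g : ℕ) (C0 : ℝ) : Prop :=
  ∀ {V ι κ : Type u} [Fintype V] [Fintype ι] [Fintype κ] (side : V → ι) (w : Fin m → V → ℝ)
    (W : Fin m → ι → ℝ) (π : ι → Fin g → ℝ) (a : κ → V → ℝ) (Sp Mu Λ : ℝ) (J : ℕ),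
    (∀ k i, 0 ≤ W k i) → (∀ k v, |w k v| ≤ W k (side v)) →
    (∀ i j, 0 ≤ π i j) → (∀ i, ∑ j, π i j = 1) → 0 ≤ Sp → 0 ≤ Mu → 0 ≤ Λ →
    (∀ q, ((univ.filter fun v => a q v ≠ 0).card : ℝ) ≤ Sp) →
    (∀ v, ((univ.filter fun q => a q v ≠ 0).card : ℝ) ≤ Mu) →
    C0 * Real.exp (-Λ) * (Sp + 1) * (Mu + 1) ≤ 1 →
    (∀ i, (univ.filter fun v => side v = i).card < 2 ^ J) →
    ∃ L : V → Fin g,
      (∀ i k j, |∑ v ∈ univ.filter (fun v => side v = i),
        ((if L v = j then 1 else 0) - π i j) * w k v| ≤ C0 * W k i) ∧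
      (∀ q j, |∑ v, a q v * ((if L v = j then 1 else 0) - π (side v) j)| ≤
        C0 * ((J + 1) * (Real.sqrt Λ + 1)) * Real.sqrt (∑ v, a q v ^ 2)) ∧
      ∀ i, (∀ j, ∃ r : ℕ, ((univ.filter fun v => side v = i).card : ℝ) * π i j = r) →
        ∀ j, ((univ.filter fun v => side v = i ∧ L v = j).card : ℝ) =
          ((univ.filter fun v => side v = i).card : ℝ) * π i j

/-! ## counting -/

section count

variable {α β : Type u}

/-- `#{y | ∃ x ∈ S, r x y} ≤ |S| M` -/
theorem card_rel_le (S : Finset α) (r : α → β → Prop) {T : Finset β} {M K : ℝ} (hM : 0 ≤ M)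
    (hS : (S.card : ℝ) ≤ K)
    (hr : ∀ x ∈ S, ∀ F : Finset β, (∀ y ∈ F, r x y) → (F.card : ℝ) ≤ M)
    (hT : ∀ y ∈ T, ∃ x ∈ S, r x y) : (T.card : ℝ) ≤ K * M := by
  have h1 : T ⊆ S.biUnion fun x => T.filter fun y => r x y := by
    intro y hy
    obtain ⟨x, hx, h⟩ := hT y hy
    exact mem_biUnion.2 ⟨x, hx, mem_filter.2 ⟨hy, h⟩⟩
  have h2 : (T.card : ℝ) ≤ ∑ x ∈ S, ((T.filter fun y => r x y).card : ℝ) := by
    have := (card_le_card h1).trans card_biUnion_le
    exact_mod_cast this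
  refine h2.trans ((sum_le_sum fun x hx => hr x hx _ fun y hy => (mem_filter.1 hy).2).trans ?_)
  rw [sum_const, nsmul_eq_mul]
  exact mul_le_mul_of_nonneg_right hS hM

theorem card_rel_le1 (S : Finset α) (r : α → β → Prop) {T : Finset β} {K : ℝ}
    (hS : (S.card : ℝ) ≤ K) (hr : ∀ x ∈ S, ∀ y y', r x y → r x y' → y = y')
    (hT : ∀ y ∈ T, ∃ x ∈ S, r x y) : (T.card : ℝ) ≤ K := by
  have h := card_rel_le S r zero_le_one hS (fun x hx F hF => by
    exact_mod_cast card_le_one.2 fun y hy y' hy' => hr x hx y y' (hF y hy) (hF y' hy')) hT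
  rwa [mul_one] at h

end count

variable {E V P R N ι τ : Type u}

/-- hypotheses of one round, all classes -/
structure RH [Fintype V] [Fintype N] (Y : Sys E V P R N) (par : R → Prop) (Gr : Finset V)
    (side : V → ι) (g : ℕ) (b w : Fin g → E → ℝ)
    (β c t wh wr D0 E0 MR ε DM : ℝ) : Prop where
  ok : Y.Ok par
  dis : ∀ n n', Y.mt n = some n' → Y.vx n ∈ Gr → Y.vx n' ∉ Gr
  b0 : ∀ k e, 0 ≤ b k e ∧ b k e ≤ β
  w0 : ∀ k e, |w k e - b k e| ≤ ε * b k e
  ε0 : 0 ≤ ε
  ε1 : ε ≤ 1 / 2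
  tv : ∀ v, ((univ.filter fun n => Y.vx n = v).card : ℝ) ≤ t
  ph : ∀ p v, ¬ Y.isR p → (univ.filter fun n => Y.pu n = some p ∧ Y.vx n = v).card ≤ 1
  wh : ∀ p q, ¬ Y.isR p →
    ((univ.filter fun n => Y.pu n = some p ∧ Y.row (Y.vx n) = some q).card : ℝ) ≤ wh
  wr : ∀ p q, Y.isR p →
    ((univ.filter fun n => Y.pu n = some p ∧ Y.row (Y.vx n) = some q).card : ℝ) ≤ wr
  Dh : ∀ n p, Y.pu n = some p → ¬ Y.isR p → D0 ≤ Y.D p
  Dr : ∀ n p, Y.pu n = some p → Y.isR p → E0 ≤ Y.D p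
  Er : ∀ q, ¬ par q → ((univ.filter fun n => ∃ n', Y.mt n = some n' ∧
    Y.row (Y.vx n') = some q).card : ℝ) ≤ E0
  mass : ∀ k p, c * Y.D p ≤ Y.B Gr (b k) p
  Mr : ∀ q, ((univ.filter fun n => Y.row (Y.vx n) = some q).card : ℝ) ≤ MR
  Mr0 : 0 ≤ MR
  DA : ∀ p, Y.D p ≤ DM
  DA0 : 0 ≤ DM
  rs : ∀ v v', side v = side v' → Y.row v = Y.row v'
  sr : ∀ v v' q, Y.row v = some q → Y.row v' = some q → side v = side v'

section tests

variable [Fintype V] [Fintype P] [Fintype R] [Fintype N]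

/-- support and multiplicity of a family of coefficients -/
def SM {κ V : Type u} [Fintype V] [Fintype κ] (a : κ → V → ℝ) (S M : ℝ) : Prop :=
  (∀ q, ((univ.filter fun v => a q v ≠ 0).card : ℝ) ≤ S) ∧
  (∀ v, ((univ.filter fun q => a q v ≠ 0).card : ℝ) ≤ M)

theorem sm_aN {Y : Sys E V P R N} {t DA : ℝ} (w : E → ℝ)
    (tv : ∀ v, ((univ.filter fun n => Y.vx n = v).card : ℝ) ≤ t) (hD : ∀ p, Y.D p ≤ DA) :
    SM (fun p v => Y.aN w p v) DA t := by
  refine ⟨fun p => ?_, fun v => ?_⟩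
  · refine card_rel_le1 (univ.filter fun n => Y.pu n = some p) (fun n v => Y.vx n = v) (hD p)
      (fun n _ y y' h h' => h.symm.trans h') (fun v hv => ?_)
    obtain ⟨n, hn, _⟩ := exists_ne_zero_of_sum_ne_zero (mem_filter.1 hv).2
    exact ⟨n, mem_filter.2 ⟨mem_univ _, (mem_filter.1 hn).2.2⟩, (mem_filter.1 hn).2.1⟩
  · refine card_rel_le1 (univ.filter fun n => Y.vx n = v) (fun n p => Y.pu n = some p) (tv v)
      (fun n _ y y' h h' => Option.some.inj (h.symm.trans h')) (fun p hp => ?_)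
    obtain ⟨n, hn, _⟩ := exists_ne_zero_of_sum_ne_zero (mem_filter.1 hp).2
    exact ⟨n, mem_filter.2 ⟨mem_univ _, (mem_filter.1 hn).2.1⟩, (mem_filter.1 hn).2.2⟩

theorem sm_aF {Y : Sys E V P R N} {t M : ℝ} (w : E → ℝ) {par : R → Prop} (hY : Y.Ok par)
    (tv : ∀ v, ((univ.filter fun n => Y.vx n = v).card : ℝ) ≤ t)
    (hM : ∀ q, ((univ.filter fun n => Y.row (Y.vx n) = some q).card : ℝ) ≤ M) :
    SM (fun q v => Y.aF w q v) M t := by
  refine ⟨fun q => ?_, fun v => ?_⟩
  · refine card_rel_le1 (univ.filter fun n => Y.row (Y.vx n) = some q)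
      (fun n' v => ∃ n, Y.mt n' = some n ∧ Y.vx n = v) (hM q) ?_ (fun v hv => ?_)
    · rintro n _ y y' ⟨n1, h1, h2⟩ ⟨n2, h3, h4⟩
      rw [h1] at h3
      rw [← h2, ← h4, Option.some.inj h3]
    · obtain ⟨n, hn, _⟩ := exists_ne_zero_of_sum_ne_zero (mem_filter.1 hv).2
      obtain ⟨h2, n', h3, h4⟩ := (mem_filter.1 hn).2
      exact ⟨n', mem_filter.2 ⟨mem_univ _, h4⟩, n, (hY.m1 n n' h3).1, h2⟩
  · refine card_rel_le1 (univ.filter fun n => Y.vx n = v)
      (fun n q => ∃ n', Y.mt n = some n' ∧ Y.row (Y.vx n') = some q) (tv v) ?_ (fun q hq => ?_)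
    · rintro n _ y y' ⟨n1, h1, h2⟩ ⟨n2, h3, h4⟩
      rw [h1] at h3
      rw [← Option.some.inj h3, h2] at h4
      exact Option.some.inj h4
    · obtain ⟨n, hn, _⟩ := exists_ne_zero_of_sum_ne_zero (mem_filter.1 hq).2
      obtain ⟨h2, n', h3, h4⟩ := (mem_filter.1 hn).2
      exact ⟨n, mem_filter.2 ⟨mem_univ _, h2⟩, n', h3, h4⟩

theorem aC_ne {Y : Sys E V P R N} {Gr : Finset V} {b w : E → ℝ} {h : Bool} {q : R} {v : V}
    (hne : Y.aC Gr b w h q v ≠ 0) :
    ∃ n p n', Y.vx n = v ∧ Y.pu n = some p ∧ Y.pu n' = some p ∧ Y.row (Y.vx n') = some q := by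
  obtain ⟨n, hn, h0⟩ := exists_ne_zero_of_sum_ne_zero hne
  obtain ⟨h1, p, h2, _⟩ := (mem_filter.1 hn).2
  rw [h2] at h0
  have h3 : Y.g Gr b p q ≠ 0 := by
    intro h4
    apply h0
    simp only [h4, zero_div, mul_zero]
  obtain ⟨n', hn', _⟩ := exists_ne_zero_of_sum_ne_zero h3
  obtain ⟨h5, h6, _⟩ := (mem_filter.1 hn').2
  exact ⟨n, p, n', h1, h2, h5, h6⟩

theorem sm_aC {Y : Sys E V P R N} {Gr : Finset V} {t DA M : ℝ} (b w : E → ℝ)
    (tv : ∀ v, ((univ.filter fun n => Y.vx n = v).card : ℝ) ≤ t) (hD : ∀ p, Y.D p ≤ DA)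
    (hDA : 0 ≤ DA)
    (hM : ∀ q, ((univ.filter fun n => Y.row (Y.vx n) = some q).card : ℝ) ≤ M) :
    SM (fun (x : ULift.{u} Bool × R) v => Y.aC Gr b w x.1.down x.2 v) (M * DA) (t * (DA * 2)) := by
  refine ⟨fun x => ?_, fun v => ?_⟩
  · refine card_rel_le (univ.filter fun n => Y.row (Y.vx n) = some x.2)
      (fun n' v => ∃ n p, Y.vx n = v ∧ Y.pu n = some p ∧ Y.pu n' = some p) hDA (hM _)
      (fun n' _ F hF => ?_) (fun v hv => ?_)
    · cases hp : Y.pu n' with
      | none =>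
        have : F = ∅ := by
          refine eq_empty_of_forall_notMem fun v hv => ?_
          obtain ⟨n, p, _, _, h3⟩ := hF v hv
          rw [hp] at h3
          exact absurd h3 (by simp)
        rw [this]
        simpa using hDA
      | some p =>
        refine card_rel_le1 (univ.filter fun n => Y.pu n = some p) (fun n v => Y.vx n = v) (hD p)
          (fun n _ y y' h h' => h.symm.trans h') (fun v hv => ?_)
        obtain ⟨n, p', h1, h2, h3⟩ := hF v hv
        rw [hp] at h3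
        rw [← h3] at h2
        exact ⟨n, mem_filter.2 ⟨mem_univ _, h2⟩, h1⟩
    · obtain ⟨n, p, n', h1, h2, h3, h4⟩ := aC_ne (mem_filter.1 hv).2
      exact ⟨n', mem_filter.2 ⟨mem_univ _, h4⟩, n, p, h1, h2, h3⟩
  · refine card_rel_le (univ.filter fun n => Y.vx n = v)
      (fun n (x : ULift.{u} Bool × R) => ∃ n' p, Y.pu n = some p ∧ Y.pu n' = some p ∧
        Y.row (Y.vx n') = some x.2) (by linarith) (tv v) (fun n _ F hF => ?_) (fun x hx => ?_)
    · cases hp : Y.pu n with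
      | none =>
        have : F = ∅ := by
          refine eq_empty_of_forall_notMem fun v hv => ?_
          obtain ⟨n', p, h3, _, _⟩ := hF v hv
          rw [hp] at h3
          exact absurd h3 (by simp)
        rw [this]
        simpa using hDA
      | some p =>
        refine card_rel_le (univ.filter fun n => Y.pu n = some p)
          (fun n' (x : ULift.{u} Bool × R) => Y.row (Y.vx n') = some x.2) zero_le_two (hD p)
          (fun n' _ F' hF' => ?_) (fun x hx => ?_)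
        · have h5 : F' ⊆ (univ : Finset (ULift.{u} Bool)) ×ˢ F'.image Prod.snd := by
            intro x hx
            exact mem_product.2 ⟨mem_univ _, mem_image_of_mem _ hx⟩
          have h6 : (F'.image Prod.snd).card ≤ 1 := by
            refine card_le_one.2 fun y hy y' hy' => ?_
            obtain ⟨x, hx, rfl⟩ := mem_image.1 hy
            obtain ⟨x', hx', rfl⟩ := mem_image.1 hy'
            exact Option.some.inj ((hF' x hx).symm.trans (hF' x' hx'))
          have h7 := card_le_card h5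
          rw [card_product, card_univ, Fintype.card_ulift, Fintype.card_bool] at h7
          have h8 : F'.card ≤ 2 := by omega
          exact_mod_cast h8
        · obtain ⟨n', p', h1, h2, h3⟩ := hF x hx
          rw [hp] at h1
          rw [← h1] at h2
          exact ⟨n', mem_filter.2 ⟨mem_univ _, h2⟩, h3⟩
    · obtain ⟨n, p, n', h1, h2, h3, h4⟩ := aC_ne (mem_filter.1 hx).2
      exact ⟨n, mem_filter.2 ⟨mem_univ _, h1⟩, n', p, h2, h3, h4⟩

end tests

/-! ## families of tests -/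

theorem sm_sum {κ κ' V : Type u} [Fintype V] [Fintype κ] [Fintype κ'] {a : κ → V → ℝ}
    {b : κ' → V → ℝ} {S1 S2 S M1 M2 : ℝ} (ha : SM a S1 M1) (hb : SM b S2 M2) (h1 : S1 ≤ S)
    (h2 : S2 ≤ S) : SM (Sum.elim a b) S (M1 + M2) := by
  refine ⟨fun q => ?_, fun v => ?_⟩
  · rcases q with q | q
    · exact (ha.1 q).trans h1
    · exact (hb.1 q).trans h2
  · have h3 : (univ.filter fun q => Sum.elim a b q v ≠ 0) ⊆
        (univ.filter fun q => a q v ≠ 0).disjSum (univ.filter fun q => b q v ≠ 0) := by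
      intro q hq
      have hq' := (mem_filter.1 hq).2
      rcases q with q | q
      · exact inl_mem_disjSum.2 (mem_filter.2 ⟨mem_univ _, hq'⟩)
      · exact inr_mem_disjSum.2 (mem_filter.2 ⟨mem_univ _, hq'⟩)
    have h4 := card_le_card h3
    rw [card_disjSum] at h4
    have h5 : ((univ.filter fun q => Sum.elim a b q v ≠ 0).card : ℝ) ≤
        ((univ.filter fun q => a q v ≠ 0).card : ℝ) + ((univ.filter fun q => b q v ≠ 0).card : ℝ) := by
      exact_mod_cast h4
    linarith [ha.2 v, hb.2 v]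

theorem sm_prod {κ V : Type u} [Fintype V] [Fintype κ] {g : ℕ} {A : Fin g → κ → V → ℝ}
    {S M : ℝ} (hA : ∀ k, SM (A k) S M) :
    SM (fun (x : κ × ULift.{u} (Fin g)) v => A x.2.down x.1 v) S (g * M) := by
  refine ⟨fun x => (hA x.2.down).1 x.1, fun v => ?_⟩
  have h1 : (univ.filter fun x : κ × ULift.{u} (Fin g) => A x.2.down x.1 v ≠ 0) ⊆
      (univ : Finset (ULift.{u} (Fin g))).biUnion fun k =>
        (univ.filter fun q => A k.down q v ≠ 0).image fun q => (q, k) := by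
    rintro ⟨q, k⟩ hx
    exact mem_biUnion.2 ⟨k, mem_univ _, mem_image.2 ⟨q, mem_filter.2 ⟨mem_univ _,
      (mem_filter.1 hx).2⟩, rfl⟩⟩
  have h2 := (card_le_card h1).trans card_biUnion_le
  have h3 : ((univ.filter fun x : κ × ULift.{u} (Fin g) => A x.2.down x.1 v ≠ 0).card : ℝ) ≤
      ∑ k : ULift.{u} (Fin g), (((univ.filter fun q => A k.down q v ≠ 0).image
        fun q => (q, k)).card : ℝ) := by
    exact_mod_cast h2
  refine h3.trans ?_
  have h4 : ∀ k : ULift.{u} (Fin g), (((univ.filter fun q => A k.down q v ≠ 0).image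
        fun q => (q, k)).card : ℝ) ≤ M := fun k => by
    refine le_trans ?_ ((hA k.down).2 v)
    exact_mod_cast card_image_le
  refine (sum_le_sum fun k _ => h4 k).trans ?_
  rw [sum_const, nsmul_eq_mul, card_univ, Fintype.card_ulift, Fintype.card_fin]

theorem sm_sub {κ V : Type u} [Fintype V] [Fintype κ] {a : κ → V → ℝ} {S M : ℝ}
    (Gr : Finset V) (h : SM a S M) : SM (fun q (v : {v // v ∈ Gr}) => a q v) S M := by
  refine ⟨fun q => ?_, fun v => h.2 v⟩
  refine le_trans ?_ (h.1 q)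
  have h1 : ((univ.filter fun v : {v // v ∈ Gr} => a q v ≠ 0).image Subtype.val) ⊆
      univ.filter fun v => a q v ≠ 0 := by
    intro v hv
    obtain ⟨x, hx, rfl⟩ := mem_image.1 hv
    exact mem_filter.2 ⟨mem_univ _, (mem_filter.1 hx).2⟩
  have h2 := card_le_card h1
  rw [card_image_of_injective _ Subtype.val_injective] at h2
  exact_mod_cast h2

/-- LabX on a subset -/
theorem labGr {m g : ℕ} (hg : 0 < g) {C0 : ℝ} (hX : LabX.{u} m g C0) {V ι κ : Type u} [Fintype V]
    [Fintype ι] [Fintype κ] (Gr : Finset V) (side : V → ι) (w : Fin m → V → ℝ)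
    (W : Fin m → ι → ℝ) (π : ι → Fin g → ℝ) (a : κ → V → ℝ) (Sp Mu Λ : ℝ) (J : ℕ)
    (hW0 : ∀ k i, 0 ≤ W k i) (hW : ∀ k v, |w k v| ≤ W k (side v))
    (π0 : ∀ i j, 0 ≤ π i j) (π1 : ∀ i, ∑ j, π i j = 1) (hSp : 0 ≤ Sp) (hMu : 0 ≤ Mu)
    (hΛ : 0 ≤ Λ) (ha : SM a Sp Mu) (hL : C0 * Real.exp (-Λ) * (Sp + 1) * (Mu + 1) ≤ 1)
    (hJ : ∀ i, (univ.filter fun v => side v = i).card < 2 ^ J) :
    ∃ L : V → Fin g,
      (∀ i k j, |∑ v ∈ Gr.filter (fun v => side v = i),
        ((if L v = j then 1 else 0) - π i j) * w k v| ≤ C0 * W k i) ∧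
      (∀ q j, |∑ v ∈ Gr, a q v * ((if L v = j then 1 else 0) - π (side v) j)| ≤
        C0 * ((J + 1) * (Real.sqrt Λ + 1)) * Real.sqrt (∑ v ∈ Gr, a q v ^ 2)) ∧
      ∀ i, (∀ j, ∃ r : ℕ, ((Gr.filter fun v => side v = i).card : ℝ) * π i j = r) →
        ∀ j, ((Gr.filter fun v => side v = i ∧ L v = j).card : ℝ) =
          ((Gr.filter fun v => side v = i).card : ℝ) * π i j := by
  have hs := sm_sub Gr ha
  have hcf : ∀ (f : V → Prop) (d1 : DecidablePred f)
      (d2 : DecidablePred fun v : {v // v ∈ Gr} => f v),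
      ((@filter _ (fun v : {v // v ∈ Gr} => f v) d2 univ).card : ℝ) =
      ((@filter _ f d1 Gr).card : ℝ) := by
    intro f d1 d2
    have h1 : ((@filter _ (fun v : {v // v ∈ Gr} => f v) d2 univ).image Subtype.val) =
        @filter _ f d1 Gr := by
      ext v
      simp only [mem_image, mem_filter, mem_univ, true_and, Subtype.exists, exists_and_left,
        exists_prop, exists_eq_right_right]
      exact and_comm
    rw [← h1, card_image_of_injective _ Subtype.val_injective]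
  have hsf : ∀ (f : V → Prop) (x : V → ℝ), ∑ v ∈ univ.filter (fun v : {v // v ∈ Gr} => f v), x v =
      ∑ v ∈ Gr.filter (fun v => f v), x v := by
    intro f x
    rw [sum_filter, sum_filter, ← sum_coe_sort Gr]
  have hs2 : ∀ (x : V → ℝ), ∑ v : {v // v ∈ Gr}, x v = ∑ v ∈ Gr, x v := fun x => sum_coe_sort Gr x
  obtain ⟨L, l1, l2, l3⟩ := hX (V := {v // v ∈ Gr}) (fun v => side v) (fun k v => w k v) W π
    (fun q v => a q v) Sp Mu Λ J hW0 (fun k v => hW k v) π0 π1 hSp hMu hΛ hs.1 hs.2 hL (fun i => by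
      refine lt_of_le_of_lt ?_ (hJ i)
      have h1 : ((univ.filter fun v : {v // v ∈ Gr} => side v = i).image Subtype.val) ⊆
          univ.filter fun v => side v = i := by
        intro v hv
        obtain ⟨x, hx, rfl⟩ := mem_image.1 hv
        exact mem_filter.2 ⟨mem_univ _, (mem_filter.1 hx).2⟩
      have h2 := card_le_card h1
      rwa [card_image_of_injective _ Subtype.val_injective] at h2)
  set L' : V → Fin g := fun v => if h : v ∈ Gr then L ⟨v, h⟩ else ⟨0, hg⟩ with hL'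
  have hLL : ∀ v : {v // v ∈ Gr}, L v = L' v := by
    intro v
    simp only [hL', v.2, dif_pos]
  refine ⟨L', fun i k j => ?_, fun q j => ?_, fun i hi j => ?_⟩
  · have h := l1 i k j
    have h2 : ∑ v ∈ univ.filter (fun v : {v // v ∈ Gr} => side v = i),
        ((if L v = j then 1 else 0) - π i j) * w k v =
        ∑ v ∈ univ.filter (fun v : {v // v ∈ Gr} => side v = i),
        ((if L' v = j then 1 else 0) - π i j) * w k v :=
      sum_congr rfl fun v _ => by rw [hLL v]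
    rw [h2, hsf (fun v => side v = i) (fun v => ((if L' v = j then 1 else 0) - π i j) * w k v)] at h
    exact h
  · have h := l2 q j
    have h2 : ∑ v : {v // v ∈ Gr}, a q v * ((if L v = j then 1 else 0) - π (side v) j) =
        ∑ v : {v // v ∈ Gr}, a q v * ((if L' v = j then 1 else 0) - π (side v) j) :=
      sum_congr rfl fun v _ => by rw [hLL v]
    rw [h2, hs2 (fun v => a q v * ((if L' v = j then 1 else 0) - π (side v) j)),
      hs2 (fun v => a q v ^ 2)] at h
    exact h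
  · have h := l3 i (fun j => by
      obtain ⟨r, hr⟩ := hi j
      refine ⟨r, ?_⟩
      rw [hcf (fun v => side v = i) _ _]
      exact hr) j
    have h2 : (univ.filter fun v : {v // v ∈ Gr} => side v = i ∧ L v = j) =
        univ.filter fun v : {v // v ∈ Gr} => side v = i ∧ L' v = j :=
      filter_congr fun v _ => by rw [hLL v]
    rw [h2, hcf (fun v => side v = i ∧ L' v = j) _ _, hcf (fun v => side v = i) _ _] at h
    exact h

end Pool.Agent.Work.MP_db9399_ts.helper55
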