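import Pool.Agent.Work.MP_db9399_ts_helper55.EdgeB
import Pool.Agent.Work.MP_db9399_ts_helper55.Rnd
import Pool.Agent.Work.MP_db9399_labe_helper61.MultiE

/-!
# MP_db9399, ts block RND, part C: labME on the light edges (helper55)
-/

set_option autoImplicit false
set_option linter.unusedSectionVars false

namespace Pool.Agent.Work.MP_db9399_ts.helper55

open Finset Classical
open Pool.Agent.Work.MP_db9399_all (nb)
open Pool.Agent.Work.MP_db9399_clj.helper75 (OO blk nB eE)

universe u

variable {W B : Type u} [Fintype W] [Fintype B]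

theorem ce_ne (X : Dat W B) (A : W → W → ℝ) {e : Sym2 W} (h : ce X A e ≠ 0) :
    ∃ v w, e = s(v, w) ∧ A v w ≠ 0 := by
  unfold ce at h
  obtain ⟨p, hp, h0⟩ := exists_ne_zero_of_sum_ne_zero h
  exact ⟨p.1, p.2, (mem_filter.1 hp).2.1.symm, h0⟩

/-- supports of the edge tests -/
theorem ce_supp (X : Dat W B) (A : W → W → ℝ) {S : ℝ}
    (h : ((univ.filter fun p : W × W => A p.1 p.2 ≠ 0).card : ℝ) ≤ S) :
    ((univ.filter fun e => ce X A e ≠ 0).card : ℝ) ≤ S := by
  refine card_rel_le1 (univ.filter fun p : W × W => A p.1 p.2 ≠ 0)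
    (fun p e => s(p.1, p.2) = e) h (fun p _ e e' h1 h2 => h1.symm.trans h2) (fun e he => ?_)
  obtain ⟨v, w, h1, h2⟩ := ce_ne X A (mem_filter.1 he).2
  exact ⟨(v, w), mem_filter.2 ⟨mem_univ _, h2⟩, h1.symm⟩

/-- multiplicities of the edge tests -/
theorem ce_mult (X : Dat W B) {τ : Type u} [Fintype τ] (a : τ → W → W → ℝ) {M : ℝ} (hM : 0 ≤ M)
    (h : ∀ v w, ∀ F : Finset τ, (∀ q ∈ F, a q v w ≠ 0) → (F.card : ℝ) ≤ M) (e : Sym2 W) :
    ((univ.filter fun q => ce X (a q) e ≠ 0).card : ℝ) ≤ 2 * M := by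
  refine card_rel_le (univ.filter fun p : W × W => s(p.1, p.2) = e)
    (fun p q => a q p.1 p.2 ≠ 0) hM (by exact_mod_cast fib_card e) (fun p _ F hF => h _ _ F hF)
    (fun q hq => ?_)
  obtain ⟨v, w, h1, h2⟩ := ce_ne X (a q) (mem_filter.1 hq).2
  exact ⟨(v, w), mem_filter.2 ⟨mem_univ _, h1.symm⟩, h2⟩

theorem ro_card {X : Dat W B} {M : ℕ} {C ζ θ c : ℝ} (hE : Env X M C ζ θ c) (pt : W → Fin 2)
    (π : B × Fin 2) : ((univ.filter fun p : W × W => ro X pt π p.1 p.2 ≠ 0).card : ℝ) ≤
      C * X.d * (X.d : ℝ) ^ (1 - c) := by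
  have hro : ∀ v w, ro X pt π v w ≠ 0 → inp X pt π v ∧ X.LE v w ∧ X.cq w ≠ X.cq v := by
    intro v w h
    unfold ro at h
    by_contra hne
    exact h (if_neg hne)
  refine card_rel_le (blk X.bl π.1) (fun v p => p.1 = v ∧ ro X pt π p.1 p.2 ≠ 0)
    (Real.rpow_nonneg (Nat.cast_nonneg _) _) (hE.sz π.1).2 (fun v hv F hF => ?_) (fun p hp => ?_)
  · have hv' : X.bl v = some π.1 := by
      unfold blk at hv
      exact (mem_filter.1 hv).2
    have h1 : F ⊆ ((nb X.G v).filter fun w => X.cq w ≠ X.cq v).image fun w => (v, w) := by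
      intro p hp
      obtain ⟨h1, h2⟩ := hF p hp
      obtain ⟨_, h4, h5⟩ := hro _ _ h2
      subst h1
      refine mem_image.2 ⟨p.2, mem_filter.2 ⟨?_, h5⟩, rfl⟩
      unfold nb
      refine mem_filter.2 ⟨mem_univ _, ?_⟩
      exact ((SimpleGraph.sdiff_adj _ _ _ _).1 h4.1).1
    have h2 : (F.card : ℝ) ≤ (((nb X.G v).filter fun w => X.cq w ≠ X.cq v).card : ℝ) := by
      exact_mod_cast (card_le_card h1).trans card_image_le
    exact h2.trans (hE.out v (by rw [hv']; simp))
  · have h2 := (mem_filter.1 hp).2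
    obtain ⟨h3, _, _⟩ := hro _ _ h2
    refine ⟨p.1, ?_, rfl, h2⟩
    unfold blk
    exact mem_filter.2 ⟨mem_univ _, h3.1⟩

theorem ro_sq (X : Dat W B) (pt : W → Fin 2) (π : B × Fin 2) :
    ∑ v, ∑ w, ro X pt π v w ^ 2 =
      ((univ.filter fun p : W × W => ro X pt π p.1 p.2 ≠ 0).card : ℝ) := by
  have h1 : ∑ v, ∑ w, ro X pt π v w ^ 2 = ∑ p : W × W, ro X pt π p.1 p.2 ^ 2 :=
    (Fintype.sum_prod_type (fun p : W × W => ro X pt π p.1 p.2 ^ 2)).symm
  rw [h1, card_filter]
  push_cast
  refine sum_congr rfl fun p _ => ?_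
  unfold ro
  split_ifs with h2 h3 h3 <;> simp_all

/-- the norm of the coefficients of a test of hubs -/
theorem cβ_sq {X : Dat W B} {M : ℕ} {C ζ θ c : ℝ} (hE : Env X M C ζ θ c) (β : W → ℝ) :
    ∑ y, cβ X β y ^ 2 ≤ (2 * M + 1) * ∑ x, β x ^ 2 := by
  rw [Fintype.sum_sum_type, Fintype.sum_sum_type, Fintype.sum_prod_type]
  have h1 : ∑ y : Sym2 (B × Fin 2) ⊕ Sym2 W, cβ X β (Sum.inr (Sum.inr y)) ^ 2 = 0 :=
    sum_eq_zero fun y _ => by
      show (0 : ℝ) ^ 2 = 0
      norm_num
  have h2 : ∑ x, ∑ y : B × Fin 2, cβ X β (Sum.inr (Sum.inl (x, y))) ^ 2 ≤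
      ∑ x, (2 * M) * β x ^ 2 := by
    refine sum_le_sum fun x _ => ?_
    have h3 : ∑ y : B × Fin 2, cβ X β (Sum.inr (Sum.inl (x, y))) ^ 2 =
        ∑ y : B × Fin 2, if X.cq x = some (X.cb y.1) then β x ^ 2 else 0 := by
      refine sum_congr rfl fun y _ => ?_
      show (if X.cq x = some (X.cb y.1) then β x else 0) ^ 2 = _
      split_ifs
      · rfl
      · norm_num
    rw [h3, ← sum_filter, sum_const, nsmul_eq_mul]
    have h4 : ((univ.filter fun y : B × Fin 2 => X.cq x = some (X.cb y.1)).card : ℝ) ≤ 2 * M := by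
      exact_mod_cast cl_card hE (X.cq x)
    exact mul_le_mul_of_nonneg_right h4 (sq_nonneg _)
  have h3 : ∑ x, cβ X β (Sum.inl x : SI W B) ^ 2 = ∑ x, β x ^ 2 := rfl
  rw [h1, h3, add_zero]
  rw [← mul_sum] at h2
  linarith

/-- supports of the tests of hubs -/
theorem cβ_supp {X : Dat W B} {M : ℕ} {C ζ θ c : ℝ} (hE : Env X M C ζ θ c) (β : W → ℝ) {S : ℝ}
    (h : ((univ.filter fun x => β x ≠ 0).card : ℝ) ≤ S) {F : Finset (SI W B)}
    (hF : ∀ y ∈ F, cβ X β y ≠ 0) : (F.card : ℝ) ≤ S * (2 * M + 1) := by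
  refine card_rel_le (univ.filter fun x => β x ≠ 0) (fun x y => y ∈ sO X x) (by positivity) h
    (fun x _ F hF => ?_) (fun y hy => ?_)
  · have h1 : F ⊆ sO X x := hF
    exact_mod_cast (card_le_card h1).trans (sO_card hE x)
  · have h1 := hF y hy
    rcases y with x | ⟨x, y⟩ | y
    · exact ⟨x, mem_filter.2 ⟨mem_univ _, h1⟩, (inl_sO X x x).2 rfl⟩
    · have h2 : (if X.cq x = some (X.cb y.1) then β x else 0) ≠ 0 := h1
      by_cases h3 : X.cq x = some (X.cb y.1)
      · rw [if_pos h3] at h2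
        exact ⟨x, mem_filter.2 ⟨mem_univ _, h2⟩, (inr_sO X x x y).2 ⟨rfl, h3⟩⟩
      · rw [if_neg h3] at h2
        exact absurd rfl h2
    · exact absurd rfl h1

/-- sizes of the sides -/
theorem side_card {X : Dat W B} {M : ℕ} {C ζ θ c : ℝ} (hE : Env X M C ζ θ c) (hC : 1 ≤ C)
    (hd : 1 ≤ X.d) (pt : W → Fin 2) (y : SI W B) :
    ((univ.filter fun e => side X pt e = y).card : ℝ) ≤ C * X.d * X.d := by
  have hd1 : (1 : ℝ) ≤ X.d := by exact_mod_cast hd
  have hCd : (1 : ℝ) ≤ C * X.d := one_le_mul_of_one_le_of_one_le hC hd1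
  have hnb : ∀ v w, X.LE v w → w ∈ nb X.G v := by
    intro v w h
    unfold nb
    exact mem_filter.2 ⟨mem_univ _, ((SimpleGraph.sdiff_adj _ _ _ _).1 h.1).1⟩
  have hnc : ∀ v, ((nb X.G v).card : ℝ) ≤ X.d := fun v => by rw [hE.reg v]
  -- the edges of one vertex
  have hone : ∀ (x : W) (F : Finset (Sym2 W)), (∀ e ∈ F, ∃ v, e = s(x, v) ∧ X.LE x v) →
      (F.card : ℝ) ≤ X.d := by
    intro x F hF
    refine card_rel_le1 (nb X.G x) (fun v e => s(x, v) = e) (hnc x)
      (fun v _ e e' h h' => h.symm.trans h') (fun e he => ?_)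
    obtain ⟨v, h1, h2⟩ := hF e he
    exact ⟨v, hnb x v h2, h1.symm⟩
  have hrep : ∀ e : Sym2 W, ∃ v w, e = s(v, w) := by
    intro e
    induction e using Sym2.ind with
    | _ v w => exact ⟨v, w, rfl⟩
  have hO : ∀ (x : W) (F : Finset (Sym2 W)), (∀ e ∈ F, side X pt e = Sum.inl x ∨
      ∃ y, side X pt e = Sum.inr (Sum.inl (x, y))) → (F.card : ℝ) ≤ C * X.d * X.d := by
    intro x F hF
    have h1 : (F.card : ℝ) ≤ X.d := by
      refine hone x F fun e he => ?_
      obtain ⟨v, w, rfl⟩ := hrep e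
      have h := hF _ he
      rw [side_mk] at h
      by_cases hl : X.LE v w
      · have key : ∀ {v w : W} {b : B}, X.LE v w → X.bl v = none → X.bl w = some b →
            (sd X pt v w = Sum.inl x ∨ ∃ y, sd X pt v w = Sum.inr (Sum.inl (x, y))) → v = x := by
          intro v w b h hv hw hs
          rw [sd_O X pt h hv hw] at hs
          split_ifs at hs
          · rcases hs with hs | ⟨y, hs⟩
            · exact absurd hs (by simp)
            · simp only [Sum.inr.injEq, Sum.inl.injEq, Prod.mk.injEq] at hs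
              exact hs.1
          · rcases hs with hs | ⟨y, hs⟩
            · exact Sum.inl.inj hs
            · exact absurd hs (by simp)
        rcases LE_cases X hl with ⟨hv, b, hw⟩ | ⟨hw, b, hv⟩ | ⟨b, b', hv, hw⟩
        · have h2 := key hl hv hw h
          subst h2
          exact ⟨w, rfl, hl⟩
        · rw [sd_symm] at h
          have h2 := key (LE_symm X hl) hw hv h
          subst h2
          exact ⟨v, Sym2.eq_swap, LE_symm X hl⟩
        · rw [sd_L X pt hl hv hw] at h
          split_ifs at h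
          · rcases h with h | ⟨y, h⟩
            · exact absurd h (by simp)
            · simp at h
          · rcases h with h | ⟨y, h⟩
            · exact absurd h (by simp)
            · simp at h
      · unfold sd at h
        rw [if_neg hl] at h
        rcases h with h | ⟨y, h⟩
        · exact absurd h (by simp)
        · simp at h
    refine h1.trans ?_
    exact le_mul_of_one_le_left (by linarith) hCd
  rcases y with x | ⟨x, y⟩ | y | e0
  · exact hO x _ fun e he => Or.inl (mem_filter.1 he).2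
  · exact hO x _ fun e he => Or.inr ⟨y, (mem_filter.1 he).2⟩
  · obtain ⟨π, π', rfl⟩ : ∃ π π', y = s(π, π') := by
      induction y using Sym2.ind with
      | _ v w => exact ⟨v, w, rfl⟩
    refine card_rel_le (blk X.bl π.1) (fun v e => ∃ w, e = s(v, w) ∧ X.LE v w)
      (by linarith) (hE.sz π.1).2 (fun v _ F hF => hone v F hF) (fun e he => ?_)
    obtain ⟨v, w, rfl⟩ := hrep e
    have h := (mem_filter.1 he).2
    rw [side_mk] at h
    by_cases hl : X.LE v w
    · rcases LE_cases X hl with ⟨hv, b, hw⟩ | ⟨hw, b, hv⟩ | ⟨b, b', hv, hw⟩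
      · rw [sd_O X pt hl hv hw] at h
        split_ifs at h
        · simp at h
      · rw [sd_symm, sd_O X pt (LE_symm X hl) hw hv] at h
        split_ifs at h
        · simp at h
      · rw [sd_L X pt hl hv hw] at h
        split_ifs at h
        · simp only [Sum.inr.injEq, Sum.inl.injEq] at h
          rcases Sym2.eq_iff.1 h with ⟨h1, _⟩ | ⟨_, h2⟩
          · refine ⟨v, ?_, w, rfl, hl⟩
            unfold blk
            refine mem_filter.2 ⟨mem_univ _, ?_⟩
            rw [hv, ← h1]
          · refine ⟨w, ?_, v, Sym2.eq_swap, LE_symm X hl⟩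
            unfold blk
            refine mem_filter.2 ⟨mem_univ _, ?_⟩
            rw [hw, ← h2]
        · simp at h
    · unfold sd at h
      rw [if_neg hl] at h
      simp at h
  · have h1 : ((univ.filter fun e => side X pt e = Sum.inr (Sum.inr (Sum.inr e0))).card : ℝ) ≤ 1 := by
      have h2 : (univ.filter fun e => side X pt e = Sum.inr (Sum.inr (Sum.inr e0))) ⊆ {e0} := by
        intro e he
        obtain ⟨v, w, rfl⟩ := hrep e
        have h := (mem_filter.1 he).2
        rw [side_mk] at h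
        rw [mem_singleton]
        by_cases hl : X.LE v w
        · rcases LE_cases X hl with ⟨hv, b, hw⟩ | ⟨hw, b, hv⟩ | ⟨b, b', hv, hw⟩
          · rw [sd_O X pt hl hv hw] at h
            split_ifs at h
            · simp at h
          · rw [sd_symm, sd_O X pt (LE_symm X hl) hw hv] at h
            split_ifs at h
            · simp at h
          · rw [sd_L X pt hl hv hw] at h
            split_ifs at h
            · simp at h
            · simp only [Sum.inr.injEq] at h
              exact h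
        · unfold sd at h
          rw [if_neg hl] at h
          simp only [Sum.inr.injEq] at h
          exact h
      exact_mod_cast (card_le_card h2).trans (card_singleton _).le
    refine h1.trans ?_
    exact one_le_mul_of_one_le_of_one_le hCd hd1

end Pool.Agent.Work.MP_db9399_ts.helper55
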