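import Pool.Agent.Work.MP_db9399_ts_helper55.EdgeC

/-!
# MP_db9399, ts block RND, part D: the classes of the light edges (helper55)
-/

set_option autoImplicit false
set_option linter.unusedSectionVars false

namespace Pool.Agent.Work.MP_db9399_ts.helper55

open Finset Classical
open Pool.Agent.Work.MP_db9399_all (nb)
open Pool.Agent.Work.MP_db9399_clj.helper75 (OO blk nB eE)
open Pool.Agent.Work.MP_db9399_lab.helper61 (sc sw labME)

universe u

variable {W B : Type u} [Fintype W] [Fintype B]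

/-- probability of the class `j` for the edge `e` -/
noncomputable def pe (X : Dat W B) (wt : Fin 6 → W → W → ℝ)
    (wsym : ∀ j v w, wt j v w = wt j w v) (e : Sym2 W) (j : ℕ) : ℝ :=
  if h : j < 6 then (if lt X e then Sym2.lift ⟨fun v w => wt ⟨j, h⟩ v w, wsym ⟨j, h⟩⟩ e else
    if j = 0 then 1 else 0) else 0

theorem pe_mk {X : Dat W B} {wt : Fin 6 → W → W → ℝ} (wsym : ∀ j v w, wt j v w = wt j w v)
    {v w : W} (h : X.LE v w) (j : Fin 6) : pe X wt wsym s(v, w) j = wt j v w := by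
  unfold pe
  rw [dif_pos j.2, if_pos ((lt_mk X v w).2 h)]
  rfl

theorem edge_core {X : Dat W B} {M : ℕ} {C ζ θ c : ℝ} (hE : Env X M C ζ θ c) (hC : 1 ≤ C)
    (hd : 1 ≤ X.d) (pt : W → Fin 2) (wt : Fin 6 → W → W → ℝ)
    (wsym : ∀ j v w, wt j v w = wt j w v) (w0 : ∀ j v w, 0 ≤ wt j v w)
    (w1 : ∀ v w, X.LE v w → ∑ j, wt j v w = 1) (wz : ∀ j v w, ¬ X.LE v w → wt j v w = 0)
    {τ τ' : Type u} [Fintype τ] [Fintype τ'] (a : τ → W → W → ℝ) (β : τ' → W → ℝ)
    {S MA Sp Mu Λ : ℝ} {J : ℕ}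
    (haS : ∀ q, ((univ.filter fun p : W × W => a q p.1 p.2 ≠ 0).card : ℝ) ≤ S)
    (haM : ∀ v w, ((univ.filter fun q => a q v w ≠ 0).card : ℝ) ≤ MA)
    (hβS : ∀ q, ((univ.filter fun x => β q x ≠ 0).card : ℝ) ≤ S)
    (hβM : ∀ x, ((univ.filter fun q => β q x ≠ 0).card : ℝ) ≤ MA)
    (hβ0 : ∀ q x, β q x ≠ 0 → X.bl x = none) (hMA : 1 ≤ MA) (hS0 : 0 ≤ S)
    (hSp1 : S * (2 * M + 1) ≤ Sp) (hSp2 : C * X.d * (X.d : ℝ) ^ (1 - c) ≤ Sp)
    (hMu : 4 * MA ≤ Mu) (hΛ : 0 ≤ Λ)
    (hL : 32 * Real.exp (-Λ) * (9 * Sp + 1) * (56 * (6 * Mu) + 1) ≤ 1)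
    (hJ : C * X.d * X.d < 2 ^ J) :
    ∃ cl : W → W → Fin 6, (∀ v w, cl v w = cl w v) ∧
      (∀ v w, X.LE v w → 0 < wt (cl v w) v w) ∧
      (∀ x j, X.bl x = none → |(X.dl cl j x : ℝ) - ∑ v, wt j x v| ≤ (2 * M + 1) * 48) ∧
      (∀ q j, |∑ x, β q x * ((X.dl cl j x : ℝ) - ∑ v, wt j x v)| ≤
        84 * (Real.sqrt (32 * Λ) + 1) * Real.sqrt ((2 * M + 1) * ∑ x, β q x ^ 2)) ∧
      (∀ b i j, |∑ v ∈ (blk X.bl b).filter (fun v => pt v = i),
        ((X.dl cl j v : ℝ) - ∑ w, wt j v w)| ≤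
        6 * ((J + 2) * (Real.sqrt (224 * Λ) + 1)) *
          Real.sqrt (2 * (C * X.d * (X.d : ℝ) ^ (1 - c))) + (θ * X.d + 4 * M) * 48) ∧
      ∀ q j, |∑ v, ∑ w, a q v w * ((if X.LE v w ∧ cl v w = j then 1 else 0) - wt j v w)| ≤
        6 * ((J + 2) * (Real.sqrt (224 * Λ) + 1)) * Real.sqrt (2 * ∑ v, ∑ w, a q v w ^ 2) := by
  -- the tests
  set A1 : (τ ⊕ (B × Fin 2)) → W → W → ℝ := Sum.elim a (fun π => ro X pt π) with hA1
  set bt : ((τ ⊕ (B × Fin 2)) ⊕ τ') → Sym2 W → ℝ :=
    Sum.elim (fun q e => ce X (A1 q) e) (fun _ _ => 0) with hbt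
  set ct : ((τ ⊕ (B × Fin 2)) ⊕ τ') → Fin 1 → SI W B → ℝ :=
    Sum.elim (fun _ _ _ => 0) (fun q _ y => cβ X (β q) y) with hct
  have hSSp : S ≤ Sp := by
    have h1 : S * 1 ≤ S * (2 * M + 1) := by
      refine mul_le_mul_of_nonneg_left ?_ hS0
      have : (0 : ℝ) ≤ M := Nat.cast_nonneg M
      linarith
    linarith
  have hSp0 : 0 ≤ Sp := hS0.trans hSSp
  have hMu0 : 0 ≤ Mu := by linarith
  have hA1S : ∀ q, ((univ.filter fun p : W × W => A1 q p.1 p.2 ≠ 0).card : ℝ) ≤ Sp := by
    intro q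
    rcases q with q | π
    · exact (haS q).trans hSSp
    · exact (ro_card hE pt π).trans hSp2
  have hA1M : ∀ v w, ∀ F : Finset (τ ⊕ (B × Fin 2)), (∀ q ∈ F, A1 q v w ≠ 0) →
      (F.card : ℝ) ≤ MA + 1 := by
    intro v w F hF
    have h1 : F ⊆ (univ.filter fun q => a q v w ≠ 0).disjSum
        (F.toRight) := by
      intro q hq
      rcases q with q | π
      · exact inl_mem_disjSum.2 (mem_filter.2 ⟨mem_univ _, hF _ hq⟩)
      · exact inr_mem_disjSum.2 (mem_toRight.2 hq)
    have h2 := card_le_card h1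
    rw [card_disjSum] at h2
    have h3 : (F.toRight).card ≤ 1 := by
      refine card_le_one.2 fun π hπ π' hπ' => ?_
      have h4 : ∀ π, π ∈ F.toRight → inp X pt π v := by
        intro π hπ
        have h5 : ro X pt π v w ≠ 0 := hF _ (mem_toRight.1 hπ)
        unfold ro at h5
        by_contra hne
        exact h5 (if_neg fun h => hne h.1)
      have h5 := h4 π hπ
      have h6 := h4 π' hπ'
      refine Prod.ext ?_ (h5.2.symm.trans h6.2)
      have h7 := h5.1
      rw [h6.1] at h7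
      exact (Option.some.inj h7).symm
    have h4 : (F.card : ℝ) ≤ ((univ.filter fun q => a q v w ≠ 0).card : ℝ) + (F.toRight).card := by
      exact_mod_cast h2
    have h5 : ((F.toRight).card : ℝ) ≤ 1 := by exact_mod_cast h3
    linarith [haM v w]
  have hSp : ∀ q, ((univ.filter fun e => bt q e ≠ 0).card : ℝ) ≤ Sp := by
    intro q
    rcases q with q | q
    · exact ce_supp X (A1 q) (hA1S q)
    · have : (univ.filter fun e : Sym2 W => bt (Sum.inr q) e ≠ 0) = ∅ :=
        filter_false_of_mem fun e _ h => h rfl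
      rw [this]
      simpa using hSp0
  have hSc : ∀ q, ((univ.filter fun i => ∃ k, ct q k i ≠ 0).card : ℝ) ≤ Sp := by
    intro q
    rcases q with q | q
    · have : (univ.filter fun i : SI W B => ∃ k, ct (Sum.inl q) k i ≠ 0) = ∅ :=
        filter_false_of_mem fun i _ h => by
          obtain ⟨k, hk⟩ := h
          exact hk rfl
      rw [this]
      simpa using hSp0
    · refine (cβ_supp hE (β q) (hβS q) fun y hy => ?_).trans hSp1
      obtain ⟨k, hk⟩ := (mem_filter.1 hy).2
      exact hk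
  have hMu1 : ∀ e, ((univ.filter fun q => bt q e ≠ 0).card : ℝ) ≤ Mu := by
    intro e
    have h1 := ce_mult X A1 (by linarith : (0 : ℝ) ≤ MA + 1) hA1M e
    have h2 : (univ.filter fun q => bt q e ≠ 0) ⊆
        (univ.filter fun q => ce X (A1 q) e ≠ 0).image Sum.inl := by
      intro q hq
      rcases q with q | q
      · exact mem_image_of_mem _ (mem_filter.2 ⟨mem_univ _, (mem_filter.1 hq).2⟩)
      · exact absurd rfl (mem_filter.1 hq).2
    have h3 : ((univ.filter fun q => bt q e ≠ 0).card : ℝ) ≤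
        ((univ.filter fun q => ce X (A1 q) e ≠ 0).card : ℝ) := by
      exact_mod_cast (card_le_card h2).trans card_image_le
    linarith
  have hMc : ∀ i, ((univ.filter fun q => ∃ k, ct q k i ≠ 0).card : ℝ) ≤ Mu := by
    intro y
    have hinr : (univ.filter fun q => ∃ k, ct q k y ≠ 0) ⊆
        (univ.filter fun q => cβ X (β q) y ≠ 0).image Sum.inr := by
      intro q hq
      obtain ⟨k, hk⟩ := (mem_filter.1 hq).2
      rcases q with q | q
      · exact absurd rfl hk
      · exact mem_image_of_mem _ (mem_filter.2 ⟨mem_univ _, hk⟩)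
    have h3 : ((univ.filter fun q => ∃ k, ct q k y ≠ 0).card : ℝ) ≤
        ((univ.filter fun q => cβ X (β q) y ≠ 0).card : ℝ) := by
      exact_mod_cast (card_le_card hinr).trans card_image_le
    refine h3.trans ?_
    have h4 : ∀ x, (∀ q, cβ X (β q) y ≠ 0 → β q x ≠ 0) →
        ((univ.filter fun q => cβ X (β q) y ≠ 0).card : ℝ) ≤ Mu := by
      intro x hx
      have h5 : (univ.filter fun q => cβ X (β q) y ≠ 0) ⊆ univ.filter fun q => β q x ≠ 0 :=
        fun q hq => mem_filter.2 ⟨mem_univ _, hx q (mem_filter.1 hq).2⟩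
      have h6 : ((univ.filter fun q => cβ X (β q) y ≠ 0).card : ℝ) ≤
          ((univ.filter fun q => β q x ≠ 0).card : ℝ) := by exact_mod_cast card_le_card h5
      linarith [hβM x]
    rcases y with x | ⟨x, y⟩ | y
    · exact h4 x fun q h => h
    · refine h4 x fun q h => ?_
      have h2 : (if X.cq x = some (X.cb y.1) then β q x else 0) ≠ 0 := h
      by_contra h5
      rw [h5] at h2
      simp at h2
    · have : (univ.filter fun q => cβ X (β q) (Sum.inr (Sum.inr y)) ≠ 0) = ∅ :=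
        filter_false_of_mem fun q _ h => h rfl
      rw [this]
      simpa using hMu0
  have hp0 : ∀ e j, 0 ≤ pe X wt wsym e j := by
    intro e j
    unfold pe
    by_cases h : j < 6
    · rw [dif_pos h]
      split_ifs
      · induction e using Sym2.ind with
        | _ v w => exact w0 _ _ _
      · exact zero_le_one
      · exact le_rfl
    · rw [dif_neg h]
  have hp1 : ∀ e, ∑ j ∈ range 6, pe X wt wsym e j = 1 := by
    intro e
    rw [← Fin.sum_univ_eq_sum_range (fun j => pe X wt wsym e j) 6]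
    by_cases h : lt X e
    · obtain ⟨v, w, rfl, h'⟩ := h
      rw [← w1 v w h']
      exact sum_congr rfl fun j _ => pe_mk wsym h' j
    · rw [sum_eq_single (0 : Fin 6)]
      · unfold pe
        rw [dif_pos (by norm_num), if_neg h]
        simp
      · intro j _ hj
        unfold pe
        rw [dif_pos j.2, if_neg h, if_neg]
        exact fun h' => hj (Fin.ext h')
      · exact fun h' => absurd (mem_univ _) h'
  have hL' : 32 * Real.exp (-Λ) * ((((1 : ℕ) : ℝ) * ((6 : ℕ) : ℝ) + 3) * Sp + 1) *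
      (8 * (((1 : ℕ) : ℝ) * ((6 : ℕ) : ℝ) + 1) * (((6 : ℕ) : ℝ) * Mu) + 1) ≤ 1 := by
    refine le_trans (le_of_eq ?_) hL
    push_cast
    ring
  obtain ⟨L, l1, l2, l3, _, l5⟩ := labME (m := 1) (g := 6) (side X pt)
    (fun _ e => if lt X e then (1 : ℝ) else 0) (fun _ _ => (1 : ℝ)) (fun _ _ => zero_le_one)
    (fun _ e => by
      split_ifs <;> simp) (pe X wt wsym) hp0 hp1 bt ct Sp Mu Λ hSp0 hMu0 hSp hSc hMu1 hMc hΛ hL' J
    (fun y => by
      have h1 := (side_card hE hC hd pt y).trans_lt hJ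
      have h2 : (univ.filter fun e => side X pt e = y).card < 2 ^ J := by exact_mod_cast h1
      refine lt_of_le_of_lt (card_le_card fun e he => ?_) h2
      simp only [mem_filter, mem_univ, true_and] at he ⊢
      exact he)
  set cl : W → W → Fin 6 := fun v w => ⟨L s(v, w), l1 _⟩ with hcl
  -- the noise of an edge
  set F : Fin 6 → Sym2 W → ℝ := fun j e => (if L e = j then 1 else 0) - pe X wt wsym e j with hF
  have hFe : ∀ j v w, X.LE v w → F j s(v, w) = (if cl v w = j then 1 else 0) - wt j v w := by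
    intro j v w h
    simp only [hF, hcl]
    rw [pe_mk wsym h]
    congr 1
    refine if_congr ?_ rfl rfl
    constructor
    · exact fun h => Fin.ext h
    · exact fun h => by rw [← h]
  have hside : ∀ j y, |∑ e with side X pt e = y, (if lt X e then F j e else 0)| ≤ 48 := by
    intro j y
    have h := l3 y 0 j j.2
    refine le_trans (le_of_eq ?_) (h.trans (le_of_eq ?_))
    · congr 1
      refine sum_congr ?_ fun e _ => ?_
      · ext e
        simp only [mem_filter, mem_univ, true_and]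
      · simp only [hF]
        split_ifs <;> ring
    · push_cast
      norm_num
  -- degrees
  have hdl : ∀ j v, (X.dl cl j v : ℝ) - ∑ w, wt j v w =
      ∑ w, (if X.LE v w then F j s(v, w) else 0) := by
    intro j v
    unfold Dat.dl
    rw [card_filter]
    push_cast
    rw [← sum_sub_distrib]
    refine sum_congr rfl fun w _ => ?_
    by_cases h : X.LE v w
    · rw [if_pos h, hFe j v w h]
      congr 1
      refine if_congr ?_ rfl rfl
      exact ⟨fun h' => h'.2, fun h' => ⟨h, h'⟩⟩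
    · rw [if_neg h, if_neg (fun h' => h h'.1), wz j v w h]
      norm_num
  -- the tests with edges
  have htest : ∀ (q : τ ⊕ (B × Fin 2)) (j : Fin 6),
      |∑ v, ∑ w, (if X.LE v w then A1 q v w * F j s(v, w) else 0)| ≤
      6 * ((J + 2) * (Real.sqrt (224 * Λ) + 1)) * Real.sqrt (2 * ∑ v, ∑ w, A1 q v w ^ 2) := by
    intro q j
    rw [sum_ed]
    have h := l5 (Sum.inl q) j j.2
    have h1 : ∀ e, sc (side X pt) (fun (_ : Fin 1) e => if lt X e then (1 : ℝ) else 0)
        (ct (Sum.inl q)) e = 0 := by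
      intro e
      unfold sc
      refine sum_eq_zero fun k _ => ?_
      show (0 : ℝ) * _ = 0
      rw [zero_mul]
    have h2 : ∀ i, sw (fun (_ : Fin 1) (_ : SI W B) => (1 : ℝ)) (ct (Sum.inl q)) i = 0 := by
      intro i
      unfold sw
      refine sum_eq_zero fun k _ => ?_
      show |(0 : ℝ)| * 1 = 0
      simp
    simp only [h1, h2, add_zero] at h
    have h3 : Real.sqrt (∑ i : SI W B, (0 : ℝ) ^ 2) = 0 := by simp
    rw [h3, mul_zero, add_zero] at h
    refine h.trans ?_
    have h4 : Real.sqrt (∑ e, bt (Sum.inl q) e ^ 2) ≤ Real.sqrt (2 * ∑ v, ∑ w, A1 q v w ^ 2) :=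
      Real.sqrt_le_sqrt (norm_pair X (A1 q))
    have h5 : (32 * (((1 : ℕ) : ℝ) * ((6 : ℕ) : ℝ) + 1) * Λ) = 224 * Λ := by
      push_cast
      ring
    rw [h5, ← mul_assoc]
    exact mul_le_mul_of_nonneg_left h4 (by positivity)
  refine ⟨cl, fun v w => ?_, fun v w h => ?_, fun x j hx => ?_, fun q j => ?_, fun b i j => ?_,
    fun q j => ?_⟩
  · simp only [hcl, Sym2.eq_swap]
  · have h1 := l2 s(v, w)
    have h2 := pe_mk wsym h (cl v w)
    rw [← h2]
    exact h1
  · rw [hdl]
    exact hub_bound hE pt hx (by norm_num) (hside j)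
  · simp only [hdl]
    rw [beta_sum hE pt (hβ0 q)]
    have h := l5 (Sum.inr q) j j.2
    have h1 : ∑ e, (if lt X e then cβ X (β q) (side X pt e) * F j e else 0) =
        ∑ e, (bt (Sum.inr q) e + sc (side X pt) (fun (_ : Fin 1) e => if lt X e then (1 : ℝ) else 0)
        (ct (Sum.inr q)) e) * ((if L e = j then 1 else 0) - pe X wt wsym e j) := by
      refine sum_congr rfl fun e _ => ?_
      have h2 : bt (Sum.inr q) e = 0 := rfl
      have h3 : sc (side X pt) (fun (_ : Fin 1) e => if lt X e then (1 : ℝ) else 0)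
        (ct (Sum.inr q)) e = cβ X (β q) (side X pt e) * (if lt X e then (1 : ℝ) else 0) := by
        unfold sc
        rw [Fin.sum_univ_one]
        rfl
      rw [h2, h3]
      simp only [hF]
      split_ifs <;> ring
    rw [h1]
    refine h.trans ?_
    have h4 : ∑ e, bt (Sum.inr q) e ^ 2 = 0 := sum_eq_zero fun e _ => by
      show (0 : ℝ) ^ 2 = 0
      norm_num
    have h5 : ∑ i, sw (fun (_ : Fin 1) (_ : SI W B) => (1 : ℝ)) (ct (Sum.inr q)) i ^ 2 ≤
        (2 * M + 1) * ∑ x, β q x ^ 2 := by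
      refine le_trans (le_of_eq ?_) (cβ_sq hE (β q))
      refine sum_congr rfl fun i _ => ?_
      unfold sw
      rw [Fin.sum_univ_one]
      show (|cβ X (β q) i| * 1) ^ 2 = _
      rw [mul_one, sq_abs]
    rw [h4, Real.sqrt_zero, mul_zero, zero_add]
    have h6 := Real.sqrt_le_sqrt h5
    calc ((6 : ℕ) : ℝ) * (2 * (((1 : ℕ) : ℝ) * ((6 : ℕ) : ℝ) + 1) * (Real.sqrt (32 * Λ) + 1) *
          Real.sqrt (∑ i, sw (fun (_ : Fin 1) (_ : SI W B) => (1 : ℝ)) (ct (Sum.inr q)) i ^ 2))
        = 84 * (Real.sqrt (32 * Λ) + 1) *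
          Real.sqrt (∑ i, sw (fun (_ : Fin 1) (_ : SI W B) => (1 : ℝ)) (ct (Sum.inr q)) i ^ 2) := by
          push_cast
          ring
      _ ≤ _ := mul_le_mul_of_nonneg_left h6 (by positivity)
  · simp only [hdl]
    refine row_bound hE pt (b, i) (hside j) ?_
    refine (htest (Sum.inr (b, i)) j).trans ?_
    refine mul_le_mul_of_nonneg_left (Real.sqrt_le_sqrt ?_) (by positivity)
    have h1 : ∑ v, ∑ w, A1 (Sum.inr (b, i)) v w ^ 2 ≤ C * X.d * (X.d : ℝ) ^ (1 - c) := by
      show ∑ v, ∑ w, ro X pt (b, i) v w ^ 2 ≤ _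
      rw [ro_sq]
      exact ro_card hE pt (b, i)
    linarith
  · refine le_trans (le_of_eq ?_) (htest (Sum.inl q) j)
    congr 1
    refine sum_congr rfl fun v _ => sum_congr rfl fun w _ => ?_
    by_cases h : X.LE v w
    · rw [if_pos h, hFe j v w h]
      show a q v w * _ = a q v w * _
      congr 2
      refine if_congr ?_ rfl rfl
      exact ⟨fun h' => h'.2, fun h' => ⟨h, h'⟩⟩
    · rw [if_neg h, if_neg (fun h' => h h'.1), wz j v w h]
      norm_num

end Pool.Agent.Work.MP_db9399_ts.helper55
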