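import Pool.Agent.Work.MP_db9399_ts_helper55.Rnd

/-!
# MP_db9399, PHASE, part C: one round of labels for all classes, main statement (helper55)
-/

set_option autoImplicit false
set_option linter.unusedSectionVars false

namespace Pool.Agent.Work.MP_db9399_ts.helper55

open Finset Classical

universe u

variable {E V P R N ι τ : Type u}

/-- the errors of a linear form, from the bound of LabX -/
theorem tst_of {g : ℕ} (hg : 2 ≤ g) {Gr : Finset V} {side : V → ι} {L : V → Fin g}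
    {π : ι → Fin g → ℝ} {k : Fin g} {a : V → ℝ} {X K S : ℝ} (hK : 2 * X ≤ K) (hS : 0 ≤ S)
    (h : |∑ v ∈ Gr, a v * ((if L v = k then 1 else 0) - π (side v) k)| ≤ X * S) :
    |∑ v ∈ Gr, a v * ((mu g Gr L k v - 1) -
      (-((g : ℝ) / (g - 1)) * (π (side v) k - 1 / g)))| ≤ K * S := by
  have h1 : ∑ v ∈ Gr, a v * ((mu g Gr L k v - 1) -
      (-((g : ℝ) / (g - 1)) * (π (side v) k - 1 / g))) =
      -((g : ℝ) / (g - 1)) * ∑ v ∈ Gr, a v * ((if L v = k then 1 else 0) - π (side v) k) := by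
    rw [mul_sum]
    refine sum_congr rfl fun v hv => ?_
    rw [mu_sub_one hg L k hv]
    ring
  rw [h1, abs_mul, abs_neg, abs_of_pos (gg hg).1]
  have hXS : 0 ≤ X * S := (abs_nonneg _).trans h
  calc (g : ℝ) / (g - 1) * |∑ v ∈ Gr, a v * ((if L v = k then 1 else 0) - π (side v) k)|
      ≤ 2 * (X * S) := mul_le_mul (gg hg).2 h (abs_nonneg _) (by norm_num)
    _ = 2 * X * S := by ring
    _ ≤ K * S := mul_le_mul_of_nonneg_right hK hS

theorem eb_le {g : ℕ} (hg : 2 ≤ g) {x κ0 : ℝ} (h : |x| ≤ κ0) :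
    |-((g : ℝ) / (g - 1)) * x| ≤ 2 * κ0 := by
  rw [abs_mul, abs_neg, abs_of_pos (gg hg).1]
  exact mul_le_mul (gg hg).2 h (abs_nonneg _) (by norm_num)

theorem lin_of' {g : ℕ} (hg : 2 ≤ g) {Gr S : Finset V} (hS : S ⊆ Gr) {side : V → ι}
    {L : V → Fin g} {π : ι → Fin g → ℝ} {k : Fin g} {a : V → ℝ} {X κ : ℝ}
    (hκ : ∀ v ∈ S, |π (side v) k - 1 / g| ≤ κ)
    (h : |∑ v ∈ S, a v * ((if L v = k then 1 else 0) - π (side v) k)| ≤ X) :
    |∑ v ∈ S, a v * (mu g Gr L k v - 1)| ≤ 2 * X + 2 * (κ * ∑ v ∈ S, |a v|) := by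
  have h1 : ∑ v ∈ S, a v * (mu g Gr L k v - 1) =
      -((g : ℝ) / (g - 1)) * ∑ v ∈ S, a v * ((if L v = k then 1 else 0) - π (side v) k) +
      ∑ v ∈ S, a v * (-((g : ℝ) / (g - 1)) * (π (side v) k - 1 / g)) := by
    rw [mul_sum, ← sum_add_distrib]
    refine sum_congr rfl fun v hv => ?_
    rw [mu_sub_one hg L k (hS hv)]
    ring
  rw [h1]
  refine (abs_add_le _ _).trans (add_le_add ?_ ?_)
  · rw [abs_mul, abs_neg, abs_of_pos (gg hg).1]
    exact mul_le_mul (gg hg).2 h (abs_nonneg _) (by norm_num)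
  · refine (abs_sum_le_sum_abs _ _).trans ?_
    rw [← mul_assoc, mul_sum]
    refine sum_le_sum fun v hv => ?_
    rw [abs_mul, mul_comm]
    exact mul_le_mul_of_nonneg_right (eb_le hg (hκ v hv)) (abs_nonneg _)

theorem lin_of {g : ℕ} (hg : 2 ≤ g) {Gr S : Finset V} (hS : S ⊆ Gr) {side : V → ι}
    {L : V → Fin g} {π : ι → Fin g → ℝ} {k : Fin g} {a : V → ℝ} {X Y κ0 : ℝ}
    (hκ : ∀ i j, |π i j - 1 / g| ≤ κ0) (hY : 2 * X ≤ Y)
    (h : |∑ v ∈ S, a v * ((if L v = k then 1 else 0) - π (side v) k)| ≤ X) :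
    |∑ v ∈ S, a v * (mu g Gr L k v - 1)| ≤ Y + 2 * κ0 * ∑ v ∈ S, |a v| := by
  have h1 : ∑ v ∈ S, a v * (mu g Gr L k v - 1) =
      -((g : ℝ) / (g - 1)) * ∑ v ∈ S, a v * ((if L v = k then 1 else 0) - π (side v) k) +
      ∑ v ∈ S, a v * (-((g : ℝ) / (g - 1)) * (π (side v) k - 1 / g)) := by
    rw [mul_sum, ← sum_add_distrib]
    refine sum_congr rfl fun v hv => ?_
    rw [mu_sub_one hg L k (hS hv)]
    ring
  rw [h1]
  refine (abs_add_le _ _).trans (add_le_add ?_ ?_)
  · rw [abs_mul, abs_neg, abs_of_pos (gg hg).1]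
    exact (mul_le_mul (gg hg).2 h (abs_nonneg _) (by norm_num)).trans hY
  · refine (abs_sum_le_sum_abs _ _).trans ?_
    rw [mul_sum]
    refine sum_le_sum fun v _ => ?_
    rw [abs_mul, mul_comm]
    exact mul_le_mul_of_nonneg_right (eb_le hg (hκ _ _)) (abs_nonneg _)

theorem dlt_nonneg {β c K t wh wr D0 E0 δ κ1 : ℝ} (h : Num β c K t wh wr D0 E0 δ)
    (hκ : 0 ≤ κ1) : 0 ≤ dlt β c K t wr D0 E0 δ κ1 := by
  have h1 := h.β
  have h2 := h.c
  have h3 : 0 < K := by linarith [h.K]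
  have h4 : 0 < t := by linarith [h.t]
  have h5 : 0 < D0 := by linarith [h.D0]
  have h6 : 0 < E0 := by linarith [h.E0]
  have h7 := h.δ
  unfold dlt
  positivity

variable [Fintype E] [Fintype V] [Fintype P] [Fintype R] [Fintype N] [Fintype ι] [Fintype τ]

/-- one round -/
theorem rnd (hP : Stmt_PUSH.{u}) {g m : ℕ} (hg : 2 ≤ g) {C0 : ℝ} (hC0 : 1 ≤ C0)
    (hX : LabX.{u} (m + g + 1) g C0) (Y : Sys E V P R N) (par : R → Prop) (Gr : Finset V)
    (side : V → ι) (b w : Fin g → E → ℝ) {β c K t wh wr D0 E0 δ κ0 MR ε DM Sp Mu Λ : ℝ} {J : ℕ}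
    (hH : RH Y par Gr side g b w β c t wh wr D0 E0 MR ε DM)
    (hn : Num β c K t wh wr D0 E0 δ) (π : ι → Fin g → ℝ) (π0 : ∀ i j, 0 ≤ π i j)
    (π1 : ∀ i, ∑ j, π i j = 1) (πκ : ∀ i j, |π i j - 1 / g| ≤ κ0) (hκ0 : 0 ≤ κ0) {Kc : ℝ}
    (πc : ∀ i j, |π i j - 1 / g| * ((Gr.filter fun v => side v = i).card : ℝ) ≤ Kc)
    (u : Fin m → V → ℝ) (U : Fin m → ι → ℝ) (hu : ∀ l v, |u l v| ≤ U l (side v))
    (hU : ∀ l i, 0 ≤ U l i) (a : τ → Fin g → V → ℝ)
    (ha : ∀ k, SM (fun q v => a q k v) Sp Mu) (hMu : 0 ≤ Mu)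
    (hS1 : DM ≤ Sp) (hS2 : MR * DM ≤ Sp) (hS3 : MR ≤ Sp) (hΛ : 0 ≤ Λ)
    (hL : C0 * Real.exp (-Λ) * (Sp + 1) * (g * (Mu + (t + (t * (DM * 2) + t))) + 1) ≤ 1)
    (hJ : ∀ i, (univ.filter fun v => side v = i).card < 2 ^ J)
    (hK : 2 * (C0 * ((J + 1) * (Real.sqrt Λ + 1))) ≤ K) :
    ∃ (L : V → Fin g) (w' : Fin g → E → ℝ),
      (∀ k e, |w' k e - bas Y g Gr L b k e| ≤
        (ε + dlt β c K t wr D0 E0 δ (2 * κ0)) * bas Y g Gr L b k e) ∧
      (∀ k p, ¬ Y.isR p → |∑ n with Y.pu n = some p, (w' k (Y.ed n) - w k (Y.ed n))| ≤ δ) ∧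
      (∀ k q, |∑ n with Y.row (Y.vx n) = some q, (w' k (Y.ed n) - w k (Y.ed n))| ≤
        rer β c K t wh wr E0 δ (2 * κ0) MR + 4 * C0 * β * t + 4 * κ0 * β * MR) ∧
      (∀ q k, |∑ v ∈ Gr, a q k v * (mu g Gr L k v - 1)| ≤
        K * Real.sqrt (∑ v ∈ Gr, a q k v ^ 2) + 2 * κ0 * ∑ v ∈ Gr, |a q k v|) ∧
      (∀ l i k, |∑ v ∈ Gr.filter (fun v => side v = i), u l v * (mu g Gr L k v - 1)| ≤
        (2 * C0 + 2 * Kc) * U l i) ∧
      (∀ i j, |((Gr.filter fun v => side v = i ∧ L v = j).card : ℝ) -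
        (Gr.filter fun v => side v = i).card * π i j| ≤ C0) ∧
      ∀ i, (∀ j, ∃ r : ℕ, ((Gr.filter fun v => side v = i).card : ℝ) * π i j = r) →
        ∀ j, ((Gr.filter fun v => side v = i ∧ L v = j).card : ℝ) =
          ((Gr.filter fun v => side v = i).card : ℝ) * π i j := by
  have hβ := hn.β
  have ht1 := hn.t
  have hg0 : 0 < g := by omega
  -- sums of weights at a vertex
  set s : Fin g → V → ℝ := fun k v => ∑ n with Y.vx n = v, w k (Y.ed n) with hs
  have hw2 : ∀ k e, |w k e| ≤ 2 * b k e := by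
    intro k e
    have h1 := hH.w0 k e
    have h2 := (hH.b0 k e).1
    have h3 : ε * b k e ≤ 1 * b k e := mul_le_mul_of_nonneg_right (by linarith [hH.ε1]) h2
    have h4 : |w k e| ≤ |w k e - b k e| + |b k e| := by
      have := abs_add_le (w k e - b k e) (b k e)
      rwa [sub_add_cancel] at this
    rw [abs_of_nonneg h2] at h4
    linarith
  have hw3 : ∀ k e, |w k e| ≤ 2 * β := fun k e =>
    (hw2 k e).trans (by linarith [(hH.b0 k e).2])
  have hs1 : ∀ k v, |s k v| ≤ 2 * β * t := by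
    intro k v
    refine (abs_sum_le_sum_abs _ _).trans ((sum_le_sum fun n _ => hw3 k _).trans ?_)
    rw [sum_const, nsmul_eq_mul, mul_comm]
    exact mul_le_mul_of_nonneg_left (hH.tv v) (by linarith)
  -- functionals
  set W1 : Fin (m + g + 1) → V → ℝ := fun x v =>
    if hx : (x : ℕ) < m then u ⟨x, hx⟩ v else
      if hy : (x : ℕ) - m < g then s ⟨(x : ℕ) - m, hy⟩ v else 1 with hW1
  set W2 : Fin (m + g + 1) → ι → ℝ := fun x i =>
    if hx : (x : ℕ) < m then U ⟨x, hx⟩ i else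
      if hy : (x : ℕ) - m < g then 2 * β * t else 1 with hW2
  have hW20 : ∀ x i, 0 ≤ W2 x i := by
    intro x i
    simp only [hW2]
    split_ifs
    · exact hU _ _
    · positivity
    · exact zero_le_one
  have hW12 : ∀ x v, |W1 x v| ≤ W2 x (side v) := by
    intro x v
    simp only [hW1, hW2]
    split_ifs
    · exact hu _ _
    · exact hs1 _ _
    · simp
  -- tests
  set A : Fin g → (τ ⊕ (P ⊕ ((ULift.{u} Bool × R) ⊕ R))) → V → ℝ := fun k =>
    Sum.elim (fun q v => a q k v) (Sum.elim (fun p v => Y.aN (w k) p v)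
      (Sum.elim (fun x v => Y.aC Gr (b k) (w k) x.1.down x.2 v) (fun q v => Y.aF (w k) q v)))
    with hA
  have hAM : ∀ k, SM (A k) Sp (Mu + (t + (t * (DM * 2) + t))) := by
    intro k
    exact sm_sum (ha k) (sm_sum (sm_aN (w k) hH.tv hH.DA)
      (sm_sum (sm_aC (b k) (w k) hH.tv hH.DA hH.DA0 hH.Mr) (sm_aF (w k) hH.ok hH.tv hH.Mr)
        hS2 hS3) hS1 le_rfl) le_rfl le_rfl
  have hMM : 0 ≤ Mu + (t + (t * (DM * 2) + t)) := by
    have := hH.DA0
    positivity
  obtain ⟨L, f1, f2, f3⟩ := labGr hg0 hX Gr side W1 W2 π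
    (fun (x : (τ ⊕ (P ⊕ ((ULift.{u} Bool × R) ⊕ R))) × ULift.{u} (Fin g)) v => A x.2.down x.1 v)
    Sp (g * (Mu + (t + (t * (DM * 2) + t)))) Λ J hW20 hW12 π0 π1 (hH.DA0.trans hS1)
    (mul_nonneg (Nat.cast_nonneg _) hMM) hΛ (sm_prod hAM) hL hJ
  -- the bounds of the tests
  set X : ℝ := C0 * ((J + 1) * (Real.sqrt Λ + 1)) with hXd
  have t0 : ∀ q k, |∑ v ∈ Gr, a q k v * ((if L v = k then 1 else 0) - π (side v) k)| ≤
      X * Real.sqrt (∑ v ∈ Gr, a q k v ^ 2) := fun q k => f2 (Sum.inl q, ULift.up k) k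
  have t1 : ∀ p k, |∑ v ∈ Gr, Y.aN (w k) p v * ((if L v = k then 1 else 0) - π (side v) k)| ≤
      X * Real.sqrt (∑ v ∈ Gr, Y.aN (w k) p v ^ 2) :=
    fun p k => f2 (Sum.inr (Sum.inl p), ULift.up k) k
  have t2 : ∀ h q k, |∑ v ∈ Gr, Y.aC Gr (b k) (w k) h q v *
      ((if L v = k then 1 else 0) - π (side v) k)| ≤
      X * Real.sqrt (∑ v ∈ Gr, Y.aC Gr (b k) (w k) h q v ^ 2) :=
    fun h q k => f2 (Sum.inr (Sum.inr (Sum.inl (ULift.up h, q))), ULift.up k) k
  have t3 : ∀ q k, |∑ v ∈ Gr, Y.aF (w k) q v * ((if L v = k then 1 else 0) - π (side v) k)| ≤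
      X * Real.sqrt (∑ v ∈ Gr, Y.aF (w k) q v ^ 2) :=
    fun q k => f2 (Sum.inr (Sum.inr (Sum.inr q)), ULift.up k) k
  -- the functionals
  have g1 : ∀ l i j, |∑ v ∈ Gr.filter (fun v => side v = i),
      ((if L v = j then 1 else 0) - π i j) * u l v| ≤ C0 * U l i := by
    intro l i j
    have h := f1 i ⟨l, by have := l.2; omega⟩ j
    simp only [hW1, hW2, l.2, dif_pos] at h
    exact h
  have g2 : ∀ k i j, |∑ v ∈ Gr.filter (fun v => side v = i),
      ((if L v = j then 1 else 0) - π i j) * s k v| ≤ C0 * (2 * β * t) := by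
    intro k i j
    have h := f1 i ⟨m + k, by have := k.2; omega⟩ j
    have h1 : ¬ (m + (k : ℕ) < m) := by omega
    have h2 : m + (k : ℕ) - m < g := by have := k.2; omega
    simp only [hW1, hW2, h1, h2, dif_neg, dif_pos, not_false_eq_true] at h
    have h3 : (⟨m + (k : ℕ) - m, h2⟩ : Fin g) = k := Fin.ext (by simp)
    rw [h3] at h
    exact h
  have g3 : ∀ i j, |∑ v ∈ Gr.filter (fun v => side v = i),
      (((if L v = j then 1 else 0) : ℝ) - π i j)| ≤ C0 := by
    intro i j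
    have h := f1 i ⟨m + g, by omega⟩ j
    have h1 : ¬ (m + g < m) := by omega
    have h2 : ¬ (m + g - m < g) := by omega
    simp only [hW1, hW2, h1, h2, dif_neg, not_false_eq_true, mul_one] at h
    exact h
  -- PUSH
  have hpush : ∀ k, ∃ w' : E → ℝ,
      (∀ n, Y.vx n ∈ Gr → w' (Y.ed n) = w k (Y.ed n) * (1 + (mu g Gr L k (Y.vx n) - 1))) ∧
      (∀ n, Y.noG Gr n → |w' (Y.ed n) - w k (Y.ed n)| ≤
        dlt β c K t wr D0 E0 δ (2 * κ0) * b k (Y.ed n)) ∧
      (∀ p, ¬ Y.isR p → |∑ n with Y.pu n = some p, (w' (Y.ed n) - w k (Y.ed n))| ≤ δ) ∧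
      ∀ q, |∑ n with Y.row (Y.vx n) = some q, (w' (Y.ed n) - w k (Y.ed n)) -
        ∑ v ∈ Gr.filter (fun v => Y.row v = some q), (mu g Gr L k v - 1) *
          ∑ n with Y.vx n = v, w k (Y.ed n)| ≤ rer β c K t wh wr E0 δ (2 * κ0) MR := by
    intro k
    refine hP Y par Gr (b k) (w k) (fun v => mu g Gr L k v - 1)
      (fun v => -((g : ℝ) / (g - 1)) * (π (side v) k - 1 / g)) β c K t wh wr D0 E0 δ (2 * κ0) MR
      hn (by linarith) hH.Mr0 hH.ok
      ⟨hH.dis, hH.b0 k, fun e => ?_, hH.tv, hH.ph, hH.wh, hH.wr, hH.Dh, hH.Dr, hH.Er, hH.mass k,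
        hH.Mr, fun v => eb_le hg (πκ _ _), fun p => ?_, fun h q => ?_, fun q => ?_⟩
    · have h1 := hH.w0 k e
      have h2 := (hH.b0 k e).1
      have h3 : ε * b k e ≤ 1 / 2 * b k e := mul_le_mul_of_nonneg_right hH.ε1 h2
      linarith
    · exact tst_of hg hK (Real.sqrt_nonneg _) (t1 p k)
    · exact tst_of hg hK (Real.sqrt_nonneg _) (t2 h q k)
    · exact tst_of hg hK (Real.sqrt_nonneg _) (t3 q k)
  choose w1 p1 p2 p3 p4 using hpush
  set w' : Fin g → E → ℝ := fun k e => if ∃ n, Y.ed n = e then w1 k e else w k e with hw'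
  have hw'n : ∀ k n, w' k (Y.ed n) = w1 k (Y.ed n) := by
    intro k n
    simp only [hw']
    rw [if_pos ⟨n, rfl⟩]
  have hd0 := dlt_nonneg hn (by linarith : (0 : ℝ) ≤ 2 * κ0)
  refine ⟨L, w', fun k e => ?_, fun k p hp => ?_, fun k q => ?_, fun q k => ?_, fun l i k => ?_,
    fun i j => ?_, f3⟩
  · have hb := (hH.b0 k e).1
    by_cases he : ∃ n, Y.ed n = e
    · obtain ⟨n, rfl⟩ := he
      rw [hw'n]
      by_cases hG : ∃ n', Y.ed n' = Y.ed n ∧ Y.vx n' ∈ Gr
      · obtain ⟨n', h1, h2⟩ := hG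
        have hm0 := mu_nonneg hg Gr L k (Y.vx n')
        rw [← h1, bas_in hH.ok hH.dis L b k h2, p1 k n' h2, add_sub_cancel, ← sub_mul, abs_mul,
          abs_of_nonneg hm0, ← mul_assoc]
        refine mul_le_mul_of_nonneg_right ?_ hm0
        refine (hH.w0 k _).trans ?_
        rw [← h1] at hb
        nlinarith
      · have hno : Y.noG Gr n := by
          refine ⟨fun h => hG ⟨n, rfl, h⟩, fun n' hm h => hG ⟨n', (hH.ok.m1 n n' hm).2.1, h⟩⟩
        rw [bas_out hH.ok L b k hno]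
        have h1 := p2 k n hno
        have h2 := hH.w0 k (Y.ed n)
        have h3 := abs_add_le (w1 k (Y.ed n) - w k (Y.ed n)) (w k (Y.ed n) - b k (Y.ed n))
        rw [sub_add_sub_cancel] at h3
        linarith
    · have h1 : ∀ n, Y.ed n ≠ e := fun n h => he ⟨n, h⟩
      simp only [hw']
      rw [if_neg he, bas_none L b k h1]
      refine (hH.w0 k e).trans ?_
      nlinarith
  · simp only [hw'n]
    exact p3 k p hp
  · simp only [hw'n]
    have h1 := p4 k q
    have h2 : |∑ v ∈ Gr.filter (fun v => Y.row v = some q), (mu g Gr L k v - 1) *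
        ∑ n with Y.vx n = v, w k (Y.ed n)| ≤ 4 * C0 * β * t + 4 * κ0 * β * MR := by
      by_cases he : ∃ v, Y.row v = some q
      · obtain ⟨v0, hv0⟩ := he
        have h3 : Gr.filter (fun v => Y.row v = some q) =
            Gr.filter (fun v => side v = side v0) := by
          refine filter_congr fun v _ => ?_
          constructor
          · exact fun h => hH.sr v v0 q h hv0
          · intro h
            rw [hH.rs v v0 h]
            exact hv0
        have h4 : |∑ v ∈ Gr.filter (fun v => side v = side v0), s k v *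
            ((if L v = k then 1 else 0) - π (side v) k)| ≤ C0 * (2 * β * t) := by
          refine le_trans (le_of_eq ?_) (g2 k (side v0) k)
          congr 1
          refine sum_congr rfl fun v hv => ?_
          rw [(mem_filter.1 hv).2, mul_comm]
        have h5 := lin_of hg (filter_subset _ Gr) πκ (le_refl (2 * (C0 * (2 * β * t)))) h4
        have h6 : ∑ v ∈ Gr.filter (fun v => side v = side v0), |s k v| ≤ 2 * β * MR := by
          have h7 : ∀ v, |s k v| ≤ ∑ n with Y.vx n = v, 2 * β := fun v =>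
            (abs_sum_le_sum_abs _ _).trans (sum_le_sum fun n _ => hw3 k _)
          refine (sum_le_sum fun v _ => h7 v).trans ?_
          rw [← h3]
          have h8 : ∑ v ∈ Gr.filter (fun v => Y.row v = some q),
              ∑ n with Y.vx n = v, 2 * β ≤ ∑ n with Y.row (Y.vx n) = some q, 2 * β := by
            rw [← sum_fiberwise_of_maps_to (s := univ.filter fun n => Y.row (Y.vx n) = some q)
              (t := univ.filter fun v => Y.row v = some q) (g := fun n => Y.vx n)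
              (fun n hn => mem_filter.2 ⟨mem_univ _, (mem_filter.1 hn).2⟩)]
            refine (sum_le_sum_of_subset_of_nonneg (filter_subset_filter _ (subset_univ Gr))
              fun v _ _ => sum_nonneg fun n _ => by linarith).trans (le_of_eq ?_)
            refine sum_congr rfl fun v hv => ?_
            refine sum_congr ?_ fun _ _ => rfl
            ext n
            simp only [mem_filter, mem_univ, true_and]
            constructor
            · intro h
              exact ⟨by rw [h]; exact (mem_filter.1 hv).2, h⟩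
            · exact fun h => h.2
          refine h8.trans ?_
          rw [sum_const, nsmul_eq_mul, mul_comm]
          exact mul_le_mul_of_nonneg_left (hH.Mr q) (by linarith)
        rw [h3]
        have h9 : ∑ v ∈ Gr.filter (fun v => side v = side v0), (mu g Gr L k v - 1) *
            ∑ n with Y.vx n = v, w k (Y.ed n) =
            ∑ v ∈ Gr.filter (fun v => side v = side v0), s k v * (mu g Gr L k v - 1) :=
          sum_congr rfl fun v _ => mul_comm _ _
        rw [h9]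
        refine h5.trans ?_
        have h10 : 2 * κ0 * ∑ v ∈ Gr.filter (fun v => side v = side v0), |s k v| ≤
            2 * κ0 * (2 * β * MR) := mul_le_mul_of_nonneg_left h6 (by linarith)
        linarith
      · rw [filter_false_of_mem (fun v _ hv => he ⟨v, hv⟩), sum_empty, abs_zero]
        have := hH.Mr0
        positivity
    have h3 := abs_add_le (∑ n with Y.row (Y.vx n) = some q, (w1 k (Y.ed n) - w k (Y.ed n)) -
        ∑ v ∈ Gr.filter (fun v => Y.row v = some q), (mu g Gr L k v - 1) *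
          ∑ n with Y.vx n = v, w k (Y.ed n))
      (∑ v ∈ Gr.filter (fun v => Y.row v = some q), (mu g Gr L k v - 1) *
          ∑ n with Y.vx n = v, w k (Y.ed n))
    rw [sub_add_cancel] at h3
    linarith
  · refine lin_of hg (Subset.refl Gr) πκ (X := X * Real.sqrt (∑ v ∈ Gr, a q k v ^ 2)) ?_ (t0 q k)
    rw [← mul_assoc]
    exact mul_le_mul_of_nonneg_right hK (Real.sqrt_nonneg _)
  · have h4 : |∑ v ∈ Gr.filter (fun v => side v = i), u l v *
        ((if L v = k then 1 else 0) - π (side v) k)| ≤ C0 * U l i := by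
      refine le_trans (le_of_eq ?_) (g1 l i k)
      congr 1
      refine sum_congr rfl fun v hv => ?_
      rw [(mem_filter.1 hv).2, mul_comm]
    have h5 := lin_of' hg (filter_subset (fun v => side v = i) Gr) (a := u l) (k := k)
      (κ := |π i k - 1 / g|) (fun v hv => by rw [(mem_filter.1 hv).2]) h4
    have h6 : ∑ v ∈ Gr.filter (fun v => side v = i), |u l v| ≤
        (Gr.filter fun v => side v = i).card * U l i := by
      rw [← nsmul_eq_mul]
      refine sum_le_card_nsmul _ _ _ fun v hv => ?_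
      have := hu l v
      rwa [(mem_filter.1 hv).2] at this
    have h7 : |π i k - 1 / g| * ∑ v ∈ Gr.filter (fun v => side v = i), |u l v| ≤ Kc * U l i := by
      refine (mul_le_mul_of_nonneg_left h6 (abs_nonneg _)).trans ?_
      rw [← mul_assoc]
      exact mul_le_mul_of_nonneg_right (πc i k) (hU l i)
    linarith
  · refine le_trans (le_of_eq ?_) (g3 i j)
    congr 1
    rw [sum_sub_distrib, sum_const, nsmul_eq_mul, sum_boole, filter_filter]

end Pool.Agent.Work.MP_db9399_ts.helper55
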