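import Pool.Agent.Work.MP_db9399_ts_helper55.Coef

/-!
# MP_db9399, PHASE, part E: the step from round `γ` to round `γ + 1` (helper55)
-/

set_option autoImplicit false
set_option linter.unusedSectionVars false

namespace Pool.Agent.Work.MP_db9399_ts.helper55

open Finset Classical

universe u

variable {E V P R N ι τ σ : Type u}

/-- vertices labelled before the round `γ` -/
noncomputable def Tg (T : Finset V) (gr : V → Fin 3) (γ : ℕ) : Finset V :=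
  T.filter fun v => (gr v : ℕ) < γ

/-- the group `ρ` -/
noncomputable def Gg (T : Finset V) (gr : V → Fin 3) (ρ : Fin 3) : Finset V :=
  T.filter fun v => gr v = ρ

theorem tg_disj (T : Finset V) (gr : V → Fin 3) (ρ : Fin 3) : Disjoint (Tg T gr ρ) (Gg T gr ρ) := by
  rw [disjoint_left]
  intro v h h'
  have h1 := (mem_filter.1 h).2
  rw [(mem_filter.1 h').2] at h1
  exact lt_irrefl _ h1

theorem tg_succ (T : Finset V) (gr : V → Fin 3) (ρ : Fin 3) :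
    Tg T gr (ρ + 1) = Tg T gr ρ ∪ Gg T gr ρ := by
  ext v
  simp only [Tg, Gg, mem_filter, mem_union]
  constructor
  · rintro ⟨h1, h2⟩
    rcases Nat.lt_succ_iff_lt_or_eq.1 h2 with h | h
    · exact Or.inl ⟨h1, h⟩
    · exact Or.inr ⟨h1, Fin.ext h⟩
  · rintro (⟨h1, h2⟩ | ⟨h1, h2⟩)
    · exact ⟨h1, Nat.lt_succ_of_lt h2⟩
    · exact ⟨h1, by rw [h2]; exact Nat.lt_succ_self _⟩

/-- numbers -/
structure Par where
  (β cc K t wh wr D0 E0 δ κ MR DM DT Sp Λ ε0 Kc x ρ : ℝ)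
  J : ℕ

/-- inequalities between the numbers -/
structure Par.Ok (q : Par) (g : ℕ) (C0 : ℝ) : Prop where
  num : Num (4 * q.β) (q.cc / 2) q.K q.t q.wh q.wr q.D0 q.E0 q.δ
  κ0 : 0 ≤ q.κ
  ε0 : 0 ≤ q.ε0
  ε1 : q.ε0 + 3 * q.x ≤ 1 / 2
  x0 : dlt (4 * q.β) (q.cc / 2) q.K q.t q.wr q.D0 q.E0 q.δ (2 * q.κ) ≤ q.x
  ρ0 : rer (4 * q.β) (q.cc / 2) q.K q.t q.wh q.wr q.E0 q.δ (2 * q.κ) q.MR +
    4 * C0 * (4 * q.β) * q.t + 4 * q.κ * (4 * q.β) * q.MR ≤ q.ρ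
  DT0 : 0 ≤ q.DT
  S0 : q.DT ≤ q.Sp
  S1 : q.DM * 2 ≤ q.Sp
  S2 : q.MR * q.DM ≤ q.Sp
  S3 : q.MR ≤ q.Sp
  Λ0 : 0 ≤ q.Λ
  L : C0 * Real.exp (-q.Λ) * (q.Sp + 1) * (g * ((q.DT + (g * q.DT + (g * q.DT +
    q.t * (2 * 3)))) + (q.t + (q.t * (q.DM * 2) + q.t))) + 1) ≤ 1
  K0 : 2 * (C0 * ((q.J + 1) * (Real.sqrt q.Λ + 1))) ≤ q.K
  n1 : q.K ^ 2 * (4 * q.β * (2 * (4 * q.β))) ≤ (q.cc / 12) ^ 2 * q.D0
  n2 : q.K ^ 2 * (2 * (4 * q.β) * q.t * (2 * (4 * q.β))) ≤ (q.cc / 12) ^ 2 * q.E0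
  n3 : 2 * q.κ * (2 * (4 * q.β)) ≤ q.cc / 12

/-- hypotheses which do not change -/
structure Bs [Fintype V] [Fintype N] (Y : Sys E V P R N) (par : R → Prop) (T : Finset V)
    (gr : V → Fin 3) (side : V → ι) (q : Par) : Prop where
  ok : Y.Ok par
  gd : ∀ n n', Y.mt n = some n' → Y.vx n ∈ T → Y.vx n' ∈ T → gr (Y.vx n) ≠ gr (Y.vx n')
  tv : ∀ v, ((univ.filter fun n => Y.vx n = v).card : ℝ) ≤ q.t
  ph : ∀ p v, ¬ Y.isR p → (univ.filter fun n => Y.pu n = some p ∧ Y.vx n = v).card ≤ 1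
  wh : ∀ p r, ¬ Y.isR p →
    ((univ.filter fun n => Y.pu n = some p ∧ Y.row (Y.vx n) = some r).card : ℝ) ≤ q.wh
  wr : ∀ p r, Y.isR p →
    ((univ.filter fun n => Y.pu n = some p ∧ Y.row (Y.vx n) = some r).card : ℝ) ≤ q.wr
  Dh : ∀ n p, Y.pu n = some p → ¬ Y.isR p → q.D0 ≤ Y.D p
  Dr : ∀ n p, Y.pu n = some p → Y.isR p → q.E0 ≤ Y.D p
  Er : ∀ r, ¬ par r → ((univ.filter fun n => ∃ n', Y.mt n = some n' ∧
    Y.row (Y.vx n') = some r).card : ℝ) ≤ q.E0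
  Mr : ∀ r, ((univ.filter fun n => Y.row (Y.vx n) = some r).card : ℝ) ≤ q.MR
  Mr0 : 0 ≤ q.MR
  DA : ∀ p, Y.D p ≤ q.DM
  DA0 : 0 ≤ q.DM
  rs : ∀ v v', side v = side v' → Y.row v = Y.row v'
  sr : ∀ v v' r, Y.row v = some r → Y.row v' = some r → side v = side v'

/-- hypotheses on the tests and functionals -/
structure Ts [Fintype V] [Fintype τ] [Fintype σ] (T : Finset V) (gr : V → Fin 3) (side : V → ι)
    (g m : ℕ) (u : Fin m → (V → Fin g) → V → ℝ) (U : Fin m → ι → ℝ) (α : τ → V → ℝ)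
    (G : σ → V → V → ℝ) (q : Par) : Prop where
  hu : ∀ l L v, |u l L v| ≤ U l (side v)
  hU : ∀ l i, 0 ≤ U l i
  ua : ∀ l L L' v, (∀ v', v' ∈ T → gr v' < gr v → L v' = L' v') → u l L v = u l L' v
  hα : SM α q.DT q.DT
  G0 : ∀ s v v', 0 ≤ G s v v'
  G1 : ∀ s v v', G s v v' ≠ 0 → v ∈ T ∧ v' ∈ T ∧ gr v ≠ gr v'
  Gs : ∀ s, ((univ.filter fun v => ∃ v', G s v v' ≠ 0 ∨ G s v' v ≠ 0).card : ℝ) ≤ q.DT
  Gm : ∀ v, ((univ.filter fun s => ∃ v', G s v v' ≠ 0 ∨ G s v' v ≠ 0).card : ℝ) ≤ q.DT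
  hJ : ∀ i, (univ.filter fun v => side v = i).card < 2 ^ q.J

/-- the state before round `γ` -/
structure St [Fintype V] [Fintype N] (Y : Sys E V P R N) (T : Finset V) (gr : V → Fin 3)
    (side : V → ι) (g m : ℕ) (b w : Fin g → E → ℝ) (u : Fin m → (V → Fin g) → V → ℝ)
    (U : Fin m → ι → ℝ) (α : τ → V → ℝ) (G : σ → V → V → ℝ) (q : Par) (C0 : ℝ) (γ : ℕ)
    (L : V → Fin g) (w' : Fin g → E → ℝ) : Prop where
  s1 : ∀ k e, |w' k e - bas Y g (Tg T gr γ) L b k e| ≤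
    (q.ε0 + γ * q.x) * bas Y g (Tg T gr γ) L b k e
  s2 : ∀ k p, ¬ Y.isR p → |∑ n with Y.pu n = some p, (w' k (Y.ed n) - w k (Y.ed n))| ≤ γ * q.δ
  s3 : ∀ k r, |∑ n with Y.row (Y.vx n) = some r, (w' k (Y.ed n) - w k (Y.ed n))| ≤ γ * q.ρ
  s4 : ∀ s k, |∑ v ∈ Tg T gr γ, α s v * (mu g (Tg T gr γ) L k v - 1)| ≤
    γ * (q.K * Real.sqrt (∑ v ∈ T, α s v ^ 2) + 2 * q.κ * ∑ v ∈ T, |α s v|)
  s5 : ∀ s k k', |∑ v, ∑ v', G s v v' * (mu g (Tg T gr γ) L k v * mu g (Tg T gr γ) L k' v' - 1)| ≤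
    γ * (4 * q.K * Real.sqrt (∑ v, (∑ v', (G s v v' + G s v' v)) ^ 2) +
      8 * q.κ * ∑ v, ∑ v', G s v v')
  s6 : ∀ l i k (ρ : Fin 3), (ρ : ℕ) < γ → |∑ v ∈ (Gg T gr ρ).filter (fun v => side v = i),
    u l L v * (mu g T L k v - 1)| ≤ (2 * C0 + 2 * q.Kc) * U l i
  s8 : ∀ k p (ρ : Fin 3), γ ≤ (ρ : ℕ) → (q.cc - γ * (q.cc / 6)) * Y.D p ≤
    ∑ n with Y.pu n = some p ∧ Y.noG (Gg T gr ρ) n, bas Y g (Tg T gr γ) L b k (Y.ed n)

variable [Fintype E] [Fintype V] [Fintype P] [Fintype R] [Fintype N] [Fintype ι] [Fintype τ]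
  [Fintype σ]

/-- coefficients of the bilinear tests -/
noncomputable def bil (G : σ → V → V → ℝ) (M : V → ℝ) (s : σ) (v : V) : ℝ :=
  ∑ v', G s v v' * M v'

theorem bil_ne {G : σ → V → V → ℝ} {M : V → ℝ} {s : σ} {v : V}
    (h : bil G M s v ≠ 0) : ∃ v', G s v v' ≠ 0 := by
  obtain ⟨v', _, h0⟩ := exists_ne_zero_of_sum_ne_zero h
  refine ⟨v', fun h1 => h0 ?_⟩
  rw [h1, zero_mul]

theorem bil_abs {G : σ → V → V → ℝ} (G0 : ∀ s v v', 0 ≤ G s v v') {M : V → ℝ}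
    (hM : ∀ v, 0 ≤ M v ∧ M v ≤ 2) (s : σ) (v : V) :
    |bil G M s v| ≤ 2 * ∑ v', G s v v' := by
  unfold bil
  rw [mul_sum]
  refine (abs_sum_le_sum_abs _ _).trans (sum_le_sum fun v' _ => ?_)
  rw [abs_mul, abs_of_nonneg (G0 _ _ _), abs_of_nonneg (hM v').1, mul_comm]
  exact mul_le_mul_of_nonneg_right (hM v').2 (G0 _ _ _)

/-- the change of the bilinear form in one round -/
theorem bil_step {g : ℕ} {T : Finset V} {gr : V → Fin 3} {G : σ → V → V → ℝ}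
    (G1 : ∀ s v v', G s v v' ≠ 0 → v ∈ T ∧ v' ∈ T ∧ gr v ≠ gr v') (ρ : Fin 3) {L Lr L' : V → Fin g}
    (h0 : ∀ v ∈ Tg T gr ρ, L' v = L v) (h1 : ∀ v ∈ Gg T gr ρ, L' v = Lr v) (s : σ) (k k' : Fin g) :
    ∑ v, ∑ v', G s v v' * (mu g (Tg T gr (ρ + 1)) L' k v * mu g (Tg T gr (ρ + 1)) L' k' v' - 1) =
      ∑ v, ∑ v', G s v v' * (mu g (Tg T gr ρ) L k v * mu g (Tg T gr ρ) L k' v' - 1) +
      (∑ v ∈ Gg T gr ρ, bil G (fun v => mu g (Tg T gr ρ) L k' v) s v *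
        (mu g (Gg T gr ρ) Lr k v - 1) +
      ∑ v ∈ Gg T gr ρ, bil (fun s v v' => G s v' v) (fun v => mu g (Tg T gr ρ) L k v) s v *
        (mu g (Gg T gr ρ) Lr k' v - 1)) := by
  have hmu : ∀ k v, mu g (Tg T gr (ρ + 1)) L' k v =
      mu g (Tg T gr ρ) L k v * mu g (Gg T gr ρ) Lr k v := by
    intro k v
    rw [tg_succ]
    exact mu_union (tg_disj T gr ρ) h0 h1 k v
  have hGin : ∀ k, ∀ v ∈ Gg T gr ρ, mu g (Tg T gr ρ) L k v = 1 := fun k v hv =>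
    mu_off L k fun h => disjoint_left.1 (tg_disj T gr ρ) h hv
  have h2 : ∀ v v', G s v v' *
      (mu g (Tg T gr (ρ + 1)) L' k v * mu g (Tg T gr (ρ + 1)) L' k' v' - 1) =
      G s v v' * (mu g (Tg T gr ρ) L k v * mu g (Tg T gr ρ) L k' v' - 1) +
      (G s v v' * mu g (Tg T gr ρ) L k' v' * (mu g (Gg T gr ρ) Lr k v - 1) +
        G s v v' * mu g (Tg T gr ρ) L k v * (mu g (Gg T gr ρ) Lr k' v' - 1)) := by
    intro v v'
    by_cases hG : G s v v' = 0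
    · rw [hG]
      ring
    · obtain ⟨a1, a2, a3⟩ := G1 s v v' hG
      rw [hmu, hmu]
      by_cases hv : v ∈ Gg T gr ρ
      · have hv' : v' ∉ Gg T gr ρ := fun h => a3 (by
          rw [(mem_filter.1 hv).2, (mem_filter.1 h).2])
        rw [hGin k v hv, mu_off Lr k' hv']
        ring
      · rw [mu_off Lr k hv]
        by_cases hv' : v' ∈ Gg T gr ρ
        · rw [hGin k' v' hv']
          ring
        · rw [mu_off Lr k' hv']
          ring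
  have h3 : ∀ (k : Fin g) (f : V → ℝ), ∑ v ∈ Gg T gr ρ, f v * (mu g (Gg T gr ρ) Lr k v - 1) =
      ∑ v, f v * (mu g (Gg T gr ρ) Lr k v - 1) := by
    intro k f
    refine sum_subset (subset_univ _) fun v _ hv => ?_
    rw [mu_off Lr k hv, sub_self, mul_zero]
  have h4 : ∀ v, bil G (fun v => mu g (Tg T gr ρ) L k' v) s v *
        (mu g (Gg T gr ρ) Lr k v - 1) =
      ∑ v', G s v v' * mu g (Tg T gr ρ) L k' v' * (mu g (Gg T gr ρ) Lr k v - 1) := by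
    intro v
    unfold bil
    rw [sum_mul]
  have h5 : ∀ v, bil (fun s v v' => G s v' v) (fun v => mu g (Tg T gr ρ) L k v) s v *
        (mu g (Gg T gr ρ) Lr k' v - 1) =
      ∑ v', G s v' v * mu g (Tg T gr ρ) L k v' * (mu g (Gg T gr ρ) Lr k' v - 1) := by
    intro v
    unfold bil
    rw [sum_mul]
  rw [h3, h3]
  simp only [h2, h4, h5, sum_add_distrib]
  congr 2
  rw [sum_comm]

end Pool.Agent.Work.MP_db9399_ts.helper55
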