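import Pool.Agent.Work.MP_db9399_ts_helper55.Step

/-!
# MP_db9399, PHASE, part F: proof of the step (helper55)
-/

set_option autoImplicit false
set_option linter.unusedSectionVars false

namespace Pool.Agent.Work.MP_db9399_ts.helper55

open Finset Classical

universe u

variable {E V P R N ι τ σ : Type u}

variable [Fintype E] [Fintype V] [Fintype P] [Fintype R] [Fintype N] [Fintype ι] [Fintype τ]
  [Fintype σ]

theorem sm_mono {κ V : Type u} [Fintype V] [Fintype κ] {a : κ → V → ℝ} {S M S' M' : ℝ}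
    (h : SM a S M) (hS : S ≤ S') (hM : M ≤ M') : SM a S' M' :=
  ⟨fun q => (h.1 q).trans hS, fun v => (h.2 v).trans hM⟩

/-- relative loss of a mass in one round -/
theorem mass_loss {Y : Sys E V P R N} {par : R → Prop} {T : Finset V} {gr : V → Fin 3}
    {side : V → ι} {g : ℕ} {C0 : ℝ} {q : Par} (hq : q.Ok g C0) (hB : Bs Y par T gr side q)
    {b : E → ℝ} (hb : ∀ e, 0 ≤ b e ∧ b e ≤ 4 * q.β) {p : P} {S : Finset N}
    (hS : ∀ n ∈ S, Y.pu n = some p) (Gr : Finset V) :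
    q.K * Real.sqrt (∑ v ∈ Gr, cof Y S b v ^ 2) + 2 * q.κ * ∑ v ∈ Gr, |cof Y S b v| ≤
      q.cc / 6 * Y.D p := by
  have hβ : 0 < q.β := by have := hq.num.β; linarith
  have hcc : 0 < q.cc := by have := hq.num.c; linarith
  have hK : 0 < q.K := by have := hq.num.K; linarith
  have hD : 0 ≤ Y.D p := Nat.cast_nonneg _
  have ht : 0 ≤ q.t := by have := hq.num.t; linarith
  have h1 : ∑ v ∈ Gr, |cof Y S b v| ≤ 2 * (4 * q.β) * Y.D p := by
    calc ∑ v ∈ Gr, |cof Y S b v| ≤ ∑ v, |cof Y S b v| :=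
          sum_le_sum_of_subset_of_nonneg (subset_univ _) fun _ _ _ => abs_nonneg _
      _ = ∑ v, cof Y S b v := sum_congr rfl fun v _ =>
          abs_of_nonneg (cof_nonneg (fun e => (hb e).1) v)
      _ ≤ _ := cof_sum hB.ok hb hS
  have h2 : 2 * q.κ * ∑ v ∈ Gr, |cof Y S b v| ≤ q.cc / 12 * Y.D p := by
    have h3 := mul_le_mul_of_nonneg_left h1 (by linarith [hq.κ0] : (0 : ℝ) ≤ 2 * q.κ)
    have h4 := mul_le_mul_of_nonneg_right hq.n3 hD
    linarith
  have h5 : q.K * Real.sqrt (∑ v ∈ Gr, cof Y S b v ^ 2) ≤ q.cc / 12 * Y.D p := by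
    by_cases hS0 : S = ∅
    · have h6 : ∀ v, cof Y S b v = 0 := by
        intro v
        unfold cof
        rw [hS0, sum_empty]
      have h7 : ∑ v ∈ Gr, cof Y S b v ^ 2 = 0 := sum_eq_zero fun v _ => by rw [h6]; ring
      rw [h7, Real.sqrt_zero, mul_zero]
      positivity
    · obtain ⟨n, hn⟩ := nonempty_iff_ne_empty.2 hS0
      have key : ∀ M D0 : ℝ, 0 ≤ M → (∀ v, cof Y S b v ≤ M) → D0 ≤ Y.D p →
          q.K ^ 2 * (M * (2 * (4 * q.β))) ≤ (q.cc / 12) ^ 2 * D0 →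
          q.K * Real.sqrt (∑ v ∈ Gr, cof Y S b v ^ 2) ≤ q.cc / 12 * Y.D p := by
        intro M D0 hM hmax hD0 hnum
        have h8 := cof_sq hB.ok hM hb hS hmax Gr
        rw [← abs_of_nonneg (by positivity : 0 ≤ q.cc / 12 * Y.D p), ← Real.sqrt_sq_eq_abs]
        have h9 : q.K * Real.sqrt (∑ v ∈ Gr, cof Y S b v ^ 2) =
            Real.sqrt (q.K ^ 2 * ∑ v ∈ Gr, cof Y S b v ^ 2) := by
          rw [Real.sqrt_mul (sq_nonneg _), Real.sqrt_sq hK.le]
        rw [h9]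
        refine Real.sqrt_le_sqrt ?_
        calc q.K ^ 2 * ∑ v ∈ Gr, cof Y S b v ^ 2 ≤ q.K ^ 2 * (M * (2 * (4 * q.β) * Y.D p)) :=
              mul_le_mul_of_nonneg_left h8 (sq_nonneg _)
          _ = q.K ^ 2 * (M * (2 * (4 * q.β))) * Y.D p := by ring
          _ ≤ (q.cc / 12) ^ 2 * D0 * Y.D p := mul_le_mul_of_nonneg_right hnum hD
          _ ≤ (q.cc / 12) ^ 2 * Y.D p * Y.D p := by
              refine mul_le_mul_of_nonneg_right (mul_le_mul_of_nonneg_left hD0 (sq_nonneg _)) hD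
          _ = _ := by ring
      by_cases hp : Y.isR p
      · exact key (2 * (4 * q.β) * q.t) q.E0 (by positivity)
          (fun v => cof_max hB.ok (by positivity) hb hB.tv v) (hB.Dr n p (hS n hn) hp) hq.n2
      · exact key (4 * q.β) q.D0 (by positivity)
          (fun v => cof_max_h hB.ok (by positivity) hb hp hB.ph hS v) (hB.Dh n p (hS n hn) hp) hq.n1
  linarith

/-- the step -/
theorem step (hP : Stmt_PUSH.{u}) {g m : ℕ} (hg : 2 ≤ g) {C0 : ℝ} (hC0 : 1 ≤ C0)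
    (hX : LabX.{u} (m + g + 1) g C0) {Y : Sys E V P R N} {par : R → Prop} {T : Finset V}
    {gr : V → Fin 3} {side : V → ι} {b w : Fin g → E → ℝ} {u : Fin m → (V → Fin g) → V → ℝ}
    {U : Fin m → ι → ℝ} {α : τ → V → ℝ} {G : σ → V → V → ℝ} {q : Par} (hq : q.Ok g C0)
    (hB : Bs Y par T gr side q) (hT : Ts T gr side g m u U α G q)
    (hb : ∀ k e, 0 ≤ b k e ∧ b k e ≤ q.β) (ρ : Fin 3) (π : ι → Fin g → ℝ)
    (π0 : ∀ i j, 0 ≤ π i j) (π1 : ∀ i, ∑ j, π i j = 1) (πκ : ∀ i j, |π i j - 1 / g| ≤ q.κ)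
    (πc : ∀ i j, |π i j - 1 / g| * (((Gg T gr ρ).filter fun v => side v = i).card : ℝ) ≤ q.Kc)
    {L : V → Fin g} {w' : Fin g → E → ℝ} (hS : St Y T gr side g m b w u U α G q C0 ρ L w') :
    ∃ (L' : V → Fin g) (w'' : Fin g → E → ℝ),
      St Y T gr side g m b w u U α G q C0 (ρ + 1) L' w'' ∧
      (∀ v, v ∉ Gg T gr ρ → L' v = L v) ∧
      (∀ i j, |(((Gg T gr ρ).filter fun v => side v = i ∧ L' v = j).card : ℝ) -
        ((Gg T gr ρ).filter fun v => side v = i).card * π i j| ≤ C0) ∧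
      ∀ i, (∀ j, ∃ r : ℕ, (((Gg T gr ρ).filter fun v => side v = i).card : ℝ) * π i j = r) →
        ∀ j, (((Gg T gr ρ).filter fun v => side v = i ∧ L' v = j).card : ℝ) =
          (((Gg T gr ρ).filter fun v => side v = i).card : ℝ) * π i j := by
  have hβ : 0 < q.β := by have := hq.num.β; linarith
  have hcc : 0 < q.cc := by have := hq.num.c; linarith
  have hK : 0 < q.K := by have := hq.num.K; linarith
  have ht : 0 ≤ q.t := by have := hq.num.t; linarith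
  have hρ2 : ((ρ : ℕ) : ℝ) ≤ 2 := by
    have : (ρ : ℕ) ≤ 2 := by have := ρ.2; omega
    exact_mod_cast this
  have hρ0 : (0 : ℝ) ≤ ((ρ : ℕ) : ℝ) := Nat.cast_nonneg _
  have hx0 : 0 ≤ q.x := (dlt_nonneg hq.num (by linarith [hq.κ0])).trans hq.x0
  set Gr := Gg T gr ρ with hGr
  set b1 : Fin g → E → ℝ := bas Y g (Tg T gr ρ) L b with hb1
  have hb1' : ∀ k e, 0 ≤ b1 k e ∧ b1 k e ≤ 4 * q.β := fun k e =>
    ⟨bas_nonneg hg Y _ L (fun k e => (hb k e).1) k e, bas_le hg hB.ok _ L hb k e⟩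
  have hGT : Gr ⊆ T := filter_subset _ _
  have hdis : ∀ n n', Y.mt n = some n' → Y.vx n ∈ Gr → Y.vx n' ∉ Gr := by
    intro n n' h h1 h2
    exact hB.gd n n' h (hGT h1) (hGT h2) (by rw [(mem_filter.1 h1).2, (mem_filter.1 h2).2])
  -- sets of ends for the masses
  set S : P → Fin 3 → Finset N := fun p ρ' =>
    univ.filter fun n => Y.pu n = some p ∧ Y.noG (Gg T gr ρ') n with hSd
  have hSS : ∀ p ρ', ∀ n ∈ S p ρ', Y.pu n = some p := fun p ρ' n hn => (mem_filter.1 hn).2.1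
  have hH : RH Y par Gr side g b1 w' (4 * q.β) (q.cc / 2) q.t q.wh q.wr q.D0 q.E0 q.MR
      (q.ε0 + ((ρ : ℕ) : ℝ) * q.x) q.DM := by
    refine ⟨hB.ok, hdis, hb1', hS.s1, ?_, ?_, hB.tv, hB.ph, hB.wh, hB.wr, hB.Dh, hB.Dr, hB.Er,
      fun k p => ?_, hB.Mr, hB.Mr0, hB.DA, hB.DA0, hB.rs, hB.sr⟩
    · have := hq.ε0
      positivity
    · have h1 := hq.ε1
      nlinarith
    · have h1 := hS.s8 k p ρ le_rfl
      have h2 : q.cc / 2 * Y.D p ≤ (q.cc - ((ρ : ℕ) : ℝ) * (q.cc / 6)) * Y.D p := by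
        refine mul_le_mul_of_nonneg_right ?_ (Nat.cast_nonneg _)
        nlinarith
      exact h2.trans h1
  -- tests
  set M : Fin g → V → ℝ := fun k v => mu g (Tg T gr ρ) L k v with hM
  have hM2 : ∀ k v, 0 ≤ M k v ∧ M k v ≤ 2 := fun k v =>
    ⟨mu_nonneg hg _ L k v, mu_le hg _ L k v⟩
  set a : (τ ⊕ ((σ × ULift.{u} (Fin g)) ⊕ ((σ × ULift.{u} (Fin g)) ⊕
      (P × ULift.{u} (Fin 3))))) → Fin g → V → ℝ := fun x k =>
    Sum.elim (fun s v => α s v) (Sum.elim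
      (fun (y : σ × ULift.{u} (Fin g)) v => bil G (M y.2.down) y.1 v)
      (Sum.elim (fun (y : σ × ULift.{u} (Fin g)) v =>
        bil (fun s v v' => G s v' v) (M y.2.down) y.1 v)
      (fun y v => cof Y (S y.1 y.2.down) (b1 k) v))) x with ha
  have hSM : ∀ k, SM (fun x v => a x k v) q.Sp
      (q.DT + (g * q.DT + (g * q.DT + q.t * (2 * 3)))) := by
    intro k
    have h1 : ∀ k', SM (fun s v => bil G (M k') s v) q.DT q.DT := by
      intro k'
      refine ⟨fun s => ?_, fun v => ?_⟩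
      · refine le_trans ?_ (hT.Gs s)
        exact_mod_cast card_le_card fun v hv => mem_filter.2 ⟨mem_univ _, by
          obtain ⟨v', hv'⟩ := bil_ne (mem_filter.1 hv).2
          exact ⟨v', Or.inl hv'⟩⟩
      · refine le_trans ?_ (hT.Gm v)
        exact_mod_cast card_le_card fun s hs => mem_filter.2 ⟨mem_univ _, by
          obtain ⟨v', hv'⟩ := bil_ne (mem_filter.1 hs).2
          exact ⟨v', Or.inl hv'⟩⟩
    have h1' : ∀ k', SM (fun s v => bil (fun s v v' => G s v' v) (M k') s v) q.DT q.DT := by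
      intro k'
      refine ⟨fun s => ?_, fun v => ?_⟩
      · refine le_trans ?_ (hT.Gs s)
        exact_mod_cast card_le_card fun v hv => mem_filter.2 ⟨mem_univ _, by
          obtain ⟨v', hv'⟩ := bil_ne (mem_filter.1 hv).2
          exact ⟨v', Or.inr hv'⟩⟩
      · refine le_trans ?_ (hT.Gm v)
        exact_mod_cast card_le_card fun s hs => mem_filter.2 ⟨mem_univ _, by
          obtain ⟨v', hv'⟩ := bil_ne (mem_filter.1 hs).2
          exact ⟨v', Or.inr hv'⟩⟩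
    have h2 := sm_cof hB.ok S hSS (b1 k) hB.tv hB.DA
    have h3 := sm_sum hT.hα (sm_sum (sm_prod h1) (sm_sum (sm_prod h1') h2 hq.S0 hq.S1)
      hq.S0 le_rfl) hq.S0 le_rfl
    have h4 : (fun x v => a x k v) = Sum.elim (fun s v => α s v) (Sum.elim
        (fun (y : σ × ULift.{u} (Fin g)) v => bil G (M y.2.down) y.1 v)
        (Sum.elim (fun (y : σ × ULift.{u} (Fin g)) v =>
          bil (fun s v v' => G s v' v) (M y.2.down) y.1 v)
        (fun (y : P × ULift.{u} (Fin 3)) v => cof Y (S y.1 y.2.down) (b1 k) v))) := rfl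
    rw [h4]
    exact h3
  have hMu0 : 0 ≤ q.DT + (g * q.DT + (g * q.DT + q.t * (2 * 3))) := by
    have := hq.DT0
    positivity
  have hDMS : q.DM ≤ q.Sp := by linarith [hq.S1, hB.DA0]
  obtain ⟨Lr, w'', r1, r2, r3, r4, r5, r6, r7⟩ := rnd hP hg hC0 hX Y par Gr side b1 w' hH hq.num
    π π0 π1 πκ hq.κ0 πc (fun l v => u l L v) U (fun l v => hT.hu l L v) hT.hU a hSM hMu0 hDMS
    hq.S2 hq.S3 hq.Λ0 hq.L hT.hJ hq.K0
  set L' : V → Fin g := fun v => if v ∈ Gr then Lr v else L v with hL'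
  have hL0 : ∀ v ∈ Tg T gr ρ, L' v = L v := by
    intro v hv
    simp only [hL']
    rw [if_neg (fun h => disjoint_left.1 (tg_disj T gr ρ) hv h)]
  have hL1 : ∀ v ∈ Gr, L' v = Lr v := by
    intro v hv
    simp only [hL']
    rw [if_pos hv]
  have hL2 : ∀ v, v ∉ Gr → L' v = L v := by
    intro v hv
    simp only [hL']
    rw [if_neg hv]
  have hbas : ∀ k e, bas Y g (Tg T gr (ρ + 1)) L' b k e = bas Y g Gr Lr b1 k e := by
    intro k e
    rw [tg_succ]
    exact bas_union Y (tg_disj T gr ρ) hL0 hL1 b k e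
  have hmu : ∀ k v, mu g (Tg T gr (ρ + 1)) L' k v =
      mu g (Tg T gr ρ) L k v * mu g Gr Lr k v := by
    intro k v
    rw [tg_succ]
    exact mu_union (tg_disj T gr ρ) hL0 hL1 k v
  have hmuG : ∀ k v, v ∈ Gr → mu g T L' k v = mu g Gr Lr k v := by
    intro k v hv
    unfold mu
    rw [if_pos hv, if_pos (hGT hv), hL1 v hv]
  have hcast : (((ρ : ℕ) + 1 : ℕ) : ℝ) = ((ρ : ℕ) : ℝ) + 1 := by push_cast; ring
  have hcard : ∀ i j, ((Gr.filter fun v => side v = i ∧ L' v = j).card : ℝ) =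
      ((Gr.filter fun v => side v = i ∧ Lr v = j).card : ℝ) := by
    intro i j
    congr 2
    refine filter_congr fun v hv => ?_
    rw [hL1 v hv]
  refine ⟨L', w'', ⟨fun k e => ?_, fun k p hp => ?_, fun k r => ?_, fun s k => ?_,
    fun s k k' => ?_,
    fun l i k ρ' hρ' => ?_, fun k p ρ' hρ' => ?_⟩, hL2, fun i j => ?_, fun i hi j => ?_⟩
  · rw [hbas, hcast]
    refine (r1 k e).trans (mul_le_mul_of_nonneg_right ?_
      (bas_nonneg hg Y _ _ (fun k e => (hb1' k e).1) k e))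
    linarith [hq.x0]
  · rw [hcast]
    have h1 : ∑ n with Y.pu n = some p, (w'' k (Y.ed n) - w k (Y.ed n)) =
        ∑ n with Y.pu n = some p, (w'' k (Y.ed n) - w' k (Y.ed n)) +
        ∑ n with Y.pu n = some p, (w' k (Y.ed n) - w k (Y.ed n)) := by
      rw [← sum_add_distrib]
      exact sum_congr rfl fun n _ => by ring
    rw [h1]
    refine (abs_add_le _ _).trans ?_
    linarith [r2 k p hp, hS.s2 k p hp]
  · rw [hcast]
    have h1 : ∑ n with Y.row (Y.vx n) = some r, (w'' k (Y.ed n) - w k (Y.ed n)) =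
        ∑ n with Y.row (Y.vx n) = some r, (w'' k (Y.ed n) - w' k (Y.ed n)) +
        ∑ n with Y.row (Y.vx n) = some r, (w' k (Y.ed n) - w k (Y.ed n)) := by
      rw [← sum_add_distrib]
      exact sum_congr rfl fun n _ => by ring
    rw [h1]
    refine (abs_add_le _ _).trans ?_
    linarith [r3 k r, hS.s3 k r, hq.ρ0]
  · rw [hcast]
    have h1 : ∑ v ∈ Tg T gr (ρ + 1), α s v * (mu g (Tg T gr (ρ + 1)) L' k v - 1) =
        ∑ v ∈ Tg T gr ρ, α s v * (mu g (Tg T gr ρ) L k v - 1) +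
        ∑ v ∈ Gr, α s v * (mu g Gr Lr k v - 1) := by
      rw [tg_succ, sum_union (tg_disj T gr ρ), ← tg_succ]
      congr 1
      · refine sum_congr rfl fun v hv => ?_
        rw [hmu, mu_off Lr k (fun h => disjoint_left.1 (tg_disj T gr ρ) hv h), mul_one]
      · refine sum_congr rfl fun v hv => ?_
        rw [hmu, mu_off L k (fun h => disjoint_left.1 (tg_disj T gr ρ) h hv), one_mul]
    rw [h1]
    refine (abs_add_le _ _).trans ?_
    have h2 := r4 (Sum.inl s) k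
    have h3 : |∑ v ∈ Gr, α s v * (mu g Gr Lr k v - 1)| ≤
        q.K * Real.sqrt (∑ v ∈ Gr, α s v ^ 2) + 2 * q.κ * ∑ v ∈ Gr, |α s v| := h2
    have h4 : ∑ v ∈ Gr, α s v ^ 2 ≤ ∑ v ∈ T, α s v ^ 2 :=
      sum_le_sum_of_subset_of_nonneg hGT fun _ _ _ => sq_nonneg _
    have h5 : ∑ v ∈ Gr, |α s v| ≤ ∑ v ∈ T, |α s v| :=
      sum_le_sum_of_subset_of_nonneg hGT fun _ _ _ => abs_nonneg _
    have h6 := mul_le_mul_of_nonneg_left (Real.sqrt_le_sqrt h4) hK.le
    have h7 := mul_le_mul_of_nonneg_left h5 (by linarith [hq.κ0] : (0 : ℝ) ≤ 2 * q.κ)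
    linarith [hS.s4 s k]
  · rw [hcast, bil_step hT.G1 ρ hL0 hL1 s k k']
    refine (abs_add_le _ _).trans ?_
    set Γ : ℝ := Real.sqrt (∑ v, (∑ v', (G s v v' + G s v' v)) ^ 2) with hΓ
    have key : ∀ (H : σ → V → V → ℝ) (f : V → ℝ), (∀ s v v', 0 ≤ H s v v') →
        (∀ v, ∑ v', H s v v' ≤ ∑ v', (G s v v' + G s v' v)) →
        (∑ v, ∑ v', H s v v' = ∑ v, ∑ v', G s v v') → (∀ v, |f v| ≤ 2 * ∑ v', H s v v') →
        q.K * Real.sqrt (∑ v ∈ Gr, f v ^ 2) + 2 * q.κ * ∑ v ∈ Gr, |f v| ≤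
          2 * q.K * Γ + 4 * q.κ * ∑ v, ∑ v', G s v v' := by
      intro H f H0 H1 H2 H3
      have h4 : ∑ v ∈ Gr, f v ^ 2 ≤ 2 ^ 2 * ∑ v, (∑ v', (G s v v' + G s v' v)) ^ 2 := by
        rw [mul_sum]
        refine (sum_le_sum_of_subset_of_nonneg (subset_univ Gr) fun _ _ _ => sq_nonneg _).trans
          (sum_le_sum fun v _ => ?_)
        have h : |f v| ≤ 2 * ∑ v', (G s v v' + G s v' v) := (H3 v).trans (by linarith [H1 v])
        rw [← mul_pow, ← sq_abs]
        exact pow_le_pow_left₀ (abs_nonneg _) h 2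
      have h5 : ∑ v ∈ Gr, |f v| ≤ 2 * ∑ v, ∑ v', G s v v' := by
        refine (sum_le_sum_of_subset_of_nonneg (subset_univ Gr) fun _ _ _ => abs_nonneg _).trans
          ((sum_le_sum fun v _ => H3 v).trans (le_of_eq ?_))
        rw [← mul_sum, H2]
      have h6 : q.K * Real.sqrt (∑ v ∈ Gr, f v ^ 2) ≤ 2 * q.K * Γ := by
        have h7 := Real.sqrt_le_sqrt h4
        rw [Real.sqrt_mul (by norm_num), Real.sqrt_sq (by norm_num : (0 : ℝ) ≤ 2)] at h7
        have h8 := mul_le_mul_of_nonneg_left h7 hK.le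
        linarith
      have h7 := mul_le_mul_of_nonneg_left h5 (by linarith [hq.κ0] : (0 : ℝ) ≤ 2 * q.κ)
      linarith
    have b1' := r4 (Sum.inr (Sum.inl (s, ULift.up k'))) k
    have b1 : |∑ v ∈ Gr, bil G (M k') s v * (mu g Gr Lr k v - 1)| ≤
        q.K * Real.sqrt (∑ v ∈ Gr, bil G (M k') s v ^ 2) +
          2 * q.κ * ∑ v ∈ Gr, |bil G (M k') s v| := b1'
    have b2' := r4 (Sum.inr (Sum.inr (Sum.inl (s, ULift.up k)))) k'
    have b2 : |∑ v ∈ Gr, bil (fun s v v' => G s v' v) (M k) s v * (mu g Gr Lr k' v - 1)| ≤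
        q.K * Real.sqrt (∑ v ∈ Gr, bil (fun s v v' => G s v' v) (M k) s v ^ 2) +
          2 * q.κ * ∑ v ∈ Gr, |bil (fun s v v' => G s v' v) (M k) s v| := b2'
    have c1 := key G (fun v => bil G (M k') s v) hT.G0 (fun v => sum_le_sum fun v' _ => by
      linarith [hT.G0 s v' v]) rfl (fun v => bil_abs hT.G0 (hM2 k') s v)
    have c2 := key (fun s v v' => G s v' v) (fun v => bil (fun s v v' => G s v' v) (M k) s v)
      (fun s v v' => hT.G0 s v' v) (fun v => sum_le_sum fun v' _ => by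
      linarith [hT.G0 s v v']) sum_comm (fun v => bil_abs (fun s v v' => hT.G0 s v' v) (hM2 k) s v)
    have d1 := abs_add_le (∑ v ∈ Gr, bil G (M k') s v * (mu g Gr Lr k v - 1))
      (∑ v ∈ Gr, bil (fun s v v' => G s v' v) (M k) s v * (mu g Gr Lr k' v - 1))
    have h8 := hS.s5 s k k'
    have e1 : |∑ v, ∑ v', G s v v' * (mu g (Tg T gr ρ) L k v * mu g (Tg T gr ρ) L k' v' - 1)| +
        |∑ v ∈ Gr, bil G (M k') s v * (mu g Gr Lr k v - 1) +
          ∑ v ∈ Gr, bil (fun s v v' => G s v' v) (M k) s v * (mu g Gr Lr k' v - 1)| ≤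
        (((ρ : ℕ) : ℝ) + 1) * (4 * q.K * Γ + 8 * q.κ * ∑ v, ∑ v', G s v v') := by
      linarith
    exact e1
  · rcases Nat.lt_succ_iff_lt_or_eq.1 hρ' with h | h
    · have h1 := hS.s6 l i k ρ' h
      refine le_trans (le_of_eq ?_) h1
      congr 1
      refine sum_congr rfl fun v hv => ?_
      have hv1 := (mem_filter.1 (mem_filter.1 hv).1)
      have hvG : v ∉ Gr := fun hh => by
        have h2 := (mem_filter.1 hh).2
        rw [hv1.2] at h2
        rw [h2] at h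
        exact lt_irrefl _ h
      rw [hT.ua l L' L v (fun v' hv' hlt => ?_)]
      · congr 2
        unfold mu
        rw [if_pos hv1.1, if_pos hv1.1, hL2 v hvG]
      · refine hL0 v' (mem_filter.2 ⟨hv', ?_⟩)
        rw [hv1.2] at hlt
        exact lt_trans hlt h
    · have h0 : ρ' = ρ := Fin.ext h
      subst h0
      have h1 := r5 l i k
      refine le_trans (le_of_eq ?_) h1
      congr 1
      refine sum_congr rfl fun v hv => ?_
      have hv1 := (mem_filter.1 (mem_filter.1 hv).1)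
      rw [hT.ua l L' L v (fun v' hv' hlt => ?_), hmuG k v (mem_filter.1 hv).1]
      refine hL0 v' (mem_filter.2 ⟨hv', ?_⟩)
      rw [hv1.2] at hlt
      exact hlt
  · rw [hcast]
    have h1 := hS.s8 k p ρ' (by omega)
    have h2 := sum_bas_sub hB.ok hdis Lr b1 k (S p ρ')
    have h3 := r4 (Sum.inr (Sum.inr (Sum.inr (p, ULift.up ρ')))) k
    have h4 : |∑ v ∈ Gr, cof Y (S p ρ') (b1 k) v * (mu g Gr Lr k v - 1)| ≤
        q.K * Real.sqrt (∑ v ∈ Gr, cof Y (S p ρ') (b1 k) v ^ 2) +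
          2 * q.κ * ∑ v ∈ Gr, |cof Y (S p ρ') (b1 k) v| := h3
    have h5 := mass_loss hq hB (hb1' k) (hSS p ρ') Gr
    have h6 : ∑ n with Y.pu n = some p ∧ Y.noG (Gg T gr ρ') n,
        bas Y g (Tg T gr (ρ + 1)) L' b k (Y.ed n) = ∑ n ∈ S p ρ', bas Y g Gr Lr b1 k (Y.ed n) :=
      sum_congr rfl fun n _ => hbas k _
    have h7 : ∑ n ∈ S p ρ', bas Y g Gr Lr b1 k (Y.ed n) = ∑ n ∈ S p ρ', b1 k (Y.ed n) +
        ∑ v ∈ Gr, cof Y (S p ρ') (b1 k) v * (mu g Gr Lr k v - 1) := h2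
    rw [h6, h7]
    have h8 := (abs_le.1 (h4.trans h5)).1
    have h9 : (q.cc - ((ρ : ℕ) : ℝ) * (q.cc / 6)) * Y.D p ≤ ∑ n ∈ S p ρ', b1 k (Y.ed n) := h1
    linarith
  · rw [hcard]
    exact r6 i j
  · rw [hcard]
    exact r7 i hi j

end Pool.Agent.Work.MP_db9399_ts.helper55
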