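import Pool.Agent.Work.MP_db9399_ts_helper55.StepMain

/-!
# MP_db9399, PHASE, part G: three rounds, exact counts (helper55)
-/

set_option autoImplicit false
set_option linter.unusedSectionVars false

namespace Pool.Agent.Work.MP_db9399_ts.helper55

open Finset Classical

universe u

variable {E V P R N ι τ σ : Type u}

theorem tg_zero (T : Finset V) (gr : V → Fin 3) : Tg T gr 0 = ∅ := by
  unfold Tg
  exact filter_false_of_mem fun v _ h => Nat.not_lt_zero _ h

theorem tg_three (T : Finset V) (gr : V → Fin 3) : Tg T gr 3 = T := by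
  unfold Tg
  exact filter_true_of_mem fun v _ => (gr v).2

theorem card_gg (T : Finset V) (gr : V → Fin 3) (f : V → Prop) [DecidablePred f] :
    ((T.filter f).card : ℝ) = (((Gg T gr 0).filter f).card : ℝ) + (((Gg T gr 1).filter f).card : ℝ)
      + (((Gg T gr 2).filter f).card : ℝ) := by
  have h := card_eq_sum_card_fiberwise (s := T.filter f) (f := gr) (t := univ) (fun _ _ => by simp)
  rw [h, Fin.sum_univ_three]
  push_cast
  have h2 : ∀ ρ : Fin 3, (T.filter f).filter (fun v => gr v = ρ) = (Gg T gr ρ).filter f := by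
    intro ρ
    unfold Gg
    rw [filter_filter, filter_filter]
    exact filter_congr fun _ _ => and_comm
  rw [h2, h2, h2]

variable [Fintype E] [Fintype V] [Fintype P] [Fintype R] [Fintype N] [Fintype ι] [Fintype τ]
  [Fintype σ]

theorem start {g m : ℕ} (hg : 0 < g) {Y : Sys E V P R N} {T : Finset V} {gr : V → Fin 3}
    {side : V → ι} {b w : Fin g → E → ℝ} {u : Fin m → (V → Fin g) → V → ℝ} {U : Fin m → ι → ℝ}
    {α : τ → V → ℝ} {G : σ → V → V → ℝ} {q : Par} {C0 : ℝ}
    (hw : ∀ k e, |w k e - b k e| ≤ q.ε0 * b k e)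
    (mass : ∀ k p (ρ : Fin 3), q.cc * Y.D p ≤
      ∑ n with Y.pu n = some p ∧ Y.noG (Gg T gr ρ) n, b k (Y.ed n)) :
    St Y T gr side g m b w u U α G q C0 0 (fun _ => (⟨0, hg⟩ : Fin g)) w := by
  have hmu : ∀ (k : Fin g) v, mu g (Tg T gr 0) (fun _ => (⟨0, hg⟩ : Fin g)) k v = 1 := by
    intro k v
    refine mu_off _ k ?_
    rw [tg_zero]
    exact notMem_empty v
  refine ⟨fun k e => ?_, fun k p _ => ?_, fun k r => ?_, fun s k => ?_, fun s k k' => ?_,
    fun l i k ρ' hρ' => absurd hρ' (Nat.not_lt_zero _), fun k p ρ' _ => ?_⟩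
  · rw [tg_zero, bas_empty]
    simpa using hw k e
  · simp
  · simp
  · rw [tg_zero]
    simp
  · simp only [hmu]
    simp
  · have h := mass k p ρ'
    have h2 : ∀ n, bas Y g (Tg T gr 0) (fun _ => (⟨0, hg⟩ : Fin g)) b k (Y.ed n) =
        b k (Y.ed n) := by
      intro n
      rw [tg_zero, bas_empty]
    simp only [h2]
    simpa using h

/-- three rounds -/
theorem three (hP : Stmt_PUSH.{u}) {g m : ℕ} (hg : 2 ≤ g) {C0 : ℝ} (hC0 : 1 ≤ C0)
    (hX : LabX.{u} (m + g + 1) g C0) {Y : Sys E V P R N} {par : R → Prop} {T : Finset V}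
    {gr : V → Fin 3} {side : V → ι} {b w : Fin g → E → ℝ} {u : Fin m → (V → Fin g) → V → ℝ}
    {U : Fin m → ι → ℝ} {α : τ → V → ℝ} {G : σ → V → V → ℝ} {q : Par} (hq : q.Ok g C0)
    (hB : Bs Y par T gr side q) (hT : Ts T gr side g m u U α G q)
    (hb : ∀ k e, 0 ≤ b k e ∧ b k e ≤ q.β) (hw : ∀ k e, |w k e - b k e| ≤ q.ε0 * b k e)
    (mass : ∀ k p (ρ : Fin 3), q.cc * Y.D p ≤
      ∑ n with Y.pu n = some p ∧ Y.noG (Gg T gr ρ) n, b k (Y.ed n))
    (cnt : ι → Fin g → ℕ) (hc1 : ∀ i, ∑ j, cnt i j = (T.filter fun v => side v = i).card)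
    (hc2 : ∀ i j, |(cnt i j : ℝ) - ((T.filter fun v => side v = i).card : ℝ) / g| ≤ 3)
    (hKc : 3 + 2 * C0 ≤ q.Kc) {nn : ℝ} (hnn : 0 < nn) (hgn : g * q.Kc ≤ nn)
    (hκ : q.Kc / nn ≤ q.κ)
    (hsz : ∀ i, (T.filter fun v => side v = i).Nonempty →
      nn ≤ (((Gg T gr 2).filter fun v => side v = i).card : ℝ)) :
    ∃ (L : V → Fin g) (w' : Fin g → E → ℝ), St Y T gr side g m b w u U α G q C0 3 L w' ∧
      ∀ i j, (T.filter fun v => side v = i ∧ L v = j).card = cnt i j := by
  have hg0 : (0 : ℝ) < g := by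
    have : 0 < g := by omega
    exact_mod_cast this
  have hgn0 : (g : ℝ) ≠ 0 := hg0.ne'
  have hK0 : 0 ≤ q.Kc := by linarith
  have hu0 : ∀ (i : ι) (j : Fin g), |(fun (_ : ι) (_ : Fin g) => (1 : ℝ) / g) i j - 1 / g| = 0 := by
    intro i j
    simp
  have hsum1 : ∀ i : ι, ∑ j : Fin g, (fun (_ : ι) (_ : Fin g) => (1 : ℝ) / g) i j = 1 := by
    intro i
    simp only [sum_const, card_univ, Fintype.card_fin, nsmul_eq_mul]
    field_simp
  obtain ⟨L1, w1, S1, o1, c1, _⟩ := step hP hg hC0 hX hq hB hT hb (0 : Fin 3)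
    (fun _ _ => 1 / g) (fun _ _ => by positivity) hsum1
    (fun i j => (hu0 i j).le.trans hq.κ0)
    (fun i j => by rw [hu0 i j, zero_mul]; exact hK0)
    (start (C0 := C0) (u := u) (U := U) (α := α) (G := G) (side := side) (by omega : 0 < g) hw mass)
  obtain ⟨L2, w2, S2, o2, c2, _⟩ := step hP hg hC0 hX hq hB hT hb (1 : Fin 3)
    (fun _ _ => 1 / g) (fun _ _ => by positivity) hsum1
    (fun i j => (hu0 i j).le.trans hq.κ0)
    (fun i j => by rw [hu0 i j, zero_mul]; exact hK0) S1
  -- probabilities of the last round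
  set n : Fin 3 → ι → ℝ := fun ρ i => (((Gg T gr ρ).filter fun v => side v = i).card : ℝ) with hn
  set d0 : ι → Fin g → ℕ := fun i j => ((Gg T gr 0).filter fun v => side v = i ∧ L1 v = j).card
    with hd0
  set d1 : ι → Fin g → ℕ := fun i j => ((Gg T gr 1).filter fun v => side v = i ∧ L2 v = j).card
    with hd1
  set r : ι → Fin g → ℝ := fun i j => (cnt i j : ℝ) - d0 i j - d1 i j with hr
  have hcT : ∀ i, ((T.filter fun v => side v = i).card : ℝ) = n 0 i + n 1 i + n 2 i := fun i =>
    card_gg T gr (fun v => side v = i)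
  have hrn : ∀ i j, |r i j - n 2 i / g| ≤ q.Kc := by
    intro i j
    have h0 := c1 i j
    have h1 := c2 i j
    have h2 := hc2 i j
    rw [hcT i] at h2
    have h3 : r i j - n 2 i / g = ((cnt i j : ℝ) - (n 0 i + n 1 i + n 2 i) / g) -
        ((d0 i j : ℝ) - n 0 i * (1 / g)) - ((d1 i j : ℝ) - n 1 i * (1 / g)) := by
      simp only [hr]
      ring
    have h0' : |(d0 i j : ℝ) - n 0 i * (1 / g)| ≤ C0 := h0
    have h1' : |(d1 i j : ℝ) - n 1 i * (1 / g)| ≤ C0 := h1
    rw [h3]
    have a1 := abs_le.1 h0'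
    have a2 := abs_le.1 h1'
    have a3 := abs_le.1 h2
    rw [abs_le]
    constructor <;> linarith [a1.1, a1.2, a2.1, a2.2, a3.1, a3.2]
  have hd0s : ∀ i, ∑ j, (d0 i j : ℝ) = n 0 i := by
    intro i
    simp only [hd0, hn]
    rw [card_eq_sum_card_fiberwise (s := (Gg T gr 0).filter fun v => side v = i) (f := L1)
      (t := univ) (fun _ _ => by simp)]
    push_cast
    refine sum_congr rfl fun j _ => ?_
    rw [filter_filter]
  have hd1s : ∀ i, ∑ j, (d1 i j : ℝ) = n 1 i := by
    intro i
    simp only [hd1, hn]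
    rw [card_eq_sum_card_fiberwise (s := (Gg T gr 1).filter fun v => side v = i) (f := L2)
      (t := univ) (fun _ _ => by simp)]
    push_cast
    refine sum_congr rfl fun j _ => ?_
    rw [filter_filter]
  have hrs : ∀ i, ∑ j, r i j = n 2 i := by
    intro i
    simp only [hr, sum_sub_distrib]
    rw [hd0s, hd1s]
    have h := hc1 i
    have h2 : ∑ j, (cnt i j : ℝ) = ((T.filter fun v => side v = i).card : ℝ) := by
      rw [← h]
      push_cast
      rfl
    rw [h2, hcT]
    ring
  have hn2 : ∀ i, n 2 i ≠ 0 → nn ≤ n 2 i := by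
    intro i hi
    refine hsz i ?_
    by_contra hne
    rw [not_nonempty_iff_eq_empty] at hne
    apply hi
    have h1 : (Gg T gr 2).filter (fun v => side v = i) ⊆ T.filter fun v => side v = i :=
      filter_subset_filter _ (filter_subset _ _)
    rw [hne, subset_empty] at h1
    simp only [hn]
    rw [h1]
    simp
  have hr0 : ∀ i j, n 2 i ≠ 0 → 0 ≤ r i j := by
    intro i j hi
    have h1 := (abs_le.1 (hrn i j)).1
    have h2 : q.Kc ≤ n 2 i / g := by
      rw [le_div_iff₀ hg0]
      linarith [hn2 i hi]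
    linarith
  set π : ι → Fin g → ℝ := fun i j => if n 2 i = 0 then 1 / g else r i j / n 2 i with hπ
  have hn0 : ∀ i, 0 ≤ n 2 i := fun i => Nat.cast_nonneg _
  have hπd : ∀ i j, n 2 i ≠ 0 → π i j - 1 / g = (r i j - n 2 i / g) / n 2 i := by
    intro i j hi
    simp only [hπ, if_neg hi]
    field_simp
  obtain ⟨L3, w3, S3, o3, _, c3⟩ := step hP hg hC0 hX hq hB hT hb (2 : Fin 3) π
    (fun i j => by
      simp only [hπ]
      split_ifs with h
      · positivity
      · exact div_nonneg (hr0 i j h) (hn0 i))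
    (fun i => by
      simp only [hπ]
      split_ifs with h
      · exact hsum1 i
      · rw [← sum_div, hrs, div_self h])
    (fun i j => by
      by_cases h : n 2 i = 0
      · simp only [hπ, if_pos h, sub_self, abs_zero]
        exact hq.κ0
      · rw [hπd i j h, abs_div, abs_of_nonneg (hn0 i)]
        have h1 := hn2 i h
        refine le_trans ?_ hκ
        exact div_le_div₀ hK0 (hrn i j) hnn h1)
    (fun i j => by
      by_cases h : n 2 i = 0
      · simp only [hπ, if_pos h, sub_self, abs_zero, zero_mul]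
        exact hK0
      · rw [hπd i j h, abs_div, abs_of_nonneg (hn0 i)]
        have h2 : (((Gg T gr 2).filter fun v => side v = i).card : ℝ) = n 2 i := rfl
        rw [h2, div_mul_cancel₀ _ h]
        exact hrn i j) S2
  refine ⟨L3, w3, S3, fun i j => ?_⟩
  by_cases h : n 2 i = 0
  · have h1 : T.filter (fun v => side v = i) = ∅ := by
      by_contra hne
      have := hsz i (nonempty_iff_ne_empty.2 hne)
      have h2 : (((Gg T gr 2).filter fun v => side v = i).card : ℝ) = n 2 i := rfl
      rw [h2, h] at this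
      linarith
    have h2 : T.filter (fun v => side v = i ∧ L3 v = j) = ∅ := by
      rw [← subset_empty, ← h1]
      exact fun v hv => mem_filter.2 ⟨(mem_filter.1 hv).1, (mem_filter.1 hv).2.1⟩
    have h3 := hc1 i
    rw [h1, card_empty] at h3
    rw [h2, card_empty]
    exact (sum_eq_zero_iff.1 h3 j (mem_univ _)).symm
  · have h2 : ∀ j, n 2 i * π i j = r i j := by
      intro j
      simp only [hπ, if_neg h]
      rw [mul_div_cancel₀ _ h]
    have h3 := c3 i (fun j => ⟨cnt i j - d0 i j - d1 i j, by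
      have h4 : (((Gg T gr 2).filter fun v => side v = i).card : ℝ) * π i j = r i j := h2 j
      rw [h4]
      have h5 := hr0 i j h
      have h6 : (d0 i j : ℝ) + d1 i j ≤ cnt i j := by
        simp only [hr] at h5
        linarith
      have h7 : d0 i j + d1 i j ≤ cnt i j := by exact_mod_cast h6
      rw [Nat.cast_sub (by omega), Nat.cast_sub (by omega)]⟩) j
    have h4 : (((Gg T gr 2).filter fun v => side v = i).card : ℝ) * π i j = r i j := h2 j
    rw [h4] at h3
    have h5 := card_gg T gr (fun v => side v = i ∧ L3 v = j)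
    have h6 : (Gg T gr 0).filter (fun v => side v = i ∧ L3 v = j) =
        (Gg T gr 0).filter fun v => side v = i ∧ L1 v = j := by
      refine filter_congr fun v hv => ?_
      have hv0 := (mem_filter.1 hv).2
      rw [o3 v (fun h => by
        have := (mem_filter.1 h).2
        rw [hv0] at this
        exact absurd this (by decide)), o2 v (fun h => by
        have := (mem_filter.1 h).2
        rw [hv0] at this
        exact absurd this (by decide))]
    have h7 : (Gg T gr 1).filter (fun v => side v = i ∧ L3 v = j) =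
        (Gg T gr 1).filter fun v => side v = i ∧ L2 v = j := by
      refine filter_congr fun v hv => ?_
      have hv0 := (mem_filter.1 hv).2
      rw [o3 v (fun h => by
        have := (mem_filter.1 h).2
        rw [hv0] at this
        exact absurd this (by decide))]
    have h8 : ((T.filter fun v => side v = i ∧ L3 v = j).card : ℝ) = cnt i j := by
      rw [h5, h3, h6, h7]
      simp only [hr, hd0, hd1]
      ring
    exact_mod_cast h8

end Pool.Agent.Work.MP_db9399_ts.helper55
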